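import Pool.Agent.H330.PT.Spec

/-!
# BETA: the invariant alternating form on a minimal invariant subspace
-/

namespace Pool.Agent.H330.PT

open Module Polynomial

namespace BETA

section

variable {F V : Type} [Field F] [AddCommGroup V] [Module F V]

theorem mul_ap (z : V →ₗ[F] V) (f g : F[X]) (x : V) :
    aeval z (f * g) x = aeval z f (aeval z g x) := by
  rw [map_mul]
  rfl

theorem mul_ap' (z : V →ₗ[F] V) (f g : F[X]) (x : V) :
    aeval z (f * g) x = aeval z g (aeval z f x) := by
  rw [mul_comm, mul_ap]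

theorem add_ap (z : V →ₗ[F] V) (f g : F[X]) (x : V) :
    aeval z (f + g) x = aeval z f x + aeval z g x := by
  rw [map_add]
  rfl

theorem sub_ap (z : V →ₗ[F] V) (f g : F[X]) (x : V) :
    aeval z (f - g) x = aeval z f x - aeval z g x := by
  rw [map_sub]
  rfl

theorem C_ap (z : V →ₗ[F] V) (c : F) (x : V) : aeval z (C c) x = c • x := by
  rw [aeval_C]
  rfl

theorem X_ap (z : V →ₗ[F] V) (x : V) : aeval z (X : F[X]) x = z x := by
  rw [aeval_X]

theorem Cmul_ap (z : V →ₗ[F] V) (c : F) (f : F[X]) (x : V) :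
    aeval z (C c * f) x = c • aeval z f x := by
  rw [mul_ap, C_ap]

/-- polynomials in `z` commute with the maps that commute with `z` -/
theorem comm_ap {z J : V →ₗ[F] V} (h : ∀ x, J (z x) = z (J x)) (f : F[X]) (x : V) :
    J (aeval z f x) = aeval z f (J x) := by
  induction f using Polynomial.induction_on generalizing x with
  | C c => rw [C_ap, C_ap, map_smul]
  | add f g hf hg => rw [add_ap, add_ap, map_add, hf, hg]
  | monomial n c ih =>
    rw [pow_succ, ← mul_assoc, mul_ap z (C c * X ^ n) X x, mul_ap z (C c * X ^ n) X (J x), X_ap,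
      X_ap, ih, h]

theorem mem_ap {z : V →ₗ[F] V} {M : Submodule F V} (h : ∀ x ∈ M, z x ∈ M) (f : F[X]) {x : V}
    (hx : x ∈ M) : aeval z f x ∈ M := by
  induction f using Polynomial.induction_on generalizing x with
  | C c => rw [C_ap]; exact M.smul_mem _ hx
  | add f g hf hg => rw [add_ap]; exact M.add_mem (hf hx) (hg hx)
  | monomial n c ih =>
    rw [pow_succ, ← mul_assoc, mul_ap, X_ap]
    exact ih (h x hx)

theorem zz_ap (J J' : V →ₗ[F] V) (x : V) : zz J J' x = J (J' x) + J' (J x) := rfl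

end

end BETA

open BETA

theorem h_BETA : S_BETA := by
  intro F V _ _ _ _ d J J' hJ hJ' M e α β hM hS
  obtain ⟨he, he0, hJe, hex, hun, hinv, hkill⟩ := hS
  set z := zz J J' with hz
  -- commutation
  have cJ : ∀ x, J (z x) = z (J x) := by
    intro x
    rw [hz, zz_ap, zz_ap, map_add, hJ, hJ, add_comm, map_smul]
  have cJ' : ∀ x, J' (z x) = z (J' x) := by
    intro x
    rw [hz, zz_ap, zz_ap, map_add, hJ', hJ', add_comm, map_smul]
  have hzM : ∀ x ∈ M, z x ∈ M := by
    intro x hx
    rw [hz, zz_ap]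
    exact M.add_mem (hM.inv _ (hM.inv x hx).2).1 (hM.inv _ (hM.inv x hx).1).2
  have hJeM : J e ∈ M := (hM.inv e he).1
  -- coordinates
  have hch : ∀ x : M, ∃ q : F[X] × F[X], (x : V) = aeval z q.1 e + aeval z q.2 (J e) := by
    intro x
    obtain ⟨f, g, h⟩ := hex x x.2
    exact ⟨(f, g), h⟩
  choose q hq using hch
  have key : ∀ (x : M) (f g : F[X]), (x : V) = aeval z f e + aeval z g (J e) →
      ∀ h : F[X], aeval z ((q x).1 * h) e = aeval z (f * h) e ∧
        aeval z ((q x).2 * h) e = aeval z (g * h) e := by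
    intro x f g hx h
    have h1 := hun ((q x).1 - f) ((q x).2 - g) (by
      rw [sub_ap, sub_ap, sub_add_sub_comm, ← hq x, ← hx, sub_self])
    rw [sub_ap, sub_ap, sub_eq_zero, sub_eq_zero] at h1
    rw [mul_ap', mul_ap', mul_ap', mul_ap', h1.1, h1.2]
    exact ⟨rfl, rfl⟩
  obtain ⟨l, hl⟩ : ∃ l : V →ₗ[F] F, l e ≠ 0 := by
    by_contra hcon
    push Not at hcon
    exact he0 ((Module.forall_dual_apply_eq_zero_iff F e).1 hcon)
  -- the value of the form
  have bval : ∀ (x y : M) (f g f' g' : F[X]), (x : V) = aeval z f e + aeval z g (J e) →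
      (y : V) = aeval z f' e + aeval z g' (J e) →
      l (aeval z ((q x).1 * (q y).2 - (q x).2 * (q y).1) e) =
        l (aeval z (f * g' - g * f') e) := by
    intro x y f g f' g' hx hy
    rw [sub_ap, sub_ap, (key x f g hx _).1, (key x f g hx _).2, mul_comm f (q y).2,
      mul_comm g (q y).1, (key y f' g' hy _).1, (key y f' g' hy _).2, mul_comm g' f,
      mul_comm f' g]
  have hadd : ∀ x y : M, ((x + y : M) : V) = aeval z ((q x).1 + (q y).1) e +
      aeval z ((q x).2 + (q y).2) (J e) := by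
    intro x y
    rw [add_ap, add_ap, Submodule.coe_add, hq x, hq y, ← hq x, ← hq y]
    nth_rewrite 1 [hq x]
    nth_rewrite 1 [hq y]
    abel
  have hsm : ∀ (c : F) (x : M), ((c • x : M) : V) = aeval z (C c * (q x).1) e +
      aeval z (C c * (q x).2) (J e) := by
    intro c x
    rw [Cmul_ap, Cmul_ap, Submodule.coe_smul, ← smul_add, ← hq x]
  let b : M →ₗ[F] M →ₗ[F] F := LinearMap.mk₂ F
    (fun x y => l (aeval z ((q x).1 * (q y).2 - (q x).2 * (q y).1) e))
    (by
      intro x x' y
      rw [bval (x + x') y _ _ _ _ (hadd x x') (hq y), ← map_add, ← add_ap]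
      congr 3
      ring)
    (by
      intro c x y
      rw [bval (c • x) y _ _ _ _ (hsm c x) (hq y), ← map_smul, ← Cmul_ap]
      congr 3
      ring)
    (by
      intro x y y'
      rw [bval x (y + y') _ _ _ _ (hq x) (hadd y y'), ← map_add, ← add_ap]
      congr 3
      ring)
    (by
      intro c x y
      rw [bval x (c • y) _ _ _ _ (hq x) (hsm c y), ← map_smul, ← Cmul_ap]
      congr 3
      ring)
  have hb : ∀ (x y : M) (f g f' g' : F[X]), (x : V) = aeval z f e + aeval z g (J e) →
      (y : V) = aeval z f' e + aeval z g' (J e) → b x y = l (aeval z (f * g' - g * f') e) :=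
    bval
  -- the action of `J` and `J'`
  have aJ : ∀ (x : V) (f g : F[X]), x = aeval z f e + aeval z g (J e) →
      J x = aeval z (C d * g) e + aeval z f (J e) := by
    intro x f g hx
    rw [hx, map_add, comm_ap cJ, comm_ap cJ, hJ, map_smul, Cmul_ap, add_comm]
  have hJJ : J' (J e) = aeval z (X - C d * β) e - aeval z α (J e) := by
    have h1 : z e = J (J' e) + J' (J e) := rfl
    have h2 : J (J' e) = aeval z (C d * β) e + aeval z α (J e) := aJ _ _ _ hJe
    rw [sub_ap, X_ap, h1, h2]
    abel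
  have aJ' : ∀ (x : V) (f g : F[X]), x = aeval z f e + aeval z g (J e) →
      J' x = aeval z (f * α + g * (X - C d * β)) e + aeval z (f * β - g * α) (J e) := by
    intro x f g hx
    rw [hx, map_add, comm_ap cJ', comm_ap cJ', hJe, hJJ, map_add, map_sub, add_ap,
      sub_ap z (f * β), mul_ap z f α, mul_ap z g (X - C d * β), mul_ap z f β, mul_ap z g α]
    abel
  refine ⟨b, ?_, ?_, ?_, ?_⟩
  · intro x
    rw [hb x x _ _ _ _ (hq x) (hq x)]
    have : (q x).1 * (q x).2 - (q x).2 * (q x).1 = 0 := by ring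
    rw [this, map_zero, LinearMap.zero_apply, map_zero]
  · intro x hx
    by_contra hx0
    have h1 : aeval z (q x).1 e ≠ 0 ∨ aeval z (q x).2 e ≠ 0 := by
      by_contra hcon
      push Not at hcon
      apply hx0
      apply Subtype.ext
      rw [hq x, hcon.1, hkill _ hcon.2 _ hJeM, add_zero]
      rfl
    rcases h1 with h1 | h1
    · obtain ⟨h, hh⟩ := (hinv (q x).1).resolve_left h1
      have h2 := hx ⟨aeval z h (J e), mem_ap hzM h hJeM⟩
      rw [hb x _ _ _ 0 h (hq x) (by
        rw [map_zero, LinearMap.zero_apply, zero_add])] at h2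
      have h3 : (q x).1 * h - (q x).2 * 0 = h * (q x).1 := by ring
      rw [h3, hh] at h2
      exact hl h2
    · obtain ⟨h, hh⟩ := (hinv (q x).2).resolve_left h1
      have h2 := hx ⟨aeval z h e, mem_ap hzM h he⟩
      rw [hb x _ _ _ h 0 (hq x) (by
        rw [map_zero, LinearMap.zero_apply, add_zero])] at h2
      have h3 : (q x).1 * 0 - (q x).2 * h = 0 - h * (q x).2 := by ring
      rw [h3, sub_ap, hh, map_zero, LinearMap.zero_apply, zero_sub, map_neg,
        neg_eq_zero] at h2
      exact hl h2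
  · intro x y x' y' hx' hy'
    rw [hb x' y _ _ _ _ (hx'.trans (aJ _ _ _ (hq x))) (hq y),
      hb x y' _ _ _ _ (hq x) (hy'.trans (aJ _ _ _ (hq y))), ← map_neg, ← sub_eq_zero, ← map_sub,
      sub_neg_eq_add, ← add_ap]
    have : C d * (q x).2 * (q y).2 - (q x).1 * (q y).1 +
        ((q x).1 * (q y).1 - (q x).2 * (C d * (q y).2)) = 0 := by ring
    rw [this, map_zero, LinearMap.zero_apply, map_zero]
  · intro x y x' y' hx' hy'
    rw [hb x' y _ _ _ _ (hx'.trans (aJ' _ _ _ (hq x))) (hq y),
      hb x y' _ _ _ _ (hq x) (hy'.trans (aJ' _ _ _ (hq y))), ← map_neg, ← sub_eq_zero,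
      ← map_sub, sub_neg_eq_add, ← add_ap]
    have : ((q x).1 * α + (q x).2 * (X - C d * β)) * (q y).2 -
        ((q x).1 * β - (q x).2 * α) * (q y).1 +
        ((q x).1 * ((q y).1 * β - (q y).2 * α) -
          (q x).2 * ((q y).1 * α + (q y).2 * (X - C d * β))) = 0 := by ring
    rw [this, map_zero, LinearMap.zero_apply, map_zero]

end Pool.Agent.H330.PT
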