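import Pool.Agent.H330.PT.Spec

/-!
helper34: DEG, minimal invariant subspaces which are not totally isotropic.
-/

set_option autoImplicit false

namespace Pool.Agent.H330.PT

open Module Polynomial

namespace DEG

variable {F V : Type} [Field F] [AddCommGroup V] [Module F V] {B : V →ₗ[F] V →ₗ[F] F} {d : F}
  {J J' : V →ₗ[F] V}

theorem z_apply (x : V) : zz J J' x = J (J' x) + J' (J x) := rfl

theorem z_adj (hJ : IsJ B d J) (hJ' : IsJ B d J') (x y : V) :
    B (zz J J' x) y = B x (zz J J' y) := by
  rw [z_apply, z_apply, map_add, LinearMap.add_apply, hJ.skew, hJ'.skew, hJ'.skew, hJ.skew,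
    map_add, neg_neg, neg_neg, add_comm]

theorem z_J (hJ : IsJ B d J) (x : V) : zz J J' (J x) = J (zz J J' x) := by
  rw [z_apply, z_apply, map_add, hJ.sq, hJ.sq, map_smul, add_comm]

theorem z_J' (hJ' : IsJ B d J') (x : V) : zz J J' (J' x) = J' (zz J J' x) := by
  rw [z_apply, z_apply, map_add, hJ'.sq, hJ'.sq, map_smul, add_comm]

theorem p_mul (z : V →ₗ[F] V) (f g : F[X]) (x : V) :
    aeval z (f * g) x = aeval z f (aeval z g x) := by
  rw [map_mul]
  rfl

theorem p_C (z : V →ₗ[F] V) (a : F) (x : V) : aeval z (C a) x = a • x := by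
  rw [aeval_C, Module.algebraMap_end_apply]

theorem p_comm {z T : V →ₗ[F] V} (h : ∀ x, z (T x) = T (z x)) (f : F[X]) :
    ∀ x, aeval z f (T x) = T (aeval z f x) := by
  induction f using Polynomial.induction_on with
  | C a => intro x; rw [p_C, p_C, map_smul]
  | add p q hp hq =>
    intro x
    rw [map_add, LinearMap.add_apply, LinearMap.add_apply, hp, hq, map_add]
  | monomial n a hn =>
    intro x
    have e1 : ∀ y, aeval z (C a * X ^ n * X) y = aeval z (C a * X ^ n) (z y) := fun y => by
      rw [p_mul z (C a * X ^ n) X, aeval_X]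
    rw [pow_succ, ← mul_assoc, e1, e1, h, hn]

theorem p_adj {z : V →ₗ[F] V} (h : ∀ x y, B (z x) y = B x (z y)) (f : F[X]) :
    ∀ x y, B (aeval z f x) y = B x (aeval z f y) := by
  induction f using Polynomial.induction_on with
  | C a => intro x y; rw [p_C, p_C, map_smul, map_smul, LinearMap.smul_apply]
  | add p q hp hq =>
    intro x y
    rw [map_add, LinearMap.add_apply, LinearMap.add_apply, map_add, map_add,
      LinearMap.add_apply, hp, hq]
  | monomial n a hn =>
    intro x y
    rw [pow_succ, ← mul_assoc]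
    have h1 : aeval z (C a * X ^ n * X) y = z (aeval z (C a * X ^ n) y) := by
      rw [mul_comm, p_mul, aeval_X]
    rw [h1, p_mul, aeval_X, hn, h]

/-- `B (f(z) J x) x = 0` -/
theorem skew_zero (h2 : (2 : F) ≠ 0) (hB : ∀ x y, B x y = B y x) {z T : V →ₗ[F] V}
    (hz : ∀ x y, B (z x) y = B x (z y)) (hc : ∀ x, z (T x) = T (z x))
    (hT : ∀ x y, B (T x) y = - B x (T y)) (f : F[X]) (x : V) : B (aeval z f (T x)) x = 0 := by
  have h1 : B (aeval z f (T x)) x = - B (aeval z f (T x)) x := by
    calc B (aeval z f (T x)) x = B (T (aeval z f x)) x := by rw [p_comm hc]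
      _ = - B (aeval z f x) (T x) := hT _ _
      _ = - B x (aeval z f (T x)) := by rw [p_adj hz]
      _ = - B (aeval z f (T x)) x := by rw [hB]
  have h3 : (2 : F) * B (aeval z f (T x)) x = 0 := by
    rw [two_mul]
    nth_rewrite 1 [h1]
    exact neg_add_cancel _
  exact (mul_eq_zero.1 h3).resolve_left h2

end DEG

open DEG in
theorem h_DEG : S_DEG := by
  intro F V _ _ _ _ _ h2 B hB d hd J J' hJ hJ' M e α β _ hS hne
  obtain ⟨heM, he0, hJe, hgen, -, hinv, hkill⟩ := hS
  set z := zz J J' with hzd
  have hz : ∀ x y, B (z x) y = B x (z y) := z_adj hJ hJ'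
  have hcJ : ∀ x, z (J x) = J (z x) := z_J hJ
  have hcJ' : ∀ x, z (J' x) = J' (z x) := z_J' hJ'
  have hd0 : d ≠ 0 := by
    intro h
    exact hd 0 (by rw [h, mul_zero])
  -- the form `h`
  have hJJ : ∀ x y, B (J x) (J y) = - (d * B x y) := by
    intro x y
    rw [hJ.skew, hJ.sq, map_smul, smul_eq_mul]
  have hne0 : ¬ ∀ f : F[X], B (aeval z f e) e = 0 := by
    intro h
    obtain ⟨x, hx, y, hy, hxy⟩ := hne
    apply hxy
    obtain ⟨f, g, rfl⟩ := hgen x hx
    obtain ⟨f', g', rfl⟩ := hgen y hy
    have e1 : B (aeval z f e) (aeval z f' e) = 0 := by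
      rw [← p_adj hz, ← p_mul]
      exact h _
    have e2 : B (aeval z g (J e)) (aeval z f' e) = 0 := by
      rw [← p_adj hz, ← p_mul]
      exact skew_zero h2 hB hz hcJ hJ.skew _ _
    have e3 : B (aeval z f e) (aeval z g' (J e)) = 0 := by
      rw [hB, ← p_adj hz, ← p_mul]
      exact skew_zero h2 hB hz hcJ hJ.skew _ _
    have e4 : B (aeval z g (J e)) (aeval z g' (J e)) = 0 := by
      rw [← p_adj hz, ← p_mul, p_comm hcJ, hJJ, h, mul_zero, neg_zero]
    rw [map_add, map_add, LinearMap.add_apply, LinearMap.add_apply, e1, e2, e3, e4, add_zero,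
      add_zero]
  -- if `h (f w) = 0` for all `f` then `w = 0`
  have hzero : ∀ w : F[X], (∀ f : F[X], B (aeval z (f * w) e) e = 0) → aeval z w e = 0 := by
    intro w hw
    rcases hinv w with h | ⟨g, hg⟩
    · exact h
    · exfalso
      apply hne0
      intro f
      have h3 := hw (f * g)
      rw [mul_assoc, p_mul, hg] at h3
      exact h3
  -- `α = 0`
  have hα : aeval z α e = 0 := by
    apply hzero
    intro f
    have h3 : B (aeval z f (J' e)) e = 0 := skew_zero h2 hB hz hcJ' hJ'.skew f e
    rw [hJe, map_add, map_add, LinearMap.add_apply, ← p_mul, ← p_mul,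
      skew_zero h2 hB hz hcJ hJ.skew (f * β) e, add_zero] at h3
    exact h3
  rw [hα, zero_add] at hJe
  have hJJe : J' (J e) = z e - d • aeval z β e := by
    have h3 : z e = J (J' e) + J' (J e) := rfl
    rw [h3, hJe, ← p_comm hcJ, hJ.sq, map_smul]
    abel
  -- `z = 2 d β`
  have hw : aeval z (X - C (2 * d) * β) e = 0 := by
    apply hzero
    intro f
    have h3 : B (aeval z f (J' e)) (J e) = - B (aeval z f e) (J' (J e)) := by
      rw [p_comm hcJ', hJ'.skew]
    have h4 : B (aeval z f (J' e)) (J e) = - (d * B (aeval z (f * β) e) e) := by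
      rw [hJe, ← p_mul, p_comm hcJ, hJJ]
    have h5 : B (aeval z f e) (J' (J e)) = B (aeval z (f * X) e) e -
        d * B (aeval z (f * β) e) e := by
      rw [hJJe, map_sub, map_smul, smul_eq_mul]
      have h6 : B (aeval z f e) (z e) = B (aeval z (f * X) e) e := by
        rw [p_mul, aeval_X, p_comm (fun _ => rfl), hz]
      have h7 : B (aeval z f e) (aeval z β e) = B (aeval z (f * β) e) e := by
        rw [mul_comm, p_mul, p_adj hz β]
      rw [h6, h7]
    rw [h4, h5] at h3
    have h8 : B (aeval z (f * (X - C (2 * d) * β)) e) e = B (aeval z (f * X) e) e -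
        2 * d * B (aeval z (f * β) e) e := by
      have h9 : f * (X - C (2 * d) * β) = f * X - C (2 * d) * (f * β) := by ring
      rw [h9, map_sub, LinearMap.sub_apply, map_sub, LinearMap.sub_apply, p_mul z (C (2 * d)), p_C,
        map_smul, LinearMap.smul_apply, smul_eq_mul]
    rw [h8]
    linear_combination h3
  have hze : z e = (2 * d) • aeval z β e := by
    rw [map_sub, LinearMap.sub_apply, aeval_X, p_mul, p_C, sub_eq_zero] at hw
    exact hw
  have hJJe2 : J' (J e) = d • aeval z β e := by
    rw [hJJe, hze, ← sub_smul]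
    congr 1
    ring
  -- `β² = 1`
  have hβ2 : aeval z (β * β) e = e := by
    have h3 : J' (J' e) = d • aeval z (β * β) e := by
      rw [hJe, ← p_comm hcJ', hJJe2, map_smul, ← p_mul]
    rw [hJ'.sq] at h3
    have h4 := smul_right_injective V hd0 h3
    exact h4.symm
  -- `β = ± 1`
  have hsign : ∀ ε : F, ε * ε = 1 → aeval z β e = ε • e → ∀ x ∈ M, J' x = ε • J x := by
    intro ε _ hβ x hx
    obtain ⟨f, g, rfl⟩ := hgen x hx
    have h3 : J' e = ε • J e := by
      rw [hJe, p_comm hcJ, hβ, map_smul]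
    have h4 : J' (J e) = ε • J (J e) := by
      rw [hJJe2, hβ, hJ.sq, smul_smul, smul_smul, mul_comm]
    rw [map_add, map_add, smul_add, ← p_comm hcJ', ← p_comm hcJ', ← p_comm hcJ, ← p_comm hcJ, h3,
      h4, map_smul, map_smul]
  rcases hinv (β - 1) with h3 | ⟨g, hg⟩
  · left
    rw [map_sub, LinearMap.sub_apply, map_one, sub_eq_zero] at h3
    intro x hx
    rw [hsign 1 (one_mul 1) (by rw [h3, one_smul]; rfl) x hx, one_smul]
  · right
    have h4 : aeval z (β + 1) e = 0 := by
      have h5 : aeval z (β + 1) (aeval z (g * (β - 1)) e) = 0 := by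
        rw [← p_mul]
        have h6 : (β + 1) * (g * (β - 1)) = g * (β * β) - g := by ring
        rw [h6, map_sub, LinearMap.sub_apply, p_mul, hβ2, sub_self]
      rwa [hg] at h5
    rw [map_add, LinearMap.add_apply, map_one] at h4
    have h5 : aeval z β e = (-1 : F) • e := by
      rw [neg_smul, one_smul]
      exact eq_neg_of_add_eq_zero_left h4
    intro x hx
    rw [hsign (-1) (by norm_num) h5 x hx, neg_smul, one_smul]

end Pool.Agent.H330.PT
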