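import Mathlib

/-!
# Orthogonal groups in odd characteristic: definitions

`F` is a field with `2 ≠ 0`, `V` a finite-dimensional space, `B` a symmetric nondegenerate bilinear
form.
-/

namespace Pool.Agent.H330.PT

open Module

section Defs

variable {F V : Type} [Field F] [AddCommGroup V] [Module F V]

/-- `B` is symmetric and nondegenerate -/
structure IsForm (B : V →ₗ[F] V →ₗ[F] F) : Prop where
  symm : ∀ x y, B x y = B y x
  nondeg : ∀ x, (∀ y, B x y = 0) → x = 0

/-- the isometry group `O(V, B)` -/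
def Orth (B : V →ₗ[F] V →ₗ[F] F) : Subgroup (V ≃ₗ[F] V) where
  carrier := {g | ∀ x y, B (g x) (g y) = B x y}
  mul_mem' {a b} ha hb x y := by
    change B (a (b x)) (a (b y)) = B x y
    rw [ha, hb]
  one_mem' x y := rfl
  inv_mem' {a} ha x y := by
    have h := ha (a⁻¹ x) (a⁻¹ y)
    have e : ∀ v, a (a⁻¹ v) = v := fun v => by
      change (a * a⁻¹) v = v
      rw [mul_inv_cancel]; rfl
    rw [e, e] at h
    exact h.symm

/-- `Ω(V, B) = [O(V, B), O(V, B)]` -/
def Om (B : V →ₗ[F] V →ₗ[F] F) : Subgroup (V ≃ₗ[F] V) := ⁅Orth B, Orth B⁆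

/-- `B` is of plus type: there is a totally isotropic subspace of half the dimension -/
def IsPlus (B : V →ₗ[F] V →ₗ[F] F) : Prop :=
  ∃ U : Submodule F V, (∀ x ∈ U, ∀ y ∈ U, B x y = 0) ∧ 2 * finrank F U = finrank F V

/-- Siegel transformation (for `B a a = 0`, `B a b = 0`) -/
def sieg (B : V →ₗ[F] V →ₗ[F] F) (a b x : V) : V :=
  x + B x a • b - B x b • a - (2⁻¹ * B b b * B x a) • a

/-- `c` is not a scalar -/
def NonScal (c : V ≃ₗ[F] V) : Prop := ∀ l : F, ∃ x, c x ≠ l • x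

/-- `J² = d`, `J` skew for `B` -/
structure IsJ (B : V →ₗ[F] V →ₗ[F] F) (d : F) (J : V →ₗ[F] V) : Prop where
  sq : ∀ x, J (J x) = d • x
  skew : ∀ x y, B (J x) y = - B x (J y)

/-- the elements commuting with `J` -/
def cent (J : V →ₗ[F] V) : Subgroup (V ≃ₗ[F] V) where
  carrier := {g | ∀ x, g (J x) = J (g x)}
  mul_mem' {a b} ha hb x := by
    change a (b (J x)) = J (a (b x))
    rw [hb, ha]
  one_mem' x := rfl
  inv_mem' {a} ha x := by
    apply a.injective
    have e : ∀ y, a (a⁻¹ y) = y := fun y => by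
      change (a * a⁻¹) y = y
      rw [mul_inv_cancel]; rfl
    rw [e, ha, e]

/-- the stabiliser of the subspace `W` -/
def stab (W : Submodule F V) : Subgroup (V ≃ₗ[F] V) where
  carrier := {g | ∀ x, g x ∈ W ↔ x ∈ W}
  mul_mem' {a b} ha hb x := by
    change a (b x) ∈ W ↔ x ∈ W
    rw [ha, hb]
  one_mem' x := Iff.rfl
  inv_mem' {a} ha x := by
    have e : a (a⁻¹ x) = x := by
      change (a * a⁻¹) x = x
      rw [mul_inv_cancel]; rfl
    rw [← ha (a⁻¹ x), e]

/-- the orthogonal space of `W` -/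
def perp (B : V →ₗ[F] V →ₗ[F] F) (W : Submodule F V) : Submodule F V where
  carrier := {x | ∀ w ∈ W, B w x = 0}
  add_mem' {a b} ha hb w hw := by rw [map_add, ha w hw, hb w hw, add_zero]
  zero_mem' w _ := map_zero _
  smul_mem' c x hx w hw := by rw [map_smul, hx w hw, smul_zero]

/-- the restriction of `B` to `W` -/
def res (B : V →ₗ[F] V →ₗ[F] F) (W : Submodule F V) : W →ₗ[F] W →ₗ[F] F :=
  B.compl₁₂ W.subtype W.subtype

/-- the only `s`-invariant subspaces of `W` are `0` and `W` (and `W` is invariant) -/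
structure IrredOn (s : V ≃ₗ[F] V) (W : Submodule F V) : Prop where
  inv : ∀ x ∈ W, s x ∈ W
  irr : ∀ U : Submodule F V, U ≤ W → (∀ x ∈ U, s x ∈ U) → U = ⊥ ∨ U = W

/-- `U` is invariant under `J` and `J'` -/
def Inv (J J' : V →ₗ[F] V) (U : Submodule F V) : Prop := ∀ x ∈ U, J x ∈ U ∧ J' x ∈ U

/-- `M` is a minimal nonzero subspace invariant under `J` and `J'` -/
structure MinInv (J J' : V →ₗ[F] V) (M : Submodule F V) : Prop where
  ne : M ≠ ⊥
  inv : Inv J J' M
  min : ∀ U : Submodule F V, U ≤ M → Inv J J' U → U = ⊥ ∨ U = M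

/-- `z = J J' + J' J` -/
def zz (J J' : V →ₗ[F] V) : V →ₗ[F] V := J ∘ₗ J' + J' ∘ₗ J

end Defs

end Pool.Agent.H330.PT
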