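import Pool.Agent.H330.PT.Spec
import Pool.Agent.H330.EvenQ.EVEN

namespace Pool.Agent.H330.PT

theorem h_EVEN : S_EVEN := EvenQ.h_EVEN

end Pool.Agent.H330.PT
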