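import Pool.Agent.H330.PT.Spec

/-!
# EVO: irreducible isometries have even dimension or dimension one
-/

set_option autoImplicit false

namespace Pool.Agent.H330.PT

open Module Polynomial

namespace EVO

section

variable {F V : Type} [Field F] [AddCommGroup V] [Module F V]

/-- the alternating form on `W` -/
noncomputable def gam (B : V →ₗ[F] V →ₗ[F] F) (s : V ≃ₗ[F] V) (W : Submodule F V) :
    W →ₗ[F] W →ₗ[F] F :=
  LinearMap.mk₂ F (fun x y => B (s (x : V)) (y : V) - B (x : V) (s (y : V)))
    (fun x x' y => by
      simp only [Submodule.coe_add, map_add, LinearMap.add_apply]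
      ring)
    (fun c x y => by
      simp only [Submodule.coe_smul, map_smul, LinearMap.smul_apply, smul_eq_mul]
      ring)
    (fun x y y' => by
      simp only [Submodule.coe_add, map_add]
      ring)
    (fun c x y => by
      simp only [Submodule.coe_smul, map_smul, smul_eq_mul]
      ring)

theorem gam_apply (B : V →ₗ[F] V →ₗ[F] F) (s : V ≃ₗ[F] V) (W : Submodule F V) (x y : W) :
    gam B s W x y = B (s (x : V)) (y : V) - B (x : V) (s (y : V)) := rfl

theorem surj [FiniteDimensional F V] (s : V ≃ₗ[F] V) (W : Submodule F V)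
    (h : ∀ x ∈ W, s x ∈ W) : ∀ y ∈ W, ∃ x ∈ W, s x = y := by
  have h1 : W.map (s : V →ₗ[F] V) = W := by
    refine Submodule.eq_of_le_of_finrank_eq ?_ ?_
    · rintro y ⟨x, hx, rfl⟩
      exact h x hx
    · exact LinearEquiv.finrank_map_eq s W
  intro y hy
  rw [← h1] at hy
  obtain ⟨x, hx, hxy⟩ := hy
  exact ⟨x, hx, hxy⟩

end

end EVO

open EVO in
theorem h_EVO (hE : S_EVEN) : S_EVO := by
  intro F V _ _ _ _ _ B hB s hs W hW hI
  have hs' : ∀ x y, B (s x) (s y) = B x y := hs
  have hsurj := surj s W hI.inv
  -- the kernel of the form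
  have hU : ∀ x ∈ (LinearMap.ker (gam B s W)).map W.subtype, s x ∈
      (LinearMap.ker (gam B s W)).map W.subtype := by
    rintro x ⟨w, hw, rfl⟩
    have hw' : ∀ y : W, B (s (w : V)) (y : V) = B (w : V) (s (y : V)) := by
      intro y
      have h1 : gam B s W w = 0 := hw
      have h2 : gam B s W w y = 0 := by rw [h1]; rfl
      rw [gam_apply] at h2
      exact sub_eq_zero.1 h2
    refine ⟨⟨s (w : V), hI.inv _ w.2⟩, ?_, rfl⟩
    change gam B s W ⟨s (w : V), hI.inv _ w.2⟩ = 0
    refine LinearMap.ext fun y => ?_
    obtain ⟨z, hz, hzy⟩ := hsurj (y : V) y.2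
    rw [gam_apply, LinearMap.zero_apply]
    change B (s (s (w : V))) (y : V) - B (s (w : V)) (s (y : V)) = 0
    rw [← hzy, hs', hs', hw' ⟨z, hz⟩]
    exact sub_self _
  have hUW : (LinearMap.ker (gam B s W)).map W.subtype ≤ W := Submodule.map_subtype_le _ _
  rcases hI.irr _ hUW hU with h | h
  · right
    have hker : LinearMap.ker (gam B s W) = ⊥ := by
      rw [eq_bot_iff]
      intro x hx
      have h1 : (x : V) ∈ (LinearMap.ker (gam B s W)).map W.subtype := ⟨x, hx, rfl⟩
      rw [h, Submodule.mem_bot] at h1
      rw [Submodule.mem_bot]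
      exact Subtype.ext h1
    have h1 := hE F W (gam B s W) (fun x => by
      rw [gam_apply, hB.symm (s (x : V)) (x : V), sub_self])
    have h2 := LinearMap.finrank_range_add_finrank_ker (gam B s W)
    rw [hker, finrank_bot, add_zero] at h2
    rw [h2] at h1
    exact h1
  · have hγ : ∀ x ∈ W, ∀ y ∈ W, B (s x) y = B x (s y) := by
      intro x hx y hy
      rw [← h] at hx
      obtain ⟨w, hw, rfl⟩ := hx
      have h1 : gam B s W w = 0 := hw
      have h2 : gam B s W w ⟨y, hy⟩ = 0 := by rw [h1]; rfl
      rw [gam_apply] at h2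
      exact sub_eq_zero.1 h2
    have hss : ∀ x ∈ W, s (s x) = x := by
      intro x hx
      have h1 : s (s x) - x ∈ W ⊓ perp B W := by
        refine ⟨W.sub_mem (hI.inv _ (hI.inv _ hx)) hx, ?_⟩
        intro w hw
        rw [map_sub, hB.symm w (s (s x)), hγ (s x) (hI.inv _ hx) w hw, hs' x w, hB.symm x w,
          sub_self]
      rw [hW] at h1
      exact sub_eq_zero.1 ((Submodule.mem_bot F).1 h1)
    -- `s` is `1` or `-1` on `W`
    have hpm : (∀ x ∈ W, s x = x) ∨ ∀ x ∈ W, s x = -x := by
      have hfix := hI.irr (W ⊓ LinearMap.ker ((s : V →ₗ[F] V) - LinearMap.id)) inf_le_left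
        (by
          rintro x ⟨h1, h2⟩
          have h3 : s x = x := by
            have : (s : V →ₗ[F] V) x - x = 0 := h2
            exact sub_eq_zero.1 this
          rw [h3]
          exact ⟨h1, h2⟩)
      rcases hfix with h1 | h1
      · right
        intro x hx
        have h2 : x + s x ∈ W ⊓ LinearMap.ker ((s : V →ₗ[F] V) - LinearMap.id) := by
          refine ⟨W.add_mem hx (hI.inv _ hx), ?_⟩
          change s (x + s x) - (x + s x) = 0
          rw [map_add, hss x hx]
          abel
        rw [h1, Submodule.mem_bot] at h2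
        exact eq_neg_of_add_eq_zero_right h2
      · left
        intro x hx
        rw [← h1] at hx
        have : (s : V →ₗ[F] V) x - x = 0 := hx.2
        exact sub_eq_zero.1 this
    by_cases hbot : W = ⊥
    · right
      rw [hbot, finrank_bot]
      exact Even.zero
    · left
      obtain ⟨x, hx, hx0⟩ := Submodule.exists_mem_ne_zero_of_ne_bot hbot
      have hspan : Submodule.span F {x} ≤ W := by
        rw [Submodule.span_singleton_le_iff_mem]
        exact hx
      rcases hI.irr (Submodule.span F {x}) hspan (by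
        intro y hy
        rcases hpm with h1 | h1
        · rw [h1 y (hspan hy)]
          exact hy
        · rw [h1 y (hspan hy)]
          exact Submodule.neg_mem _ hy) with h2 | h2
      · exact absurd (Submodule.span_singleton_eq_bot.1 h2) hx0
      · rw [← h2]
        exact finrank_span_singleton hx0

end Pool.Agent.H330.PT
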