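import Pool.Agent.H330.PT.Spec

/-!
# FIX: a nonscalar element of `Ω` which is trivial on the orthogonal of a 3-dimensional space (helper703)
-/

set_option autoImplicit false

namespace Pool.Agent.H330.PT

open Module

namespace FIX

variable {F V : Type} [Field F] [AddCommGroup V] [Module F V]

/-- A space of dimension at least three contains a vector orthogonal to `a` which is not a multiple of `a`. -/
theorem exists_orth [FiniteDimensional F V] (f : V →ₗ[F] F) {X : Submodule F V}
    (h : 3 ≤ finrank F X) (a : V) : ∃ b ∈ X, f b = 0 ∧ b ∉ Submodule.span F {a} := by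
  by_contra hcon
  push Not at hcon
  have h1 := LinearMap.finrank_range_add_finrank_ker (f.domRestrict X)
  have h2 : finrank F (LinearMap.range (f.domRestrict X)) ≤ 1 := by
    refine (Submodule.finrank_le _).trans ?_
    rw [finrank_self]
  have h3 : (LinearMap.ker (f.domRestrict X)).map X.subtype ≤ Submodule.span F {a} := by
    rintro _ ⟨x, hx, rfl⟩
    exact hcon x x.2 (by simpa using hx)
  have h4 := Submodule.finrank_mono h3
  rw [Submodule.finrank_map_subtype_eq] at h4
  have h5 : finrank F (Submodule.span F {a}) ≤ 1 := by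
    have h6 := finrank_span_finset_le_card (R := F) ({a} : Finset V)
    rwa [Finset.coe_singleton, Finset.card_singleton] at h6
  omega

theorem exists_pair {B : V →ₗ[F] V →ₗ[F] F} (hB : IsForm B) {a : V} (ha : a ≠ 0) :
    ∃ v, B v a ≠ 0 := by
  by_contra hcon
  push Not at hcon
  apply ha
  apply hB.nondeg
  intro y
  rw [hB.symm]
  exact hcon y

end FIX

open FIX in
theorem h_FIX (hI : S_ISOT) (hS : S_SIEG) : S_FIX := by
  intro F V _ _ _ _ _ h2 B hB X hX
  obtain ⟨a, ha, ha0, haa⟩ := hI F V h2 B hB.symm X hX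
  obtain ⟨b, hb, hab, hba⟩ := exists_orth (B a) hX a
  have h3 : 3 ≤ finrank F V := hX.trans (Submodule.finrank_le X)
  obtain ⟨g, -, hg, hgv⟩ := hS F V h2 B hB h3 a b haa hab
  refine ⟨g, hg, ?_, ?_⟩
  · intro l
    by_contra hcon
    push Not at hcon
    have hla : a = l • a := by
      have h := hcon a
      rw [hgv, sieg, haa, hab, mul_zero, zero_smul, zero_smul, add_zero, sub_zero,
        sub_zero] at h
      exact h
    have hl : l = 1 := by
      have h : (l - 1) • a = 0 := by rw [sub_smul, one_smul, ← hla, sub_self]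
      rcases smul_eq_zero.1 h with h | h
      · exact sub_eq_zero.1 h
      · exact absurd h ha0
    obtain ⟨v, hv⟩ := exists_pair hB ha0
    have h := hcon v
    rw [hgv, sieg, hl, one_smul] at h
    obtain ⟨α, hα⟩ : ∃ α, α = B v a := ⟨_, rfl⟩
    obtain ⟨β, hβ⟩ : ∃ β, β = B v b := ⟨_, rfl⟩
    obtain ⟨γ, hγ⟩ : ∃ γ, γ = 2⁻¹ * B b b * B v a := ⟨_, rfl⟩
    rw [← hγ, ← hα, ← hβ] at h
    rw [← hα] at hv
    apply hba
    rw [Submodule.mem_span_singleton]
    refine ⟨α⁻¹ * (β + γ), ?_⟩
    have h4 : α • b = (β + γ) • a := by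
      have h5 : v + (α • b - (β + γ) • a) = v := by
        rw [add_smul, ← sub_sub, ← add_sub_assoc, ← add_sub_assoc]
        exact h
      exact sub_eq_zero.1 (add_eq_left.1 h5)
    rw [mul_smul, ← h4, smul_smul, inv_mul_cancel₀ hv, one_smul]
  · intro v hv
    have h4 : B v a = 0 := by rw [hB.symm]; exact hv a ha
    have h5 : B v b = 0 := by rw [hB.symm]; exact hv b hb
    rw [hgv, sieg, h4, h5, mul_zero, zero_smul, zero_smul, add_zero, sub_zero, sub_zero]

end Pool.Agent.H330.PT
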