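import Pool.Agent.H330.PT.Spec
import Pool.Agent.H330.Proj
import Pool.Agent.H330.EvenQ.Spec

namespace Pool.Agent.H330.PT

open Module

variable {F V : Type} [Field F] [AddCommGroup V] [Module F V]

theorem Om_le (B : V →ₗ[F] V →ₗ[F] F) : Om B ≤ Orth B := by
  unfold Om
  rw [Subgroup.commutator_le]
  intro a ha b hb
  rw [commutatorElement_def]
  exact Subgroup.mul_mem _ (Subgroup.mul_mem _ (Subgroup.mul_mem _ ha hb)
    (Subgroup.inv_mem _ ha)) (Subgroup.inv_mem _ hb)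

/-- the property of `G = Ω / scalars` used for the domination number -/
theorem subgroups (hT : S_TOP) (F V : Type) [Field F] [Finite F] [AddCommGroup V]
    [Module F V] [FiniteDimensional F V] (h2 : (2 : F) ≠ 0) (B : V →ₗ[F] V →ₗ[F] F)
    (hB : IsForm B) (hp : IsPlus B) (m : ℕ) (hm : 6 ≤ m) (he : m % 4 = 2)
    (hV : finrank F V = 2 * m) (s : Proj (Om B)) :
    ∃ H : Subgroup (Proj (Om B)), s ∈ H ∧ H ≠ ⊤ ∧
      ∀ g : Proj (Om B), ∃ c : Proj (Om B), c ≠ 1 ∧ c ∈ H ∧ g⁻¹ * c * g ∈ H := by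
  obtain ⟨s, rfl⟩ := QuotientGroup.mk'_surjective (scalars (Om B)) s
  obtain ⟨H, hs, hsc, hn, hc⟩ := hT F V h2 B hB hp m hm he hV (s : V ≃ₗ[F] V) (Om_le B s.2)
  have key : ∀ x : Om B, QuotientGroup.mk' (scalars (Om B)) x ∈
      (H.subgroupOf (Om B)).map (QuotientGroup.mk' (scalars (Om B))) ↔ (x : V ≃ₗ[F] V) ∈ H := by
    intro x
    constructor
    · rintro ⟨y, hy, he⟩
      rw [QuotientGroup.mk'_apply, QuotientGroup.mk'_apply, QuotientGroup.eq] at he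
      have h1 : (y : V ≃ₗ[F] V) ∈ H := hy
      obtain ⟨l, hl⟩ := he
      have h3 := hsc _ ⟨l, hl⟩
      have h4 := H.mul_mem h1 h3
      have e : (y : V ≃ₗ[F] V) * ((y⁻¹ * x : Om B) : V ≃ₗ[F] V) = x := by
        rw [Subgroup.coe_mul, Subgroup.coe_inv, mul_inv_cancel_left]
      rw [e] at h4
      exact h4
    · intro h
      exact ⟨x, h, rfl⟩
  refine ⟨(H.subgroupOf (Om B)).map (QuotientGroup.mk' (scalars (Om B))), (key s).2 hs, ?_, ?_⟩
  · intro h
    apply hn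
    intro x hx
    have h1 : QuotientGroup.mk' (scalars (Om B)) (⟨x, hx⟩ : Om B) ∈
        (H.subgroupOf (Om B)).map (QuotientGroup.mk' (scalars (Om B))) := by
      rw [h]; exact Subgroup.mem_top _
    exact (key _).1 h1
  · intro g
    obtain ⟨g, rfl⟩ := QuotientGroup.mk'_surjective (scalars (Om B)) g
    obtain ⟨c, h1, h2, h3, h4⟩ := hc (g : V ≃ₗ[F] V) (Om_le B g.2)
    refine ⟨QuotientGroup.mk' (scalars (Om B)) ⟨c, h1⟩, ?_, (key _).2 h3, ?_⟩
    · intro h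
      rw [QuotientGroup.mk'_apply, QuotientGroup.eq_one_iff] at h
      obtain ⟨l, hl⟩ := h
      obtain ⟨x, hx⟩ := h2 l
      exact hx (hl x)
    · rw [← map_inv, ← map_mul, ← map_mul, key]
      exact h4

/-- the main theorem -/
theorem final (hT : S_TOP) (hD : EvenQ.S_DOM) (F V : Type) [Field F] [Finite F]
    [AddCommGroup V] [Module F V] [FiniteDimensional F V] (h2 : (2 : F) ≠ 0) (m : ℕ)
    (hm : 6 ≤ m) (he : m % 4 = 2) (hV : finrank F V = 2 * m) (B : V →ₗ[F] V →ₗ[F] F)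
    (hB : IsForm B) (hp : IsPlus B) :
    3 ≤ EvenQ.gammaU (Proj (Om B)) ∧
      ∀ s : Proj (Om B), ∃ H : Subgroup (Proj (Om B)), s ∈ H ∧ H ≠ ⊤ ∧
        ∀ g : Proj (Om B), H ⊓ H.map (MulAut.conj g).toMonoidHom ≠ ⊥ := by
  refine ⟨hD _ (subgroups hT F V h2 B hB hp m hm he hV), fun s => ?_⟩
  obtain ⟨H, hs, hn, hc⟩ := subgroups hT F V h2 B hB hp m hm he hV s
  refine ⟨H, hs, hn, fun g h => ?_⟩
  obtain ⟨c, h1, h2, h3⟩ := hc g
  apply h1
  have : c ∈ H ⊓ H.map (MulAut.conj g).toMonoidHom := by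
    refine ⟨h2, g⁻¹ * c * g, h3, ?_⟩
    simp [MulAut.conj_apply, mul_assoc]
  rw [h] at this
  exact this

end Pool.Agent.H330.PT
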