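import Pool.Agent.H330.PT.Spec

/-! # ISO: a totally isotropic minimal invariant subspace (helper965) -/

set_option autoImplicit false

namespace Pool.Agent.H330.PT

open Module Polynomial

namespace ISO

variable {F V : Type} [Field F] [AddCommGroup V] [Module F V]

/-- a nonzero invariant subspace contains a minimal one -/
lemma exists_min [FiniteDimensional F V] {J J' : V →ₗ[F] V} {U : Submodule F V} (hU : U ≠ ⊥)
    (hi : Inv J J' U) : ∃ M : Submodule F V, M ≤ U ∧ MinInv J J' M := by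
  obtain ⟨M, hM, hmin⟩ := (wellFounded_lt (α := Submodule F V)).has_min
    {W : Submodule F V | W ≠ ⊥ ∧ Inv J J' W ∧ W ≤ U} ⟨U, hU, hi, le_rfl⟩
  refine ⟨M, hM.2.2, hM.1, hM.2.1, ?_⟩
  intro W hW hWi
  by_cases h0 : W = ⊥
  · exact Or.inl h0
  · right
    by_contra hne
    exact hmin W ⟨h0, hWi, hW.trans hM.2.2⟩ (lt_of_le_of_ne hW hne)

/-- the subspace where `J' = σ J` -/
def Ws (J J' : V →ₗ[F] V) (σ : F) : Submodule F V := LinearMap.ker (J' - σ • J)

lemma mem_Ws {J J' : V →ₗ[F] V} {σ : F} {v : V} : v ∈ Ws J J' σ ↔ J' v = σ • J v := by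
  unfold Ws
  rw [LinearMap.mem_ker, LinearMap.sub_apply, LinearMap.smul_apply, sub_eq_zero]

lemma JJ' {d σ : F} {J J' : V →ₗ[F] V} (hσ : σ * σ = 1) (hJ' : ∀ x, J' (J' x) = d • x)
    {v : V} (hv : J' v = σ • J v) : J' (J v) = (σ * d) • v := by
  have h1 : J v = σ • J' v := by rw [hv, smul_smul, hσ, one_smul]
  rw [h1, map_smul, hJ', smul_smul]

lemma Ws_inv {d σ : F} {J J' : V →ₗ[F] V} (hσ : σ * σ = 1) (hJ : ∀ x, J (J x) = d • x)
    (hJ' : ∀ x, J' (J' x) = d • x) : Inv J J' (Ws J J' σ) := by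
  intro v hv
  rw [mem_Ws] at hv
  have h1 : J v ∈ Ws J J' σ := by
    rw [mem_Ws, JJ' hσ hJ' hv, hJ, smul_smul]
  refine ⟨h1, ?_⟩
  rw [hv]
  exact Submodule.smul_mem _ _ h1

lemma BvJv {B : V →ₗ[F] V →ₗ[F] F} (h2 : (2 : F) ≠ 0) (hB : ∀ x y, B x y = B y x) {d : F}
    {J : V →ₗ[F] V} (hJ : IsJ B d J) (v : V) : B v (J v) = 0 := by
  have h1 := hJ.skew v v
  rw [hB (J v) v] at h1
  have h3 : (2 : F) * B v (J v) = 0 := by
    rw [two_mul]
    nth_rewrite 1 [h1]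
    exact neg_add_cancel _
  exact (mul_eq_zero.mp h3).resolve_left h2

/-- the case of a singular vector in `Ws` -/
lemma of_sing [FiniteDimensional F V] {B : V →ₗ[F] V →ₗ[F] F} (h2 : (2 : F) ≠ 0)
    (hB : ∀ x y, B x y = B y x) {d σ : F} {J J' : V →ₗ[F] V} (hJ : IsJ B d J) (hJ' : IsJ B d J')
    (hσ : σ * σ = 1) {v : V} (hv0 : v ≠ 0) (hv : v ∈ Ws J J' σ) (hs : B v v = 0) :
    ∃ M : Submodule F V, MinInv J J' M ∧ (∀ x ∈ M, ∀ y ∈ M, B x y = 0) := by
  rw [mem_Ws] at hv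
  have hvJ := BvJv h2 hB hJ v
  have hJv : B (J v) v = 0 := by rw [hB, hvJ]
  have hJJ : B (J v) (J v) = 0 := by rw [hJ.skew, hJ.sq, map_smul, hs, smul_zero, neg_zero]
  have hN : ∀ x ∈ Submodule.span F {v, J v}, ∀ y ∈ Submodule.span F {v, J v}, B x y = 0 := by
    intro x hx y hy
    obtain ⟨a, b, rfl⟩ := Submodule.mem_span_pair.mp hx
    obtain ⟨a', b', rfl⟩ := Submodule.mem_span_pair.mp hy
    simp only [map_add, map_smul, LinearMap.add_apply, LinearMap.smul_apply, hs, hvJ, hJv, hJJ,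
      smul_zero, add_zero]
  have hNi : Inv J J' (Submodule.span F {v, J v}) := by
    intro x hx
    obtain ⟨a, b, rfl⟩ := Submodule.mem_span_pair.mp hx
    refine ⟨?_, ?_⟩
    · rw [map_add, map_smul, map_smul, hJ.sq, smul_smul]
      exact Submodule.mem_span_pair.mpr ⟨b * d, a, add_comm _ _⟩
    · rw [map_add, map_smul, map_smul, hv, JJ' hσ hJ'.sq hv, smul_smul, smul_smul]
      exact Submodule.mem_span_pair.mpr ⟨b * (σ * d), a * σ, add_comm _ _⟩
  have hN0 : Submodule.span F {v, J v} ≠ ⊥ := by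
    intro h
    have h1 : v ∈ Submodule.span F {v, J v} := Submodule.subset_span (by simp)
    rw [h, Submodule.mem_bot] at h1
    exact hv0 h1
  obtain ⟨M, hMN, hM⟩ := exists_min hN0 hNi
  exact ⟨M, hM, fun x hx y hy => hN x (hMN hx) y (hMN hy)⟩

end ISO

open ISO

theorem h_ISO (hP : S_PERP) (hI : S_ISOT) (hT : S_STRUCT) (hD : S_DEG) : S_ISO := by
  intro F V _ _ _ _ _ h2 B hB h6 d hd J J' hJ hJ'
  have h11 : (1 : F) * 1 = 1 := one_mul 1
  have hmm : (-1 : F) * (-1) = 1 := by ring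
  by_cases hp3 : 3 ≤ finrank F (Ws J J' (1 : F))
  · obtain ⟨a, ha, ha0, haa⟩ := hI F V h2 B hB.symm _ hp3
    exact of_sing h2 hB.symm hJ hJ' h11 ha0 ha haa
  by_cases hm3 : 3 ≤ finrank F (Ws J J' (-1 : F))
  · obtain ⟨a, ha, ha0, haa⟩ := hI F V h2 B hB.symm _ hm3
    exact of_sing h2 hB.symm hJ hJ' hmm ha0 ha haa
  have hS : finrank F ((Ws J J' (1 : F) ⊔ Ws J J' (-1 : F) : Submodule F V)) ≤ 4 := by
    have := Submodule.finrank_add_le_finrank_add_finrank (Ws J J' (1 : F)) (Ws J J' (-1 : F))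
    omega
  have hSi : Inv J J' (Ws J J' (1 : F) ⊔ Ws J J' (-1 : F)) := by
    intro x hx
    obtain ⟨a, ha, b, hb, rfl⟩ := Submodule.mem_sup.mp hx
    have ha' := Ws_inv h11 hJ.sq hJ'.sq a ha
    have hb' := Ws_inv hmm hJ.sq hJ'.sq b hb
    refine ⟨?_, ?_⟩
    · rw [map_add]
      exact Submodule.add_mem_sup ha'.1 hb'.1
    · rw [map_add]
      exact Submodule.add_mem_sup ha'.2 hb'.2
  have hUi : Inv J J' (perp B (Ws J J' (1 : F) ⊔ Ws J J' (-1 : F))) := by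
    intro x hx
    refine ⟨?_, ?_⟩
    · intro w hw
      have h1 := hJ.skew w x
      have h3 : B (J w) x = 0 := hx (J w) (hSi w hw).1
      rw [h3] at h1
      exact neg_eq_zero.mp h1.symm
    · intro w hw
      have h1 := hJ'.skew w x
      have h3 : B (J' w) x = 0 := hx (J' w) (hSi w hw).2
      rw [h3] at h1
      exact neg_eq_zero.mp h1.symm
  have hU0 : perp B (Ws J J' (1 : F) ⊔ Ws J J' (-1 : F)) ≠ ⊥ := by
    intro h
    have h1 := (hP F V B hB (Ws J J' (1 : F) ⊔ Ws J J' (-1 : F))).1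
    rw [h, finrank_bot] at h1
    omega
  obtain ⟨M, hMU, hM⟩ := exists_min hU0 hUi
  by_cases hiso : ∀ x ∈ M, ∀ y ∈ M, B x y = 0
  · exact ⟨M, hM, hiso⟩
  · exfalso
    push Not at hiso
    obtain ⟨e, α, β, hst⟩ := hT F V h2 d hd J J' hJ.sq hJ'.sq M hM
    have hMS : M ≤ Ws J J' (1 : F) ⊔ Ws J J' (-1 : F) := by
      rcases hD F V h2 B hB.symm d hd J J' hJ hJ' M e α β hM hst hiso with h | h
      · intro x hx
        refine Submodule.mem_sup_left (mem_Ws.mpr ?_)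
        rw [h x hx, one_smul]
      · intro x hx
        refine Submodule.mem_sup_right (mem_Ws.mpr ?_)
        rw [h x hx, neg_smul, one_smul]
    obtain ⟨x, hx, y, hy, hxy⟩ := hiso
    exact hxy (hMU hy x (hMS hx))

end Pool.Agent.H330.PT
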