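import Pool.Agent.H330.PT.Spec

/-!
# ISOT: singular vectors in dimension three (helper720, for the project of helper330)
-/

namespace Pool.Agent.H330.PT

open Module Polynomial

namespace ISOT

variable {F V : Type} [Field F] [AddCommGroup V] [Module F V] [FiniteDimensional F V]

theorem inf_ker (Y : Submodule F V) (f : V →ₗ[F] F) {k : ℕ} (h : k + 1 ≤ finrank F Y) :
    k ≤ finrank F (Y ⊓ LinearMap.ker f : Submodule F V) := by
  have h1 := Submodule.finrank_sup_add_finrank_inf_eq Y (LinearMap.ker f)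
  have h2 : finrank F (Y ⊔ LinearMap.ker f : Submodule F V) ≤ finrank F V := Submodule.finrank_le _
  have h3 := LinearMap.finrank_range_add_finrank_ker f
  have h4 : finrank F (LinearMap.range f) ≤ finrank F F := Submodule.finrank_le _
  rw [Module.finrank_self] at h4
  omega

omit [FiniteDimensional F V] in
theorem ex_ne (Y : Submodule F V) (h : 1 ≤ finrank F Y) : ∃ x ∈ Y, x ≠ 0 := by
  apply Submodule.exists_mem_ne_zero_of_ne_bot
  rintro rfl
  rw [finrank_bot] at h
  omega

theorem solve [Finite F] (h2 : (2 : F) ≠ 0) {a b : F} (ha : a ≠ 0) (hb : b ≠ 0) (c : F) :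
    ∃ u v : F, a * u ^ 2 + (b * v ^ 2 + c) = 0 := by
  classical
  have := Fintype.ofFinite F
  have hc : Fintype.card F % 2 = 1 := by
    apply FiniteField.odd_card_of_char_ne_two
    intro h
    apply h2
    have h3 := ringChar.Nat.cast_ringChar (R := F)
    rw [h] at h3
    exact_mod_cast h3
  have hf : degree (C a * X ^ 2 : F[X]) = 2 := degree_C_mul_X_pow 2 ha
  have hg : degree (C b * X ^ 2 + C 0 * X + C c : F[X]) = 2 := degree_quadratic hb
  obtain ⟨u, v, h⟩ := FiniteField.exists_root_sum_quadratic hf hg hc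
  refine ⟨u, v, ?_⟩
  simp only [eval_add, eval_mul, eval_C, eval_pow, eval_X, zero_mul, add_zero] at h
  exact h

end ISOT

theorem h_ISOT : S_ISOT := by
  intro F V _ _ _ _ _ h2 B hB X hX
  obtain ⟨x, hx, hx0⟩ := ISOT.ex_ne X (by omega)
  by_cases hxx : B x x = 0
  · exact ⟨x, hx, hx0, hxx⟩
  have h1 := ISOT.inf_ker X (B x) hX
  obtain ⟨y, hy, hy0⟩ := ISOT.ex_ne _ (le_trans one_le_two h1)
  obtain ⟨hyX, hxy⟩ := Submodule.mem_inf.1 hy
  rw [LinearMap.mem_ker] at hxy
  by_cases hyy : B y y = 0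
  · exact ⟨y, hyX, hy0, hyy⟩
  obtain ⟨z, hz, hz0⟩ := ISOT.ex_ne _ (ISOT.inf_ker _ (B y) h1)
  obtain ⟨hz', hyz⟩ := Submodule.mem_inf.1 hz
  obtain ⟨hzX, hxz⟩ := Submodule.mem_inf.1 hz'
  rw [LinearMap.mem_ker] at hyz hxz
  by_cases hzz : B z z = 0
  · exact ⟨z, hzX, hz0, hzz⟩
  have hyx : B y x = 0 := by rw [hB, hxy]
  have hzx : B z x = 0 := by rw [hB, hxz]
  have hzy : B z y = 0 := by rw [hB, hyz]
  obtain ⟨u, v, h⟩ := ISOT.solve h2 hxx hyy (B z z)
  refine ⟨u • x + v • y + z, X.add_mem (X.add_mem (X.smul_mem u hx) (X.smul_mem v hyX)) hzX, ?_, ?_⟩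
  · intro h3
    apply hzz
    have h4 : B z (u • x + v • y + z) = 0 := by rw [h3, map_zero]
    simp only [map_add, map_smul, hzx, hzy, smul_zero, zero_add] at h4
    exact h4
  · simp only [map_add, map_smul, LinearMap.add_apply, LinearMap.smul_apply, hxy, hyx, hxz, hzx, hyz,
      hzy, smul_eq_mul, mul_zero, add_zero, zero_add]
    linear_combination h

end Pool.Agent.H330.PT
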