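import Pool.Agent.H330.PT.Spec

/-!
# JV (helper336, for helper330): two blocks
-/

set_option autoImplicit false

namespace Pool.Agent.H330.PT

open Module

namespace JV

/-- one block -/
theorem half (hJ : S_JW) {F V : Type} [Field F] [Finite F] [AddCommGroup V] [Module F V]
    [FiniteDimensional F V] (h2 : (2 : F) ≠ 0) (B : V →ₗ[F] V →ₗ[F] F) (hB : IsForm B)
    (k : ℕ) (hk : Odd k) (s : V ≃ₗ[F] V) (hs : s ∈ Orth B) (U : Submodule F V)
    (hU : finrank F U = 2 * k) (hUU : U ⊓ perp B U = ⊥) (hirr : IrredOn s U)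
    (d : F) (hd : ∀ μ : F, μ * μ ≠ d) :
    ∃ (J : U →ₗ[F] U), (∀ x, J (J x) = d • x) ∧
      (∀ x y : U, B (J x : V) (y : V) = - B (x : V) (J y : V)) ∧
      ∀ x y : U, (y : V) = s x → s (J x : V) = (J y : V) := by
  have hform : IsForm (res B U) := by
    refine ⟨fun x y => hB.symm x y, fun x hx => ?_⟩
    have h1 : (x : V) ∈ U ⊓ perp B U := by
      refine ⟨x.2, fun w hw => ?_⟩
      rw [hB.symm]
      exact hx ⟨w, hw⟩
    rw [hUU, Submodule.mem_bot] at h1
    exact Subtype.ext h1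
  obtain ⟨f, hf⟩ : ∃ f : U →ₗ[F] U, ∀ x, (f x : V) = s x :=
    ⟨s.toLinearMap.restrict hirr.inv, fun _ => rfl⟩
  have hinj : Function.Injective f := by
    intro x y hxy
    apply Subtype.ext
    apply s.injective
    rw [← hf, ← hf, hxy]
  obtain ⟨t, ht⟩ : ∃ t : U ≃ₗ[F] U, ∀ x, (t x : V) = s x :=
    ⟨LinearEquiv.ofInjectiveEndo f hinj, fun x => hf x⟩
  have htO : t ∈ Orth (res B U) := by
    intro x y
    change B (t x : V) (t y : V) = B x y
    rw [ht, ht]
    exact hs x y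
  have htI : IrredOn t ⊤ := by
    refine ⟨fun x _ => Submodule.mem_top, fun U' _ hU' => ?_⟩
    have h1 : U'.map U.subtype ≤ U := by
      rintro _ ⟨x, _, rfl⟩
      exact x.2
    have h2 : ∀ x ∈ U'.map U.subtype, s x ∈ U'.map U.subtype := by
      rintro _ ⟨x, hx, rfl⟩
      exact ⟨t x, hU' x hx, ht x⟩
    rcases hirr.irr _ h1 h2 with h3 | h3
    · left
      rw [Submodule.eq_bot_iff]
      intro x hx
      have h4 : (x : V) ∈ U'.map U.subtype := ⟨x, hx, rfl⟩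
      rw [h3, Submodule.mem_bot] at h4
      exact Subtype.ext h4
    · right
      rw [Submodule.eq_top_iff']
      intro x
      have h4 : (x : V) ∈ U'.map U.subtype := by
        rw [h3]
        exact x.2
      obtain ⟨y, hy, hyx⟩ := h4
      have h5 : y = x := Subtype.ext hyx
      rw [← h5]
      exact hy
  obtain ⟨J, hJJ, hJs⟩ := hJ F U h2 (res B U) hform k hk hU t htO htI d hd
  refine ⟨J, hJJ.sq, fun x y => hJJ.skew x y, fun x y hy => ?_⟩
  have h6 : y = t x := by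
    apply Subtype.ext
    rw [hy, ht]
  rw [h6, ← hJs, ht]

end JV

open JV in
theorem h_JV (hP : S_PERP) (hJ : S_JW) : S_JV := by
  intro F V _ _ _ _ _ h2 B hB k hk s hs W hW hW' hWW hi hi' d hd
  obtain ⟨-, hpp, hcompl⟩ := hP F V B hB W
  have hc := hcompl hWW
  have hWW' : perp B W ⊓ perp B (perp B W) = ⊥ := by
    rw [hpp, inf_comm]
    exact hWW
  obtain ⟨J₁, h1a, h1b, h1c⟩ := half hJ h2 B hB k hk s hs W hW hWW hi d hd
  obtain ⟨J₂, h2a, h2b, h2c⟩ := half hJ h2 B hB k hk s hs (perp B W) hW' hWW' hi' d hd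
  obtain ⟨e, he⟩ : ∃ e : (W × perp B W) ≃ₗ[F] V, ∀ x, e x = (x.1 : V) + (x.2 : V) :=
    ⟨Submodule.prodEquivOfIsCompl W (perp B W) hc, fun x =>
      Submodule.coe_prodEquivOfIsCompl' W (perp B W) hc x⟩
  obtain ⟨J, hJd⟩ : ∃ J : V →ₗ[F] V, ∀ (a : W) (b : perp B W),
      J ((a : V) + (b : V)) = (J₁ a : V) + (J₂ b : V) := by
    refine ⟨e.toLinearMap ∘ₗ (J₁.prodMap J₂) ∘ₗ e.symm.toLinearMap, fun a b => ?_⟩
    have h3 : e.symm ((a : V) + (b : V)) = (a, b) := by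
      rw [LinearEquiv.symm_apply_eq, he]
    rw [LinearMap.comp_apply, LinearMap.comp_apply, LinearEquiv.coe_coe, LinearEquiv.coe_coe, h3,
      he]
    rfl
  have hdec : ∀ x : V, ∃ (a : W) (b : perp B W), x = (a : V) + (b : V) := by
    intro x
    refine ⟨(e.symm x).1, (e.symm x).2, ?_⟩
    rw [← he, LinearEquiv.apply_symm_apply]
  have horth : ∀ (a : W) (b : perp B W), B (a : V) (b : V) = 0 := fun a b => b.2 a a.2
  have horth' : ∀ (a : W) (b : perp B W), B (b : V) (a : V) = 0 := fun a b => by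
    rw [hB.symm]
    exact horth a b
  refine ⟨J, ⟨?_, ?_⟩, ?_⟩
  · intro x
    obtain ⟨a, b, rfl⟩ := hdec x
    rw [hJd, hJd, h1a, h2a, smul_add]
    rfl
  · intro x y
    obtain ⟨a, b, rfl⟩ := hdec x
    obtain ⟨a', b', rfl⟩ := hdec y
    rw [hJd, hJd]
    simp only [map_add, LinearMap.add_apply]
    rw [horth (J₁ a) b', horth' a' (J₂ b), horth a (J₂ b'), horth' (J₁ a') b, h1b, h2b]
    ring
  · intro x
    obtain ⟨a, b, rfl⟩ := hdec x
    have ea : ∃ a' : W, (a' : V) = s a := ⟨⟨s a, hi.inv a a.2⟩, rfl⟩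
    have eb : ∃ b' : perp B W, (b' : V) = s b := ⟨⟨s b, hi'.inv b b.2⟩, rfl⟩
    obtain ⟨a', ha'⟩ := ea
    obtain ⟨b', hb'⟩ := eb
    rw [hJd, map_add, map_add, ← ha', ← hb', hJd, h1c a a' ha', h2c b b' hb']

end Pool.Agent.H330.PT
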