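import Pool.Agent.H330.PT.Spec

/-!
# PT: an irreducible isometry of a symmetric form commutes with a skew square root of a nonsquare

(adapted from the symplectic case, helper330)
-/

set_option autoImplicit false

namespace Pool.Agent.H330.PT

open Module Polynomial

namespace JW

section base

variable {F V : Type} [Field F] [AddCommGroup V] [Module F V]

/-- the ideal of the polynomials `f` with `f(s) w = 0` -/
noncomputable def annI (s : V →ₗ[F] V) (w : V) : Ideal F[X] where
  carrier := {f | aeval s f w = 0}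
  add_mem' := by
    intro f g hf hg
    change aeval s (f + g) w = 0
    change aeval s f w = 0 at hf
    change aeval s g w = 0 at hg
    rw [map_add, LinearMap.add_apply]
    rw [hf, hg, add_zero]
  zero_mem' := by simp
  smul_mem' := by
    intro c f hf
    change aeval s (c * f) w = 0
    change aeval s f w = 0 at hf
    rw [map_mul, Module.End.mul_apply]
    rw [hf, map_zero]

lemma mem_annI {s : V →ₗ[F] V} {w : V} {f : F[X]} : f ∈ annI s w ↔ aeval s f w = 0 := Iff.rfl

/-- `f ↦ f(s) w` -/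
noncomputable def evm (s : V →ₗ[F] V) (w : V) : F[X] →ₗ[F] V :=
  (LinearMap.applyₗ w) ∘ₗ (aeval s).toLinearMap

lemma evm_apply (s : V →ₗ[F] V) (w : V) (f : F[X]) : evm s w f = aeval s f w := rfl

lemma cyc {s : V →ₗ[F] V} (hirr : ∀ U : Submodule F V, (∀ x ∈ U, s x ∈ U) → U = ⊥ ∨ U = ⊤)
    {v : V} (hv : v ≠ 0) (x : V) : ∃ f : F[X], aeval s f v = x := by
  have h1 : ∀ y ∈ LinearMap.range (evm s v), s y ∈ LinearMap.range (evm s v) := by
    rintro y ⟨f, rfl⟩
    refine ⟨X * f, ?_⟩
    rw [evm_apply, evm_apply, map_mul, aeval_X, Module.End.mul_apply]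
  have h2 : v ∈ LinearMap.range (evm s v) := ⟨1, by rw [evm_apply, map_one]; rfl⟩
  rcases hirr _ h1 with h | h
  · rw [h, Submodule.mem_bot] at h2
    exact absurd h2 hv
  · have h3 : x ∈ LinearMap.range (evm s v) := by rw [h]; trivial
    obtain ⟨f, hf⟩ := h3
    exact ⟨f, hf⟩

lemma annI_max {s : V →ₗ[F] V} (hirr : ∀ U : Submodule F V, (∀ x ∈ U, s x ∈ U) → U = ⊥ ∨ U = ⊤)
    {w : V} (hw : w ≠ 0) : (annI s w).IsMaximal := by
  rw [Ideal.isMaximal_iff]
  refine ⟨?_, ?_⟩
  · rw [mem_annI, map_one]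
    exact hw
  · intro J f hIJ hf hfJ
    rw [mem_annI] at hf
    obtain ⟨g, hg⟩ := cyc hirr hf w
    have h1 : g * f - 1 ∈ annI s w := by
      rw [mem_annI, map_sub, map_mul, map_one, LinearMap.sub_apply, Module.End.mul_apply, hg]
      exact sub_self _
    have h2 := J.sub_mem (J.mul_mem_left g hfJ) (hIJ h1)
    rwa [sub_sub_cancel] at h2

lemma exists_field (s : V →ₗ[F] V) [Nontrivial V]
    (hirr : ∀ U : Submodule F V, (∀ x ∈ U, s x ∈ U) → U = ⊥ ∨ U = ⊤) :
    ∃ (K : Type) (_ : Field K) (_ : Algebra F K) (e : V ≃ₗ[F] K) (t : K),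
      (∀ x, e (s x) = t * e x) ∧ (∀ a : K, ∃ f : F[X], aeval t f = a) := by
  obtain ⟨w, hw⟩ := exists_ne (0 : V)
  have hmax := annI_max hirr hw
  have hsurj : Function.Surjective (evm s w) := fun x => cyc hirr hw x
  have hker : LinearMap.ker (evm s w) = (annI s w).restrictScalars F := rfl
  let K := F[X] ⧸ annI s w
  let e : V ≃ₗ[F] K := ((evm s w).quotKerEquivOfSurjective hsurj).symm.trans
    ((Submodule.quotEquivOfEq _ _ hker).trans (Submodule.Quotient.restrictScalarsEquiv F _))
  have he : ∀ f : F[X], e (aeval s f w) = Ideal.Quotient.mk (annI s w) f := by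
    intro f
    have h1 : ((evm s w).quotKerEquivOfSurjective hsurj).symm (aeval s f w) =
        Submodule.Quotient.mk f := by
      rw [LinearEquiv.symm_apply_eq]
      rfl
    change (Submodule.Quotient.restrictScalarsEquiv F _) ((Submodule.quotEquivOfEq _ _ hker)
      (((evm s w).quotKerEquivOfSurjective hsurj).symm (aeval s f w))) = _
    rw [h1]
    rfl
  refine ⟨K, Ideal.Quotient.field _, inferInstanceAs (Algebra F (F[X] ⧸ annI s w)), e,
    Ideal.Quotient.mk _ X, ?_, ?_⟩
  · intro x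
    obtain ⟨f, rfl⟩ := cyc hirr hw x
    have h2 : s (aeval s f w) = aeval s (X * f) w := by
      rw [map_mul, aeval_X, Module.End.mul_apply]
    rw [h2]
    have h3 := he (X * f)
    have h4 := he f
    rw [h3, h4, map_mul]
  · intro a
    obtain ⟨f, rfl⟩ := Ideal.Quotient.mk_surjective a
    refine ⟨f, ?_⟩
    have h5 := Polynomial.aeval_algHom_apply (Ideal.Quotient.mkₐ F (annI s w)) (X : F[X]) f
    rw [aeval_X_left_apply] at h5
    exact h5

end base

section fld

variable {F K : Type} [Field F] [Field K] [Algebra F K]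

lemma B_mul_t (B : K →ₗ[F] K →ₗ[F] F) {t : K} (ht : t ≠ 0) (hB : ∀ x y, B (t * x) (t * y) = B x y)
    (x y : K) : B (t * x) y = B x (t⁻¹ * y) := by
  have h1 : y = t * (t⁻¹ * y) := by rw [mul_inv_cancel_left₀ ht]
  conv_lhs => rw [h1]
  exact hB _ _

lemma B_mul_pow (B : K →ₗ[F] K →ₗ[F] F) {t : K} (ht : t ≠ 0)
    (hB : ∀ x y, B (t * x) (t * y) = B x y)
    (n : ℕ) : ∀ x y : K, B (t ^ n * x) y = B x (t⁻¹ ^ n * y) := by
  induction n with
  | zero => intro x y; simp
  | succ n ih =>
    intro x y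
    rw [pow_succ, mul_assoc, ih, B_mul_t B ht hB, pow_succ', mul_assoc]

lemma adj_poly (B : K →ₗ[F] K →ₗ[F] F) {t : K} (ht : t ≠ 0)
    (hB : ∀ x y, B (t * x) (t * y) = B x y)
    (f : F[X]) (x y : K) : B (aeval t f * x) y = B x (aeval t⁻¹ f * y) := by
  induction f using Polynomial.induction_on' with
  | add f g hf hg =>
    rw [map_add, map_add, add_mul, add_mul, map_add, map_add, LinearMap.add_apply, hf, hg]
  | monomial n a =>
    rw [aeval_monomial, aeval_monomial, mul_assoc, mul_assoc, ← Algebra.smul_def,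
      ← Algebra.smul_def, map_smul, map_smul, LinearMap.smul_apply, B_mul_pow B ht hB]

variable [Finite F] [Finite K]

/-- the adjoint of the multiplication with `a` is the multiplication with `a ^ (q ^ n)` -/
lemma exists_n (B : K →ₗ[F] K →ₗ[F] F) {t : K} (ht : t ≠ 0)
    (hB : ∀ x y, B (t * x) (t * y) = B x y)
    (hnd : ∀ x, (∀ y, B y x = 0) → x = 0) (hgen : ∀ a : K, ∃ f : F[X], aeval t f = a) :
    ∃ n : ℕ, (n = 0 ∨ 2 * n = finrank F K) ∧ t ^ (Nat.card F ^ n) = t⁻¹ ∧
      ∀ a x y : K, B (a * x) y = B x (a ^ (Nat.card F ^ n) * y) := by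
  have hmin : aeval t⁻¹ (minpoly F t) = 0 := by
    refine hnd _ fun x => ?_
    have h2 := adj_poly B ht hB (minpoly F t) x 1
    rw [minpoly.aeval, zero_mul, map_zero, LinearMap.zero_apply, mul_one] at h2
    exact h2.symm
  have : Fintype F := Fintype.ofFinite F
  obtain ⟨σ, hσ⟩ := minpoly.exists_algEquiv_of_root' (x := t⁻¹) (y := t)
    (Algebra.IsAlgebraic.isAlgebraic t) hmin
  obtain ⟨⟨n, hn⟩, hσn⟩ := (FiniteField.bijective_frobeniusAlgEquivOfAlgebraic_pow F K).2 σ
  simp only at hσn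
  have hval : ∀ (m : ℕ) (a : K), (FiniteField.frobeniusAlgEquivOfAlgebraic F K ^ m) a =
      a ^ (Nat.card F ^ m) := by
    intro m
    induction m with
    | zero => intro a; simp
    | succ m ih =>
      intro a
      rw [pow_succ, AlgEquiv.mul_apply, ih, FiniteField.coe_frobeniusAlgEquivOfAlgebraic]
      simp only
      rw [← pow_mul, Nat.card_eq_fintype_card, pow_succ']
  have hσa : ∀ a : K, σ a = a ^ (Nat.card F ^ n) := by
    intro a
    rw [← hσn, hval]
  have hσf : ∀ f : F[X], σ (aeval t f) = aeval t⁻¹ f := by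
    intro f
    rw [← hσ]
    exact (Polynomial.aeval_algHom_apply (σ : K →ₐ[F] K) t f).symm
  have hσ2 : σ * σ = 1 := by
    ext a
    obtain ⟨f, rfl⟩ := hgen a
    rw [AlgEquiv.mul_apply, hσf]
    have h3 : σ (aeval t⁻¹ f) = aeval (σ t⁻¹) f :=
      (Polynomial.aeval_algHom_apply (σ : K →ₐ[F] K) t⁻¹ f).symm
    rw [h3, map_inv₀, hσ, inv_inv]
    rfl
  refine ⟨n, ?_, ?_, ?_⟩
  · rw [← hσn, ← pow_add] at hσ2
    have h4 := orderOf_dvd_of_pow_eq_one hσ2
    rw [FiniteField.orderOf_frobeniusAlgEquivOfAlgebraic] at h4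
    obtain ⟨c, hc⟩ := h4
    rcases Nat.eq_zero_or_pos n with h0 | h0
    · exact Or.inl h0
    · right
      have h5 : c < 2 := by
        by_contra h6
        have : finrank F K * 2 ≤ finrank F K * c := Nat.mul_le_mul_left _ (by omega)
        omega
      have h6 : c ≠ 0 := by
        rintro rfl
        omega
      have h7 : c = 1 := by omega
      subst h7
      omega
  · rw [← hσa, hσ]
  · intro a x y
    obtain ⟨f, rfl⟩ := hgen a
    rw [adj_poly B ht hB, ← hσa, hσf]

omit [Finite F] in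
lemma frob_pow [Fintype F] (m : ℕ) (a : K) :
    (FiniteField.frobeniusAlgEquivOfAlgebraic F K ^ m) a = a ^ (Fintype.card F ^ m) := by
  induction m generalizing a with
  | zero => simp
  | succ m ih =>
    rw [pow_succ, AlgEquiv.mul_apply, ih, FiniteField.coe_frobeniusAlgEquivOfAlgebraic]
    simp only
    rw [← pow_mul, pow_succ']

lemma mem_base (x : K) (hx : x ^ Nat.card F = x) : ∃ c : F, algebraMap F K c = x := by
  have : Fintype F := Fintype.ofFinite F
  have h1 : x ∈ Set.range (algebraMap F K) := by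
    rw [IsGalois.mem_range_algebraMap_iff_fixed]
    intro σ
    obtain ⟨⟨n, hn⟩, hσn⟩ := (FiniteField.bijective_frobeniusAlgEquivOfAlgebraic_pow F K).2 σ
    simp only at hσn
    rw [← hσn, frob_pow]
    clear hσn hn
    induction n with
    | zero => simp
    | succ n ih => rw [pow_succ, pow_mul, ih, ← Nat.card_eq_fintype_card, hx]
  exact h1

omit [Finite F] [Finite K] in
/-- a field generated by `t` with `t² = 1` is the base field -/
lemma base_of_sq {t : K} (ht : t * t = 1) (hgen : ∀ a : K, ∃ f : F[X], aeval t f = a) :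
    finrank F K ≤ 1 := by
  have h1 : ∃ c : F, algebraMap F K c = t := by
    rcases mul_self_eq_one_iff.1 ht with h | h
    · exact ⟨1, by rw [map_one, h]⟩
    · exact ⟨-1, by rw [map_neg, map_one, h]⟩
  obtain ⟨c, rfl⟩ := h1
  refine finrank_le_one (1 : K) fun a => ?_
  obtain ⟨f, rfl⟩ := hgen a
  refine ⟨aeval c f, ?_⟩
  rw [Polynomial.aeval_algebraMap_apply, Algebra.smul_def, mul_one]

omit [Finite F] in
lemma odd_card [Fintype F] (h2 : (2 : F) ≠ 0) : Odd (Fintype.card F) := by
  have h3 : ringChar F ≠ 2 := by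
    intro h
    apply h2
    have := ringChar.Nat.cast_ringChar (R := F)
    rw [h] at this
    exact_mod_cast this
  exact Nat.odd_iff.2 (FiniteField.odd_card_of_char_ne_two h3)

/-- a nonsquare of `F` is a square in an extension of even degree -/
lemma isSquare_ext (h2 : (2 : F) ≠ 0) {ν : F} (hν : ν ≠ 0) {m : ℕ} (hm : finrank F K = 2 * m) :
    ∃ j : K, j * j = algebraMap F K ν := by
  have hF : Fintype F := Fintype.ofFinite F
  have hK : Fintype K := Fintype.ofFinite K
  have h2K : (2 : K) ≠ 0 := by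
    intro h
    apply h2
    apply (algebraMap F K).injective
    rw [map_zero, ← h, map_ofNat]
  have h3 : ringChar K ≠ 2 := by
    intro h
    apply h2K
    have := ringChar.Nat.cast_ringChar (R := K)
    rw [h] at this
    exact_mod_cast this
  have hνK : algebraMap F K ν ≠ 0 := by
    intro h
    apply hν
    apply (algebraMap F K).injective
    rw [h, map_zero]
  have hcard : Fintype.card K = Fintype.card F ^ (2 * m) := by
    rw [← hm]
    exact Module.card_eq_pow_finrank (K := F) (V := K)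
  have hodd := odd_card (F := F) h2
  obtain ⟨k, hk⟩ := hodd
  have hk0 : 0 < k := by
    have := Fintype.one_lt_card (α := F)
    omega
  obtain ⟨q, hq⟩ : ∃ q : ℕ, q = Fintype.card F := ⟨_, rfl⟩
  rw [← hq] at hcard hk
  -- `q ^ (2 m) / 2` is a multiple of `q - 1`
  have hdiv : q - 1 ∣ q ^ (2 * m) / 2 := by
    have h4 : q ^ 2 - 1 ∣ (q ^ 2) ^ m - 1 := by
      have := Nat.sub_dvd_pow_sub_pow (q ^ 2) 1 m
      rwa [one_pow] at this
    obtain ⟨c, hc⟩ := h4
    have h5 : q ^ 2 - 1 = 2 * ((k + 1) * (q - 1)) := by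
      rw [hk]
      have : (2 * k + 1) ^ 2 = 2 * ((k + 1) * (2 * k)) + 1 := by ring
      rw [this]
      have h6 : 2 * k + 1 - 1 = 2 * k := by omega
      rw [h6]
      omega
    have h7 : 1 ≤ (q ^ 2) ^ m := Nat.one_le_pow _ _ (Nat.pos_of_ne_zero (by
      rw [hk]; positivity))
    have h8 : q ^ (2 * m) = 2 * (((k + 1) * (q - 1)) * c) + 1 := by
      rw [pow_mul]
      have h9 : (q ^ 2) ^ m = (q ^ 2 - 1) * c + 1 := by omega
      rw [h9, h5]
      ring
    have h10 : q ^ (2 * m) / 2 = ((k + 1) * (q - 1)) * c := by omega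
    rw [h10]
    exact Dvd.dvd.mul_right (dvd_mul_left _ _) _
  obtain ⟨c, hc⟩ := hdiv
  have h4 : algebraMap F K ν ^ (Fintype.card K / 2) = 1 := by
    rw [hcard, hc, pow_mul, ← map_pow, hq, FiniteField.pow_card_sub_one_eq_one ν hν, map_one,
      one_pow]
  obtain ⟨j, hj⟩ := (FiniteField.isSquare_iff h3 hνK).2 h4
  exact ⟨j, hj.symm⟩

/-- the conjugate of a square root of a nonsquare -/
lemma conj_sqrt (h2 : (2 : F) ≠ 0) {ν : F} (hν : ¬ IsSquare ν) {j : K}
    (hj : j * j = algebraMap F K ν) {m : ℕ} (hm : Odd m) :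
    j ^ (Nat.card F ^ m) = - j := by
  have hF : Fintype F := Fintype.ofFinite F
  have hodd : Odd (Nat.card F) := by
    rw [Nat.card_eq_fintype_card]
    exact odd_card h2
  have h1 : j ^ Nat.card F = - j := by
    have h3 : j ^ Nat.card F * j ^ Nat.card F = j * j := by
      rw [← mul_pow, hj, ← map_pow, Nat.card_eq_fintype_card, FiniteField.pow_card]
    rcases mul_self_eq_mul_self_iff.1 h3 with h | h
    · obtain ⟨c, hc⟩ := mem_base (F := F) j h
      exfalso
      apply hν
      refine ⟨c, ?_⟩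
      apply (algebraMap F K).injective
      rw [map_mul, hc, hj]
    · exact h
  have h3 : ∀ i : ℕ, j ^ (Nat.card F ^ (2 * i)) = j := by
    intro i
    induction i with
    | zero => simp
    | succ i ih =>
      rw [show 2 * (i + 1) = 2 * i + 1 + 1 by ring, pow_succ, pow_succ, pow_mul, pow_mul, ih, h1,
        hodd.neg_pow, h1, neg_neg]
  obtain ⟨i, rfl⟩ := hm
  rw [pow_succ, pow_mul, h3, h1]

end fld

end JW

theorem h_JW : S_JW := by
  intro F V _ _ _ _ _ h2 B hB m hm hV s hs hirr ν hν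
  have hm1 : 1 ≤ m := hm.pos
  have hν0 : ν ≠ 0 := by
    rintro rfl
    exact hν 0 (mul_zero 0)
  have hνs : ¬ IsSquare ν := by
    rintro ⟨r, hr⟩
    exact hν r hr.symm
  have hnt : Nontrivial V := Module.nontrivial_of_finrank_pos (R := F) (by rw [hV]; omega)
  obtain ⟨K, _, _, e, t, het, hgen⟩ := JW.exists_field (s : V →ₗ[F] V)
    (fun U hU => hirr.irr U le_top hU)
  have hfinV : Finite V := Module.finite_of_finite F
  have hfinK : Finite K := Finite.of_equiv V e.toEquiv
  have het' : ∀ x, e (s x) = t * e x := het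
  obtain ⟨B', hB'⟩ : ∃ B' : K →ₗ[F] K →ₗ[F] F, ∀ x y, B' x y = B (e.symm x) (e.symm y) :=
    ⟨B.compl₁₂ (e.symm : K →ₗ[F] V) (e.symm : K →ₗ[F] V), fun x y => rfl⟩
  have hB'' : ∀ x y, B x y = B' (e x) (e y) := by
    intro x y
    rw [hB', e.symm_apply_apply, e.symm_apply_apply]
  have hsym : ∀ x, e.symm (t * x) = s (e.symm x) := by
    intro x
    rw [LinearEquiv.symm_apply_eq, het', e.apply_symm_apply]
  have hBt : ∀ x y, B' (t * x) (t * y) = B' x y := by
    intro x y
    rw [hB', hB', hsym, hsym]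
    exact hs _ _
  have ht : t ≠ 0 := by
    rintro rfl
    obtain ⟨v, hv⟩ := exists_ne (0 : V)
    have h1 := het' (s.symm v)
    rw [zero_mul, s.apply_symm_apply] at h1
    exact hv (e.map_eq_zero_iff.1 h1)
  have hnd' : ∀ x, (∀ y, B' y x = 0) → x = 0 := by
    intro x hx
    have h1 : e.symm x = 0 := by
      refine hB.nondeg _ fun y => ?_
      have := hx (e y)
      rw [hB', e.symm_apply_apply] at this
      rw [hB.symm, this]
    exact e.symm.map_eq_zero_iff.1 h1
  have hfr : finrank F K = 2 * m := by rw [← e.finrank_eq, hV]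
  obtain ⟨n, hn, htn, hadj⟩ := JW.exists_n B' ht hBt hnd' hgen
  have hnm : n = m := by
    rcases hn with h | h
    · exfalso
      rw [h, pow_zero, pow_one] at htn
      have h1 : t * t = 1 := by
        nth_rewrite 1 [htn]
        exact inv_mul_cancel₀ ht
      have h3 := JW.base_of_sq (F := F) h1 hgen
      omega
    · omega
  obtain ⟨j, hj⟩ := JW.isSquare_ext (K := K) h2 hν0 hfr
  have hjm := JW.conj_sqrt h2 hνs hj hm
  obtain ⟨J, hJ⟩ : ∃ J : V →ₗ[F] V, ∀ x, J x = e.symm (j * e x) :=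
    ⟨(e.symm : K →ₗ[F] V) ∘ₗ (LinearMap.mulLeft F j) ∘ₗ (e : V →ₗ[F] K), fun x => rfl⟩
  have heJ : ∀ x, e (J x) = j * e x := fun x => by rw [hJ, e.apply_symm_apply]
  refine ⟨J, ⟨?_, ?_⟩, ?_⟩
  · intro x
    apply e.injective
    rw [heJ, heJ, map_smul, Algebra.smul_def, ← hj, mul_assoc]
  · intro x y
    rw [hB'', hB'', heJ, heJ, hadj, hnm, hjm, neg_mul, map_neg]
  · intro x
    apply e.injective
    rw [het', heJ, heJ, het']
    ring

end Pool.Agent.H330.PT
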