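import Pool.Agent.H330.PT.Spec

/-!
# PT (helper330): an irreducible isometry generates a field (helper350 in characteristic 2, adapted by helper664)
-/

namespace Pool.Agent.H330.PT

open QuadraticMap Module Polynomial

namespace NH

section base

variable {F V : Type} [Field F] [AddCommGroup V] [Module F V]

/-- the ideal of the polynomials `f` with `f(s) w = 0` -/
noncomputable def annI (s : V →ₗ[F] V) (w : V) : Ideal F[X] where
  carrier := {f | aeval s f w = 0}
  add_mem' := by
    intro f g hf hg
    change aeval s (f + g) w = 0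
    change aeval s f w = 0 at hf
    change aeval s g w = 0 at hg
    rw [map_add, LinearMap.add_apply]
    rw [hf, hg, add_zero]
  zero_mem' := by simp
  smul_mem' := by
    intro c f hf
    change aeval s (c * f) w = 0
    change aeval s f w = 0 at hf
    rw [map_mul, Module.End.mul_apply]
    rw [hf, map_zero]

lemma mem_annI {s : V →ₗ[F] V} {w : V} {f : F[X]} : f ∈ annI s w ↔ aeval s f w = 0 := Iff.rfl

/-- `f ↦ f(s) w` -/
noncomputable def evm (s : V →ₗ[F] V) (w : V) : F[X] →ₗ[F] V :=
  (LinearMap.applyₗ w) ∘ₗ (aeval s).toLinearMap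

lemma evm_apply (s : V →ₗ[F] V) (w : V) (f : F[X]) : evm s w f = aeval s f w := rfl

lemma cyc {s : V →ₗ[F] V} (hirr : ∀ U : Submodule F V, (∀ x ∈ U, s x ∈ U) → U = ⊥ ∨ U = ⊤)
    {v : V} (hv : v ≠ 0) (x : V) : ∃ f : F[X], aeval s f v = x := by
  have h1 : ∀ y ∈ LinearMap.range (evm s v), s y ∈ LinearMap.range (evm s v) := by
    rintro y ⟨f, rfl⟩
    refine ⟨X * f, ?_⟩
    rw [evm_apply, evm_apply, map_mul, aeval_X, Module.End.mul_apply]
  have h2 : v ∈ LinearMap.range (evm s v) := ⟨1, by rw [evm_apply, map_one]; rfl⟩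
  rcases hirr _ h1 with h | h
  · rw [h, Submodule.mem_bot] at h2
    exact absurd h2 hv
  · have h3 : x ∈ LinearMap.range (evm s v) := by rw [h]; trivial
    obtain ⟨f, hf⟩ := h3
    exact ⟨f, hf⟩

lemma annI_max {s : V →ₗ[F] V} (hirr : ∀ U : Submodule F V, (∀ x ∈ U, s x ∈ U) → U = ⊥ ∨ U = ⊤)
    {w : V} (hw : w ≠ 0) : (annI s w).IsMaximal := by
  rw [Ideal.isMaximal_iff]
  refine ⟨?_, ?_⟩
  · rw [mem_annI, map_one]
    exact hw
  · intro J f hIJ hf hfJ
    rw [mem_annI] at hf
    obtain ⟨g, hg⟩ := cyc hirr hf w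
    have h1 : g * f - 1 ∈ annI s w := by
      rw [mem_annI, map_sub, map_mul, map_one, LinearMap.sub_apply, Module.End.mul_apply, hg]
      exact sub_self _
    have h2 := J.sub_mem (J.mul_mem_left g hfJ) (hIJ h1)
    rwa [sub_sub_cancel] at h2

lemma exists_field (s : V →ₗ[F] V) [Nontrivial V]
    (hirr : ∀ U : Submodule F V, (∀ x ∈ U, s x ∈ U) → U = ⊥ ∨ U = ⊤) :
    ∃ (K : Type) (_ : Field K) (_ : Algebra F K) (e : V ≃ₗ[F] K) (t : K),
      (∀ x, e (s x) = t * e x) ∧ (∀ a : K, ∃ f : F[X], aeval t f = a) := by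
  obtain ⟨w, hw⟩ := exists_ne (0 : V)
  have hmax := annI_max hirr hw
  have hsurj : Function.Surjective (evm s w) := fun x => cyc hirr hw x
  have hker : LinearMap.ker (evm s w) = (annI s w).restrictScalars F := rfl
  let K := F[X] ⧸ annI s w
  let e : V ≃ₗ[F] K := ((evm s w).quotKerEquivOfSurjective hsurj).symm.trans
    ((Submodule.quotEquivOfEq _ _ hker).trans (Submodule.Quotient.restrictScalarsEquiv F _))
  have he : ∀ f : F[X], e (aeval s f w) = Ideal.Quotient.mk (annI s w) f := by
    intro f
    have h1 : ((evm s w).quotKerEquivOfSurjective hsurj).symm (aeval s f w) =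
        Submodule.Quotient.mk f := by
      rw [LinearEquiv.symm_apply_eq]
      rfl
    change (Submodule.Quotient.restrictScalarsEquiv F _) ((Submodule.quotEquivOfEq _ _ hker)
      (((evm s w).quotKerEquivOfSurjective hsurj).symm (aeval s f w))) = _
    rw [h1]
    rfl
  refine ⟨K, Ideal.Quotient.field _, inferInstanceAs (Algebra F (F[X] ⧸ annI s w)), e,
    Ideal.Quotient.mk _ X, ?_, ?_⟩
  · intro x
    obtain ⟨f, rfl⟩ := cyc hirr hw x
    have h2 : s (aeval s f w) = aeval s (X * f) w := by
      rw [map_mul, aeval_X, Module.End.mul_apply]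
    rw [h2]
    have h3 := he (X * f)
    have h4 := he f
    rw [h3, h4, map_mul]
  · intro a
    obtain ⟨f, rfl⟩ := Ideal.Quotient.mk_surjective a
    refine ⟨f, ?_⟩
    have h5 := Polynomial.aeval_algHom_apply (Ideal.Quotient.mkₐ F (annI s w)) (X : F[X]) f
    rw [aeval_X_left_apply] at h5
    exact h5

end base

section fld

variable {F K : Type} [Field F] [Field K] [Algebra F K]

lemma polar_mul_t (Q : QuadraticForm F K) {t : K} (ht : t ≠ 0) (hQ : ∀ x, Q (t * x) = Q x)
    (x y : K) : polar Q (t * x) y = polar Q x (t⁻¹ * y) := by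
  have h1 : y = t * (t⁻¹ * y) := by rw [mul_inv_cancel_left₀ ht]
  conv_lhs => rw [h1]
  unfold QuadraticMap.polar
  rw [← mul_add, hQ, hQ, hQ]

lemma polar_mul_pow (Q : QuadraticForm F K) {t : K} (ht : t ≠ 0) (hQ : ∀ x, Q (t * x) = Q x)
    (n : ℕ) : ∀ x y : K, polar Q (t ^ n * x) y = polar Q x (t⁻¹ ^ n * y) := by
  induction n with
  | zero => intro x y; simp
  | succ n ih =>
    intro x y
    rw [pow_succ, mul_assoc, ih, polar_mul_t Q ht hQ, pow_succ', mul_assoc]

lemma adj_poly (Q : QuadraticForm F K) {t : K} (ht : t ≠ 0) (hQ : ∀ x, Q (t * x) = Q x)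
    (f : F[X]) (x y : K) : polar Q (aeval t f * x) y = polar Q x (aeval t⁻¹ f * y) := by
  induction f using Polynomial.induction_on' with
  | add f g hf hg =>
    rw [map_add, map_add, add_mul, add_mul, polar_add_left, polar_add_right, hf, hg]
  | monomial n a =>
    rw [aeval_monomial, aeval_monomial, mul_assoc, mul_assoc, ← Algebra.smul_def,
      ← Algebra.smul_def, polar_smul_left, polar_smul_right, polar_mul_pow Q ht hQ]

variable [Finite F] [Finite K]

/-- the adjoint of the multiplication with `a` is the multiplication with `a ^ (q ^ n)` -/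
lemma exists_n (Q : QuadraticForm F K) {t : K} (ht : t ≠ 0) (hQ : ∀ x, Q (t * x) = Q x)
    (hnd : ∀ x, (∀ y, polar Q x y = 0) → x = 0) (hgen : ∀ a : K, ∃ f : F[X], aeval t f = a) :
    ∃ n : ℕ, (n = 0 ∨ 2 * n = finrank F K) ∧ t ^ (Nat.card F ^ n) = t⁻¹ ∧
      ∀ a x y : K, polar Q (a * x) y = polar Q x (a ^ (Nat.card F ^ n) * y) := by
  have hmin : aeval t⁻¹ (minpoly F t) = 0 := by
    have h1 : ∀ x : K, polar Q (aeval t⁻¹ (minpoly F t)) x = 0 := by
      intro x
      have h2 := adj_poly Q ht hQ (minpoly F t) x 1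
      rw [minpoly.aeval, zero_mul, polar_zero_left, mul_one, polar_comm] at h2
      exact h2.symm
    exact hnd _ h1
  have : Fintype F := Fintype.ofFinite F
  obtain ⟨σ, hσ⟩ := minpoly.exists_algEquiv_of_root' (x := t⁻¹) (y := t)
    (Algebra.IsAlgebraic.isAlgebraic t) hmin
  obtain ⟨⟨n, hn⟩, hσn⟩ := (FiniteField.bijective_frobeniusAlgEquivOfAlgebraic_pow F K).2 σ
  simp only at hσn
  have hval : ∀ (m : ℕ) (a : K), (FiniteField.frobeniusAlgEquivOfAlgebraic F K ^ m) a =
      a ^ (Nat.card F ^ m) := by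
    intro m
    induction m with
    | zero => intro a; simp
    | succ m ih =>
      intro a
      rw [pow_succ, AlgEquiv.mul_apply, ih, FiniteField.coe_frobeniusAlgEquivOfAlgebraic]
      simp only
      rw [← pow_mul, Nat.card_eq_fintype_card, pow_succ']
  have hσa : ∀ a : K, σ a = a ^ (Nat.card F ^ n) := by
    intro a
    rw [← hσn, hval]
  have hσf : ∀ f : F[X], σ (aeval t f) = aeval t⁻¹ f := by
    intro f
    rw [← hσ]
    exact (Polynomial.aeval_algHom_apply (σ : K →ₐ[F] K) t f).symm
  have hσ2 : σ * σ = 1 := by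
    ext a
    obtain ⟨f, rfl⟩ := hgen a
    rw [AlgEquiv.mul_apply, hσf]
    have h3 : σ (aeval t⁻¹ f) = aeval (σ t⁻¹) f :=
      (Polynomial.aeval_algHom_apply (σ : K →ₐ[F] K) t⁻¹ f).symm
    rw [h3, map_inv₀, hσ, inv_inv]
    rfl
  refine ⟨n, ?_, ?_, ?_⟩
  · rw [← hσn, ← pow_add] at hσ2
    have h4 := orderOf_dvd_of_pow_eq_one hσ2
    rw [FiniteField.orderOf_frobeniusAlgEquivOfAlgebraic] at h4
    obtain ⟨c, hc⟩ := h4
    rcases Nat.eq_zero_or_pos n with h0 | h0
    · exact Or.inl h0
    · right
      have h5 : c < 2 := by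
        by_contra h6
        have : finrank F K * 2 ≤ finrank F K * c := Nat.mul_le_mul_left _ (by omega)
        omega
      have h6 : c ≠ 0 := by
        rintro rfl
        omega
      have h7 : c = 1 := by omega
      subst h7
      omega
  · rw [← hσa, hσ]
  · intro a x y
    obtain ⟨f, rfl⟩ := hgen a
    rw [adj_poly Q ht hQ, ← hσa, hσf]

end fld


section core

variable {F K : Type} [Field F] [Field K] [Algebra F K]

lemma arith {q k c : ℕ} (hq : 3 ≤ q) (hk : 2 ≤ k)
    (h : q * ((q ^ k + 1) * c + 1) + q ^ k = q * q ^ k + q ^ (2 * k)) : False := by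
  obtain ⟨l, rfl⟩ : ∃ l, k = l + 1 := ⟨k - 1, by omega⟩
  have hl : 1 ≤ l := by omega
  have hp3 : q ≤ q ^ l := Nat.le_self_pow (by omega) q
  set p := q ^ l with hpd
  have e1 : q ^ (l + 1) = p * q := pow_succ q l
  have e2 : q ^ (2 * (l + 1)) = q * (p * (p * q)) := by
    rw [hpd, show 2 * (l + 1) = l + l + 1 + 1 by ring, pow_succ, pow_succ, pow_add]
    ring
  rw [e1, e2] at h
  have h1 : (p * q + 1) * c + 1 + p = p * q + p * (p * q) := by
    have h2 : q * ((p * q + 1) * c + 1 + p) = q * (p * q + p * (p * q)) := by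
      calc q * ((p * q + 1) * c + 1 + p) = q * ((p * q + 1) * c + 1) + p * q := by ring
        _ = q * (p * q) + q * (p * (p * q)) := h
        _ = q * (p * q + p * (p * q)) := by ring
    exact Nat.eq_of_mul_eq_mul_left (by omega) h2
  have h3 : (p * q + 1) * c + 2 * (p + 1) = (p * q + 1) * (p + 1) := by
    calc (p * q + 1) * c + 2 * (p + 1) = ((p * q + 1) * c + 1 + p) + 1 + p := by ring
      _ = (p * q + p * (p * q)) + 1 + p := by rw [h1]
      _ = (p * q + 1) * (p + 1) := by ring
  have h4 : (p * q + 1) ∣ 2 * (p + 1) :=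
    (Nat.dvd_add_right (Dvd.intro c rfl)).1 (by rw [h3]; exact Dvd.intro _ rfl)
  have h6 := Nat.le_of_dvd (by omega) h4
  nlinarith

/-- the number of the singular vectors, if there is a totally singular subspace of half the
dimension -/
lemma count_sing {V : Type} [AddCommGroup V] [Module F V] [Finite F] [FiniteDimensional F V]
    (Q : QuadraticForm F V) (hnd : ∀ x, (∀ y, polar Q x y = 0) → x = 0)
    (L : Submodule F V) (hL : ∀ x ∈ L, Q x = 0) (hd : 2 * finrank F L = finrank F V) :
    Nat.card F * Nat.card {x : V // Q x = 0} + Nat.card L =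
      Nat.card F * Nat.card L + Nat.card V := by
  classical
  have hfV : Finite V := Module.finite_of_finite F
  have : Fintype V := Fintype.ofFinite V
  have : Fintype F := Fintype.ofFinite F
  have : Fintype L := Fintype.ofFinite L
  have hiso : ∀ x ∈ L, ∀ y ∈ L, polar Q x y = 0 := by
    intro x hx y hy
    unfold QuadraticMap.polar
    rw [hL x hx, hL y hy, hL _ (L.add_mem hx hy)]
    ring
  -- `L` is its own orthogonal
  have hBnd : (polarBilin Q : LinearMap.BilinForm F V).Nondegenerate := by
    refine ⟨fun x hx => hnd x fun y => hx y, fun x hx => hnd x fun y => ?_⟩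
    rw [polar_comm]
    exact hx y
  have horth : L = LinearMap.BilinForm.orthogonal (polarBilin Q) L := by
    refine Submodule.eq_of_le_of_finrank_eq ?_ ?_
    · intro x hx
      rw [LinearMap.BilinForm.mem_orthogonal_iff]
      intro n hn
      exact hiso n hn x hx
    · rw [LinearMap.BilinForm.finrank_orthogonal hBnd]
      omega
  have hex : ∀ v, v ∉ L → ∃ l ∈ L, polar Q v l = 1 := by
    intro v hv
    rw [horth, LinearMap.BilinForm.mem_orthogonal_iff] at hv
    push Not at hv
    obtain ⟨n, hn, hnv⟩ := hv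
    have hnv' : polar Q v n ≠ 0 := by
      rw [polar_comm]
      exact hnv
    refine ⟨(polar Q v n)⁻¹ • n, L.smul_mem _ hn, ?_⟩
    rw [polar_smul_right, smul_eq_mul, inv_mul_cancel₀ hnv']
  have hQadd : ∀ (v : V) (l : L), Q (v + l) = Q v + polar Q v l := by
    intro v l
    have h1 := hL _ l.2
    unfold QuadraticMap.polar
    rw [h1]
    ring
  -- the fibres
  have hfib : ∀ v : V, Nat.card F * Nat.card {l : L // Q (v + l) = 0} =
      if v ∈ L then Nat.card F * Nat.card L else Nat.card L := by
    intro v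
    by_cases hv : v ∈ L
    · rw [if_pos hv]
      congr 1
      refine Nat.card_congr (Equiv.subtypeUnivEquiv fun l => ?_)
      exact hL _ (L.add_mem hv l.2)
    · rw [if_neg hv, ← Nat.card_prod]
      obtain ⟨l₁, hl₁, h1⟩ := hex v hv
      refine Nat.card_congr
        { toFun := fun p => p.1 • (⟨l₁, hl₁⟩ : L) + p.2.1
          invFun := fun l => ⟨polar Q v l + Q v,
            ⟨l - (polar Q v l + Q v) • (⟨l₁, hl₁⟩ : L), ?_⟩⟩
          left_inv := ?_
          right_inv := ?_ }
      · rw [hQadd]
        push_cast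
        rw [polar_sub_right, polar_smul_right, h1, smul_eq_mul]
        ring
      · rintro ⟨c, ⟨l, hl⟩⟩
        rw [hQadd] at hl
        have h2 : polar Q v ((c • (⟨l₁, hl₁⟩ : L) + l : L) : V) + Q v = c := by
          push_cast
          rw [polar_add_right, polar_smul_right, h1, smul_eq_mul]
          linear_combination hl
        refine Prod.ext h2 (Subtype.ext ?_)
        simp only
        rw [h2]
        abel
      · intro l
        simp only
        abel
  -- double counting
  have hdc : Nat.card L * Nat.card {x : V // Q x = 0} = ∑ v : V, Nat.card {l : L // Q (v + l) = 0} := by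
    have h1 : Nat.card {p : V × L // Q (p.1 + p.2) = 0} = Nat.card L * Nat.card {x : V // Q x = 0} := by
      rw [← Nat.card_prod]
      refine Nat.card_congr
        { toFun := fun p => (p.1.2, ⟨p.1.1 + p.1.2, p.2⟩)
          invFun := fun p => ⟨(p.2.1 - p.1, p.1), ?_⟩
          left_inv := ?_
          right_inv := ?_ }
      · simp only [sub_add_cancel]
        exact p.2.2
      · rintro ⟨⟨v, l⟩, h⟩
        simp
      · rintro ⟨l, ⟨x, hx⟩⟩
        simp
    have h2 : Nat.card {p : V × L // Q (p.1 + p.2) = 0} =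
        ∑ v : V, Nat.card {l : L // Q (v + l) = 0} := by
      rw [← Nat.card_sigma]
      refine Nat.card_congr
        { toFun := fun p => ⟨p.1.1, ⟨p.1.2, p.2⟩⟩
          invFun := fun p => ⟨(p.1, p.2.1), p.2.2⟩
          left_inv := fun p => rfl
          right_inv := fun p => rfl }
    rw [← h1, h2]
  have hLpos : 0 < Nat.card L := Nat.card_pos
  have hsum : Nat.card F * (Nat.card L * Nat.card {x : V // Q x = 0}) =
      ∑ v : V, (if v ∈ L then Nat.card F * Nat.card L else Nat.card L) := by
    rw [hdc, Finset.mul_sum]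
    exact Finset.sum_congr rfl fun v _ => hfib v
  have hsum2 : ∑ v : V, (if v ∈ L then Nat.card F * Nat.card L else Nat.card L) +
      Nat.card L * Nat.card L = Nat.card L * (Nat.card F * Nat.card L) +
        Nat.card V * Nat.card L := by
    have hind : ∀ a : ℕ, ∑ v : V, (if v ∈ L then a else 0) = Nat.card L * a := by
      intro a
      rw [← Finset.sum_filter, Finset.sum_const, smul_eq_mul, Nat.card_eq_fintype_card,
        Fintype.card_subtype]
    have h3 : ∑ v : V, (if v ∈ L then Nat.card F * Nat.card L else Nat.card L) +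
        ∑ v : V, (if v ∈ L then Nat.card L else 0) =
        ∑ v : V, (if v ∈ L then Nat.card F * Nat.card L else 0) + ∑ v : V, Nat.card L := by
      rw [← Finset.sum_add_distrib, ← Finset.sum_add_distrib]
      refine Finset.sum_congr rfl fun v _ => ?_
      by_cases hv : v ∈ L
      · simp [hv]
      · simp [hv]
    rw [hind, hind, Finset.sum_const, Finset.card_univ, smul_eq_mul,
      ← Nat.card_eq_fintype_card] at h3
    exact h3
  rw [← hsum] at hsum2
  refine Nat.eq_of_mul_eq_mul_left hLpos ?_
  calc Nat.card L * (Nat.card F * Nat.card {x : V // Q x = 0} + Nat.card L)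
      = Nat.card F * (Nat.card L * Nat.card {x : V // Q x = 0}) + Nat.card L * Nat.card L := by ring
    _ = Nat.card L * (Nat.card F * Nat.card L) + Nat.card V * Nat.card L := hsum2
    _ = Nat.card L * (Nat.card F * Nat.card L + Nat.card V) := by ring

variable [Finite F] [Finite K]

/-- the elements of norm one are isometries -/
lemma norm_one_iso (Q : QuadraticForm F K) {t : K} (hQ : ∀ x, Q (t * x) = Q x)
    (hgen : ∀ a : K, ∃ f : F[X], aeval t f = a) (hd : 2 ≤ finrank F K) {N : ℕ}
    (hadj : ∀ a x y : K, polar Q (a * x) y = polar Q x (a ^ N * y)) (c : K)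
    (hc : c ^ N * c = 1) (x : K) : Q (c * x) = Q x := by
  have hiso : ∀ x y, polar Q (c * x) (c * y) = polar Q x y := by
    intro x y
    rw [hadj, ← mul_assoc, hc, one_mul]
  let U : Submodule F K :=
    { carrier := {x | Q (c * x) = Q x}
      add_mem' := by
        intro a b ha hb
        change Q (c * (a + b)) = Q (a + b)
        change Q (c * a) = Q a at ha
        change Q (c * b) = Q b at hb
        have h1 := hiso a b
        unfold QuadraticMap.polar at h1
        rw [← mul_add] at h1
        linear_combination h1 + ha + hb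
      zero_mem' := by
        change Q (c * 0) = Q 0
        rw [mul_zero]
      smul_mem' := by
        intro r a ha
        change Q (c * (r • a)) = Q (r • a)
        change Q (c * a) = Q a at ha
        rw [mul_smul_comm, QuadraticMap.map_smul, QuadraticMap.map_smul, ha] }
  have hmU : ∀ x, x ∈ U ↔ Q (c * x) = Q x := fun x => Iff.rfl
  have htU : ∀ x ∈ U, t * x ∈ U := by
    intro x hx
    rw [hmU] at hx ⊢
    rw [mul_left_comm, hQ, hQ, hx]
  have hpU : ∀ (n : ℕ) (x : K), x ∈ U → t ^ n * x ∈ U := by
    intro n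
    induction n with
    | zero => intro x hx; rwa [pow_zero, one_mul]
    | succ n ih =>
      intro x hx
      rw [pow_succ, mul_assoc]
      exact ih _ (htU x hx)
  have hidU : ∀ a x : K, x ∈ U → a * x ∈ U := by
    intro a x hx
    obtain ⟨f, rfl⟩ := hgen a
    induction f using Polynomial.induction_on' with
    | add f g hf hg =>
      rw [map_add, add_mul]
      exact U.add_mem hf hg
    | monomial n b =>
      rw [aeval_monomial, mul_assoc, ← Algebra.smul_def]
      exact U.smul_mem _ (hpU n x hx)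
  by_cases hU : ∃ u ∈ U, u ≠ 0
  · obtain ⟨u, hu, hu0⟩ := hU
    have h1 := hidU (x / u) u hu
    rw [div_mul_cancel₀ x hu0] at h1
    exact h1
  · exfalso
    push Not at hU
    have hinj : Function.Injective (fun x : K => Q (c * x) - Q x) := by
      intro a b hab
      have h1 : a - b ∈ U := by
        rw [hmU]
        have e1 := hiso (a - b) b
        unfold QuadraticMap.polar at e1
        rw [← mul_add, sub_add_cancel] at e1
        have h2 : Q (c * a) - Q a = Q (c * b) - Q b := hab
        linear_combination h2 - e1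
      exact sub_eq_zero.1 (hU _ h1)
    have h3 := Nat.card_le_card_of_injective _ hinj
    rw [Module.natCard_eq_pow_finrank (K := F) (V := K)] at h3
    have h4 : 1 < Nat.card F := Finite.one_lt_card
    have h5 : Nat.card F ^ 1 < Nat.card F ^ finrank F K := Nat.pow_lt_pow_right h4 (by omega)
    rw [pow_one] at h5
    omega

lemma core (Q : QuadraticForm F K) {t : K} (ht : t ≠ 0) (hQ : ∀ x, Q (t * x) = Q x)
    (hnd : ∀ x, (∀ y, polar Q x y = 0) → x = 0) (hgen : ∀ a : K, ∃ f : F[X], aeval t f = a)
    {k : ℕ} (hk : 2 ≤ k) (hfr : finrank F K = 2 * k) (L : Submodule F K)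
    (hL : ∀ x ∈ L, Q x = 0) (hLk : finrank F L = k) (h2F : (2 : F) ≠ 0) : False := by
  obtain ⟨n, hn, htn, hadj⟩ := exists_n Q ht hQ hnd hgen
  set q := Nat.card F with hq
  have hq1 : 1 < q := Finite.one_lt_card
  have hq3 : 3 ≤ q := by
    have : Fintype F := Fintype.ofFinite F
    have h1 : ((q : ℕ) : F) = 0 := by
      rw [hq, Nat.card_eq_fintype_card]
      exact FiniteField.cast_card_eq_zero F
    have h3 : q ≠ 2 := by
      intro h4
      rw [h4] at h1
      exact h2F (by exact_mod_cast h1)
    omega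
  have hnk : n = k := by
    rcases hn with h | h
    · exfalso
      rw [h, pow_zero, pow_one] at htn
      have h1 : t * t = 1 := by
        nth_rewrite 2 [htn]
        exact mul_inv_cancel₀ ht
      have h2 : (t - 1) * (t + 1) = 0 := by linear_combination h1
      obtain ⟨r, hr⟩ : ∃ r : F, t = algebraMap F K r := by
        rcases mul_eq_zero.1 h2 with h3 | h3
        · exact ⟨1, by rw [map_one]; linear_combination h3⟩
        · exact ⟨-1, by rw [map_neg, map_one]; linear_combination h3⟩
      have h4 : finrank F K ≤ 1 := by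
        refine finrank_le_one (1 : K) fun w => ?_
        obtain ⟨f, rfl⟩ := hgen w
        refine ⟨f.eval r, ?_⟩
        rw [hr, Algebra.smul_def, mul_one, ← Polynomial.aeval_algebraMap_apply_eq_algebraMap_eval]
      omega
    · omega
  subst hnk
  -- the group of the elements of norm one
  set C : Subgroup Kˣ := (powMonoidHom (q ^ n + 1) : Kˣ →* Kˣ).ker with hC
  have hcardK : Nat.card K = q ^ (2 * n) := by
    rw [Module.natCard_eq_pow_finrank (K := F) (V := K), hfr]
  have hcardU : Nat.card Kˣ + 1 = q ^ (2 * n) := by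
    rw [← hcardK]
    exact (Nat.card_eq_card_units_add_one (α := K)).symm
  have hqn : 1 ≤ q ^ n := Nat.one_le_pow _ _ (by omega)
  have hcardC : Nat.card C = q ^ n + 1 := by
    rw [hC, IsCyclic.card_powMonoidHom_ker]
    refine Nat.gcd_eq_right ?_
    refine ⟨q ^ n - 1, ?_⟩
    obtain ⟨z, hz⟩ : ∃ z, q ^ n = z + 1 := ⟨q ^ n - 1, by omega⟩
    rw [two_mul, pow_add, hz] at hcardU
    rw [hz, Nat.add_sub_cancel]
    have h1 : (z + 1) * (z + 1) = (z + 1 + 1) * z + 1 := by ring
    omega
  -- the nonzero singular vectors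
  let Z : Set Kˣ := {u | Q (u : K) = 0}
  have hZC : ∀ u ∈ Z, ∀ c ∈ C, u * c ∈ Z := by
    intro u hu c hc
    change Q ((u * c : Kˣ) : K) = 0
    have h1 : (c : K) ^ (q ^ n) * c = 1 := by
      rw [hC, MonoidHom.mem_ker, powMonoidHom_apply] at hc
      have h2 := congrArg (Units.val) hc
      rw [Units.val_pow_eq_pow_val, pow_succ] at h2
      exact h2
    rw [Units.val_mul, mul_comm, norm_one_iso Q hQ hgen (by omega) hadj _ h1]
    exact hu
  have hpre : (QuotientGroup.mk ⁻¹' ((QuotientGroup.mk : Kˣ → Kˣ ⧸ C) '' Z) : Set Kˣ) = Z := by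
    ext u
    constructor
    · rintro ⟨v, hv, hvu⟩
      have h1 : v⁻¹ * u ∈ C := QuotientGroup.eq.1 hvu
      have h2 := hZC v hv _ h1
      rwa [mul_inv_cancel_left] at h2
    · intro hu
      exact ⟨u, hu, rfl⟩
  obtain ⟨c, hcZ⟩ : ∃ c, Nat.card Z = (q ^ n + 1) * c := by
    refine ⟨Nat.card ((QuotientGroup.mk : Kˣ → Kˣ ⧸ C) '' Z), ?_⟩
    rw [← hcardC, ← Nat.card_prod]
    have e1 := QuotientGroup.preimageMkEquivSubgroupProdSet C ((QuotientGroup.mk : Kˣ → Kˣ ⧸ C) '' Z)
    rw [hpre] at e1
    exact Nat.card_congr e1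
  have hcardZ : Nat.card {x : K // Q x = 0} = (q ^ n + 1) * c + 1 := by
    rw [← hcZ]
    classical
    have e2 : {x : K // Q x = 0} ≃ Option Z :=
      { toFun := fun x => if h : x.1 = 0 then none else some ⟨Units.mk0 x.1 h, x.2⟩
        invFun := fun o => match o with
          | none => ⟨0, by rw [QuadraticMap.map_zero]⟩
          | some u => ⟨(u.1 : K), u.2⟩
        left_inv := by
          rintro ⟨x, hx⟩
          by_cases h : x = 0
          · subst h
            simp
          · simp [h]
        right_inv := by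
          rintro (_ | ⟨u, hu⟩)
          · simp
          · have : (u : K) ≠ 0 := u.ne_zero
            simp [this] }
    rw [Nat.card_congr e2, Finite.card_option]
  have hcnt := count_sing Q hnd L hL (by rw [hLk, hfr])
  have hcardL : Nat.card L = q ^ n := by
    rw [Module.natCard_eq_pow_finrank (K := F) (V := L), hLk]
  rw [hcardZ, hcardL, hcardK] at hcnt
  exact arith hq3 hk hcnt

end core

end NH

theorem h_NH : S_NH := by
  intro F V _ _ _ _ _ h2F B hB k hk hfrV s hs hirr hplus
  obtain ⟨S, hS, hSd⟩ := hplus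
  have hnt : Nontrivial V := Module.nontrivial_of_finrank_pos (R := F) (by omega)
  have hirrV : ∀ U : Submodule F V, (∀ x ∈ U, (s : V →ₗ[F] V) x ∈ U) → U = ⊥ ∨ U = ⊤ :=
    fun U hU => hirr.irr U le_top hU
  obtain ⟨K, _, _, e, t, het, hgen⟩ := NH.exists_field (s : V →ₗ[F] V) hirrV
  have hfinV : Finite V := Module.finite_of_finite F
  have hfinK : Finite K := Finite.of_equiv V e.toEquiv
  set Q : QuadraticForm F V := LinearMap.BilinMap.toQuadraticMap B with hQ
  have hQa : ∀ x, Q x = B x x := fun x => rfl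
  have hQp : ∀ x y, polar Q x y = 2 * B x y := by
    intro x y
    unfold QuadraticMap.polar
    rw [hQa, hQa, hQa, LinearMap.map_add₂, map_add, map_add, hB.symm y x]
    ring
  set Q' : QuadraticForm F K := Q.comp (e.symm : K →ₗ[F] V) with hQ'
  have hQ'a : ∀ x, Q' x = Q (e.symm x) := fun x => rfl
  have hpol : ∀ x y, polar Q' x y = polar Q (e.symm x) (e.symm y) := by
    intro x y
    unfold QuadraticMap.polar
    rw [hQ'a, hQ'a, hQ'a, map_add]
  have hsym : ∀ x, e.symm (t * x) = s (e.symm x) := by
    intro x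
    rw [LinearEquiv.symm_apply_eq]
    have h1 := het (e.symm x)
    rw [e.apply_symm_apply] at h1
    exact h1.symm
  have hQt : ∀ x, Q' (t * x) = Q' x := by
    intro x
    rw [hQ'a, hsym, hQ'a, hQa, hQa]
    exact hs _ _
  have ht : t ≠ 0 := by
    rintro rfl
    obtain ⟨v, hv⟩ := exists_ne (0 : V)
    have h1 := het v
    rw [zero_mul] at h1
    have h2 : (s : V →ₗ[F] V) v = 0 := e.map_eq_zero_iff.1 h1
    exact hv (s.map_eq_zero_iff.1 h2)
  have hnd' : ∀ x, (∀ y, polar Q' x y = 0) → x = 0 := by
    intro x hx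
    have h1 : e.symm x = 0 := by
      refine hB.nondeg _ fun y => ?_
      have h3 := hx (e y)
      rw [hpol, e.symm_apply_apply, hQp] at h3
      exact (mul_eq_zero.1 h3).resolve_left h2F
    exact e.symm.map_eq_zero_iff.1 h1
  have hfr : finrank F K = 2 * k := by rw [← e.finrank_eq, hfrV]
  refine NH.core Q' ht hQt hnd' hgen hk hfr (S.map (e : V →ₗ[F] K)) ?_ ?_ h2F
  · rintro x ⟨y, hy, rfl⟩
    rw [hQ'a]
    change Q (e.symm (e y)) = 0
    rw [e.symm_apply_apply, hQa]
    exact hS _ hy _ hy
  · rw [LinearEquiv.finrank_map_eq e S]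
    omega

end Pool.Agent.H330.PT
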