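import Pool.Agent.H330.PT.Spec

/-!
# `1 + X ∈ Ω` for skew square-zero `X`
-/

set_option autoImplicit false

namespace Pool.Agent.H330.PT

open Module

namespace NIL

variable {F V : Type} [Field F] [AddCommGroup V] [Module F V]

/-- the skew map of rank two belonging to `u, v` -/
def NN (B : V →ₗ[F] V →ₗ[F] F) (u v : V) : V →ₗ[F] V := (B.flip u).smulRight v - (B.flip v).smulRight u

theorem NN_apply (B : V →ₗ[F] V →ₗ[F] F) (u v w : V) : NN B u v w = B w u • v - B w v • u := rfl

/-- the induction -/
theorem main [FiniteDimensional F V] (h2 : (2 : F) ≠ 0) {B : V →ₗ[F] V →ₗ[F] F} (hB : IsForm B)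
    (hE : ∀ a b, B a a = 0 → B a b = 0 → ∃ g : V ≃ₗ[F] V, g ∈ Om B ∧ ∀ v, g v = sieg B a b v) :
    ∀ (n : ℕ) (X : V →ₗ[F] V), finrank F V - finrank F (LinearMap.ker X) ≤ n →
      (∀ x y, B (X x) y = - B x (X y)) → (∀ x, X (X x) = 0) → ∃ g ∈ Om B, ∀ v, g v = v + X v := by
  intro n
  induction n with
  | zero =>
    intro X hn _ _
    have h0 : LinearMap.ker X = ⊤ := by
      apply Submodule.eq_top_of_finrank_eq
      have := Submodule.finrank_le (LinearMap.ker X)
      omega
    refine ⟨1, one_mem _, fun v => ?_⟩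
    have h1 : v ∈ LinearMap.ker X := by rw [h0]; trivial
    rw [LinearMap.mem_ker] at h1
    rw [h1, add_zero]
    rfl
  | succ n ih =>
    intro X hn hs hX
    by_cases hz : ∀ x, X x = 0
    · refine ⟨1, one_mem _, fun v => ?_⟩
      rw [hz, add_zero]
      rfl
    obtain ⟨x, hx⟩ := not_forall.1 hz
    obtain ⟨y, hy⟩ : ∃ y, B (X x) y ≠ 0 := by
      by_contra hcon
      exact hx (hB.nondeg _ fun y => by
        by_contra h
        exact hcon ⟨y, h⟩)
    have hXX : ∀ a b, B (X a) (X b) = 0 := by
      intro a b
      rw [hs, hX, map_zero, neg_zero]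
    have hxx : B x (X x) = 0 := by
      have h1 := hs x x
      rw [hB.symm (X x) x] at h1
      have h3 : 2 * B x (X x) = 0 := by linear_combination h1
      exact (mul_eq_zero.1 h3).resolve_left h2
    set c := B (X x) y with hc
    set u := X x with hu
    set v := X y with hv
    have hxv : B x v = -c := by
      have h1 := hs x y
      rw [← hu, ← hv, ← hc] at h1
      rw [h1, neg_neg]
    have huu : B u u = 0 := hXX x x
    have huv : B u v = 0 := hXX x y
    have hvu : B v u = 0 := hXX y x
    have hvv : B v v = 0 := hXX y y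
    have hXu : X u = 0 := hX x
    have hXv : X v = 0 := hX y
    set N := NN B u v with hN
    have hNa : ∀ w, N w = B w u • v - B w v • u := fun w => NN_apply B u v w
    have hXN : ∀ w, X (N w) = 0 := by
      intro w
      rw [hNa, map_sub, map_smul, map_smul, hXu, hXv, smul_zero, smul_zero, sub_zero]
    have hNX : ∀ w, N (X w) = 0 := by
      intro w
      rw [hNa, hXX, hXX, zero_smul, zero_smul, sub_zero]
    have hNN : ∀ w, N (N w) = 0 := by
      intro w
      have e1 : N u = 0 := hNX x
      have e2 : N v = 0 := hNX y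
      rw [hNa w, map_sub, map_smul, map_smul, e1, e2, smul_zero, smul_zero, sub_zero]
    have hNs : ∀ a b, B (N a) b = - B a (N b) := by
      intro a b
      rw [hNa, hNa]
      simp only [map_sub, map_smul, LinearMap.sub_apply, LinearMap.smul_apply, smul_eq_mul]
      rw [hB.symm v b, hB.symm u b]
      ring
    set X' := X - c⁻¹ • N with hX'
    have hX'a : ∀ w, X' w = X w - c⁻¹ • N w := fun w => rfl
    have hker : LinearMap.ker X < LinearMap.ker X' := by
      rw [SetLike.lt_iff_le_and_exists]
      refine ⟨fun w hw => ?_, x, ?_, ?_⟩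
      · rw [LinearMap.mem_ker] at hw ⊢
        have e1 : B w u = 0 := by
          have h1 := hs w x
          rw [hw, map_zero, LinearMap.zero_apply] at h1
          exact neg_eq_zero.1 h1.symm
        have e2 : B w v = 0 := by
          have h1 := hs w y
          rw [hw, map_zero, LinearMap.zero_apply] at h1
          exact neg_eq_zero.1 h1.symm
        rw [hX'a, hw, hNa, e1, e2, zero_smul, zero_smul, sub_zero, smul_zero, sub_zero]
      · rw [LinearMap.mem_ker, hX'a, hNa, hxv]
        have e1 : B x u = 0 := hxx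
        rw [e1, zero_smul, zero_sub, neg_smul, neg_neg, smul_smul, inv_mul_cancel₀ hy, one_smul]
        exact sub_self u
      · rw [LinearMap.mem_ker]
        exact hx
    have hlt := Submodule.finrank_lt_finrank_of_lt hker
    have hle := Submodule.finrank_le (LinearMap.ker X')
    obtain ⟨g, hg, hgv⟩ := ih X' (by omega) (fun a b => by
        rw [hX'a, hX'a, map_sub, map_sub, map_smul, map_smul, LinearMap.sub_apply, LinearMap.smul_apply, hs, hNs,
          smul_eq_mul, smul_eq_mul]
        ring) (fun w => by
        rw [hX'a (X' w), hX'a w, map_sub, map_sub, map_smul, map_smul, hX, hXN, hNX, hNN]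
        simp only [smul_zero, sub_zero])
    obtain ⟨s, hsO, hsv⟩ := hE u (c⁻¹ • v) huu (by rw [map_smul, huv, smul_zero])
    refine ⟨g * s, mul_mem hg hsO, fun w => ?_⟩
    have e1 : s w = w + c⁻¹ • N w := by
      rw [hsv]
      unfold sieg
      rw [hNa]
      simp only [map_smul, LinearMap.smul_apply, hvv, smul_eq_mul, mul_zero, zero_mul, zero_smul, sub_zero]
      rw [smul_sub, smul_smul, smul_smul, smul_smul, mul_comm (B w u) c⁻¹]
      abel
    show g (s w) = w + X w
    rw [hgv, e1, hX'a, map_add, map_add, map_smul, map_smul, hXN, hNN]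
    simp only [smul_zero, add_zero]
    abel

end NIL

theorem h_NIL (hS : S_SIEG) : S_NIL := by
  intro F V _ _ _ _ h2 B hB h3 X hs hX
  refine NIL.main h2 hB (fun a b haa hab => ?_) _ X le_rfl hs hX
  obtain ⟨g, -, hg, hv⟩ := hS F V h2 B hB h3 a b haa hab
  exact ⟨g, hg, hv⟩

end Pool.Agent.H330.PT
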