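import Pool.Agent.H330.PT.Spec

/-! PERP: orthogonal spaces (helper199 for helper330) -/

namespace Pool.Agent.H330.PT

open Module

namespace PERP

variable {F V : Type} [Field F] [AddCommGroup V] [Module F V]

theorem perp_eq (B : V →ₗ[F] V →ₗ[F] F) (W : Submodule F V) :
    perp B W = LinearMap.BilinForm.orthogonal B W := by
  ext x
  rfl

theorem isrefl {B : V →ₗ[F] V →ₗ[F] F} (hB : IsForm B) : LinearMap.BilinForm.IsRefl B := by
  intro x y h
  rw [hB.symm]
  exact h

theorem nondeg {B : V →ₗ[F] V →ₗ[F] F} (hB : IsForm B) : LinearMap.BilinForm.Nondegenerate B := by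
  refine ⟨fun x h => hB.nondeg x h, fun x h => hB.nondeg x fun y => ?_⟩
  rw [hB.symm]
  exact h y

end PERP

open PERP

theorem h_PERP : S_PERP := by
  intro F V _ _ _ _ B hB W
  have h1 := LinearMap.BilinForm.finrank_orthogonal (nondeg hB) W
  have h2 := Submodule.finrank_le W
  refine ⟨?_, ?_, ?_⟩
  · rw [perp_eq, h1]
    omega
  · rw [perp_eq, perp_eq]
    exact LinearMap.BilinForm.orthogonal_orthogonal (nondeg hB) (isrefl hB) W
  · intro h
    rw [perp_eq] at h ⊢
    exact (LinearMap.BilinForm.isCompl_orthogonal_iff_disjoint (isrefl hB)).2 (disjoint_iff.2 h)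

end Pool.Agent.H330.PT
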