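import Pool.Agent.H330.PT.Spec

set_option autoImplicit false

namespace Pool.Agent.H330.PT

open Module

namespace PROPJ

variable {F V : Type} [Field F] [AddCommGroup V] [Module F V]

lemma exists_b [FiniteDimensional F V] (B : V →ₗ[F] V →ₗ[F] F) (h5 : 5 ≤ finrank F V) (a u : V) :
    ∃ b, B a b = 0 ∧ b ∉ Submodule.span F {a, u} := by
  by_contra hcon
  push Not at hcon
  have hle : LinearMap.ker (B a) ≤ Submodule.span F {a, u} := by
    intro b hb
    exact hcon b (LinearMap.mem_ker.1 hb)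
  have h1 := Submodule.finrank_mono hle
  have h2 : finrank F (Submodule.span F ({a, u} : Set V)) ≤ 2 := by
    classical
    have := finrank_span_le_card (R := F) ({a, u} : Set V)
    refine this.trans ?_
    rw [Set.toFinset_insert, Set.toFinset_singleton]
    exact Finset.card_le_two
  have h3 := LinearMap.finrank_range_add_finrank_ker (B a)
  have h4 : finrank F (LinearMap.range (B a)) ≤ 1 := by
    have := Submodule.finrank_le (LinearMap.range (B a))
    rwa [finrank_self] at this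
  omega

lemma exists_x (B : V →ₗ[F] V →ₗ[F] F) (hB : IsForm B) (a b : V) (ha : a ≠ 0)
    (hb : ∀ c : F, b ≠ c • a) : ∃ x, B x a = 0 ∧ B x b ≠ 0 := by
  obtain ⟨y, hy⟩ : ∃ y, B y a ≠ 0 := by
    by_contra hcon
    push Not at hcon
    refine ha (hB.nondeg a fun y => ?_)
    rw [hB.symm]
    exact hcon y
  have hb' : b - (B y b / B y a) • a ≠ 0 := fun h => hb _ (sub_eq_zero.1 h)
  obtain ⟨z, hz⟩ : ∃ z, B z (b - (B y b / B y a) • a) ≠ 0 := by
    by_contra hcon
    push Not at hcon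
    refine hb' (hB.nondeg _ fun y => ?_)
    rw [hB.symm]
    exact hcon y
  refine ⟨z - (B z a / B y a) • y, ?_, ?_⟩
  · rw [map_sub, map_smul, LinearMap.sub_apply, LinearMap.smul_apply, smul_eq_mul,
      div_mul_cancel₀ _ hy, sub_self]
  · rw [map_sub, map_smul, LinearMap.sub_apply, LinearMap.smul_apply, smul_eq_mul]
    rw [map_sub, map_smul, smul_eq_mul] at hz
    intro h
    apply hz
    rw [← h]
    ring

end PROPJ

theorem h_PROPJ (_ : S_PERP) (hI : S_ISOT) (hS : S_SIEG) : S_PROPJ := by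
  intro F V _ _ _ _ _ h2 B hB h5 d hd J hJ
  by_contra hcon
  push Not at hcon
  obtain ⟨a, -, ha0, ha⟩ := hI F V h2 B hB.symm ⊤ (by rw [finrank_top]; omega)
  have hind : ∀ u v : F, u • a + v • J a = 0 → u = 0 ∧ v = 0 := by
    intro u v h
    have hv : v = 0 := by
      by_contra hv
      have h3 : J a = (-(v⁻¹ * u)) • a := by
        have h4 : v⁻¹ • (u • a + v • J a) = 0 := by rw [h, smul_zero]
        rw [smul_add, smul_smul, smul_smul, inv_mul_cancel₀ hv, one_smul] at h4
        rw [neg_smul]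
        exact eq_neg_of_add_eq_zero_right h4
      obtain ⟨μ, hμ⟩ : ∃ μ, μ = -(v⁻¹ * u) := ⟨_, rfl⟩
      rw [← hμ] at h3
      have h5 := hJ.sq a
      rw [h3, map_smul, h3, smul_smul] at h5
      have h6 : (μ * μ - d) • a = 0 := by rw [sub_smul, h5, sub_self]
      exact hd μ (sub_eq_zero.1 ((smul_eq_zero.1 h6).resolve_right ha0))
    rw [hv, zero_smul, add_zero] at h
    exact ⟨(smul_eq_zero.1 h).resolve_right ha0, hv⟩
  obtain ⟨b, hab, hb⟩ := PROPJ.exists_b B h5 a (J a)
  have hb2 : ∀ α β : F, b ≠ α • a + β • J a := by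
    rintro α β rfl
    exact hb (Submodule.add_mem _ (Submodule.smul_mem _ _ (Submodule.subset_span (by simp)))
      (Submodule.smul_mem _ _ (Submodule.subset_span (by simp))))
  obtain ⟨x, hx1, hx2⟩ := PROPJ.exists_x B hB a b ha0 fun c h => hb2 c 0 (by rw [h]; simp)
  obtain ⟨g, _, hom, hg⟩ := hS F V h2 B hB (by omega) a b ha hab
  have h := hcon g hom x
  rw [hg, hg] at h
  simp only [sieg, hx1, mul_zero, zero_smul, add_zero, sub_zero, map_sub, map_smul] at h
  -- `h : J x + B(Jx,a) b - B(Jx,b) a - .. a = J x - t J a`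
  obtain ⟨p, hp⟩ : ∃ p, p = B (J x) a := ⟨_, rfl⟩
  obtain ⟨q, hq⟩ : ∃ q, q = B (J x) b := ⟨_, rfl⟩
  obtain ⟨t, ht⟩ : ∃ t, t = B x b := ⟨_, rfl⟩
  obtain ⟨k, hk⟩ : ∃ k, k = 2⁻¹ * B b b := ⟨_, rfl⟩
  rw [← hp, ← hq, ← ht, ← hk] at h
  rw [← ht] at hx2
  have h3 : p • b = (q + k * p) • a + (-t) • J a := by
    have h4 : J x + p • b - q • a - (k * p) • a - (J x - t • J a) = 0 := sub_eq_zero.2 h
    have h6 : p • b - ((q + k * p) • a + (-t) • J a) =
        J x + p • b - q • a - (k * p) • a - (J x - t • J a) := by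
      module
    rw [h4] at h6
    exact sub_eq_zero.1 h6
  by_cases h0 : p = 0
  · rw [h0, zero_smul] at h3
    exact hx2 (neg_eq_zero.1 (hind _ _ h3.symm).2)
  · apply hb2 (p⁻¹ * (q + k * p)) (p⁻¹ * (-t))
    have h4 : b = p⁻¹ • (p • b) := by
      rw [smul_smul, inv_mul_cancel₀ h0, one_smul]
    refine h4.trans ?_
    rw [h3, smul_add, smul_smul, smul_smul]

end Pool.Agent.H330.PT
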