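import Pool.Agent.H330.PT.Spec

/-!
# PROPW: `Ω` does not preserve a small subspace
-/

set_option autoImplicit false

namespace Pool.Agent.H330.PT

open Module Polynomial

namespace PROPW

variable {F V : Type} [Field F] [AddCommGroup V] [Module F V] [FiniteDimensional F V]

/-- a subspace of more than half the dimension is not totally isotropic -/
theorem exists_nonsing (hP : S_PERP) (h2 : (2 : F) ≠ 0) {B : V →ₗ[F] V →ₗ[F] F} (hB : IsForm B)
    (U : Submodule F V) (hU : finrank F V < 2 * finrank F U) : ∃ u ∈ U, B u u ≠ 0 := by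
  by_contra hcon
  push Not at hcon
  have hle : U ≤ perp B U := by
    intro u hu w hw
    have h1 := hcon (w + u) (U.add_mem hw hu)
    rw [map_add, map_add, LinearMap.add_apply, LinearMap.add_apply, hcon w hw, hcon u hu,
      hB.symm u w] at h1
    have h3 : (2 : F) * B w u = 0 := by linear_combination h1
    exact (mul_eq_zero.1 h3).resolve_left h2
  have h1 := Submodule.finrank_mono hle
  have h3 := (hP F V B hB U).1
  omega

omit [FiniteDimensional F V] in
theorem finrank_ker_inf [FiniteDimensional F V] (U : Submodule F V) (f : V →ₗ[F] F) :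
    finrank F U ≤ finrank F (U ⊓ LinearMap.ker f : Submodule F V) + 1 := by
  have h1 := Submodule.finrank_sup_add_finrank_inf_eq U (LinearMap.ker f)
  have h2 := LinearMap.finrank_range_add_finrank_ker f
  have h3 : finrank F (LinearMap.range f) ≤ finrank F F := Submodule.finrank_le _
  rw [finrank_self] at h3
  have h4 : finrank F (U ⊔ LinearMap.ker f : Submodule F V) ≤ finrank F V := Submodule.finrank_le _
  omega

theorem exists_sing [Finite F] (hP : S_PERP) (h2 : (2 : F) ≠ 0) {B : V →ₗ[F] V →ₗ[F] F}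
    (hB : IsForm B) (h8 : 8 ≤ finrank F V) {x : V} (hx : x ≠ 0) :
    ∃ a, B a a = 0 ∧ B x a = 1 := by
  classical
  have : Fintype F := Fintype.ofFinite F
  obtain ⟨y₀, hy₀⟩ : ∃ y, B x y ≠ 0 := by
    by_contra h
    push Not at h
    exact hx (hB.nondeg x h)
  obtain ⟨y, hxy⟩ : ∃ y, B x y = 1 :=
    ⟨(B x y₀)⁻¹ • y₀, by rw [map_smul, smul_eq_mul, inv_mul_cancel₀ hy₀]⟩
  have k1 := finrank_ker_inf (⊤ : Submodule F V) (B x)
  have k2 := finrank_ker_inf (⊤ ⊓ LinearMap.ker (B x) : Submodule F V) (B y)
  rw [finrank_top] at k1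
  obtain ⟨p, hp, hpp⟩ := exists_nonsing hP h2 hB
    (⊤ ⊓ LinearMap.ker (B x) ⊓ LinearMap.ker (B y) : Submodule F V) (by omega)
  have k3 := finrank_ker_inf (⊤ ⊓ LinearMap.ker (B x) ⊓ LinearMap.ker (B y) : Submodule F V) (B p)
  obtain ⟨r, hr, hrr⟩ := exists_nonsing hP h2 hB
    (⊤ ⊓ LinearMap.ker (B x) ⊓ LinearMap.ker (B y) ⊓ LinearMap.ker (B p) : Submodule F V)
    (by omega)
  have hxp : B x p = 0 := hp.1.2
  have hyp : B y p = 0 := hp.2
  have hxr : B x r = 0 := hr.1.1.2
  have hyr : B y r = 0 := hr.1.2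
  have hpr : B p r = 0 := hr.2
  have hchar : ringChar F ≠ 2 := by
    intro h
    apply h2
    have h3 : ((ringChar F : ℕ) : F) = 0 := ringChar.Nat.cast_ringChar
    rw [h] at h3
    exact_mod_cast h3
  obtain ⟨u, v, huv⟩ := FiniteField.exists_root_sum_quadratic
    (f := C (B p p) * X ^ 2 + C 0 * X + C (B y y)) (g := C (B r r) * X ^ 2 + C 0 * X + C 0)
    (degree_quadratic hpp) (degree_quadratic hrr) (FiniteField.odd_card_of_char_ne_two hchar)
  simp only [eval_add, eval_mul, eval_C, eval_pow, eval_X, zero_mul, add_zero] at huv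
  refine ⟨y + u • p + v • r, ?_, ?_⟩
  · have hpy : B p y = 0 := by rw [hB.symm, hyp]
    have hry : B r y = 0 := by rw [hB.symm, hyr]
    have hrp : B r p = 0 := by rw [hB.symm, hpr]
    simp only [map_add, map_smul, LinearMap.add_apply, LinearMap.smul_apply, smul_eq_mul, hyp, hyr,
      hpy, hry, hpr, hrp, mul_zero, add_zero, zero_add]
    linear_combination huv
  · rw [map_add, map_add, map_smul, map_smul, hxy, hxp, hxr, smul_zero, smul_zero, add_zero,
      add_zero]

end PROPW

open PROPW in
theorem h_PROPW (hP : S_PERP) (hS : S_SIEG) : S_PROPW := by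
  intro F V _ _ _ _ _ h2 B hB h8 W hW hdim
  by_contra hcon
  push Not at hcon
  obtain ⟨x, hxW, hx⟩ := W.exists_mem_ne_zero_of_ne_bot hW
  obtain ⟨a, ha, hxa⟩ := exists_sing hP h2 hB h8 hx
  have hle : LinearMap.ker (B a) ≤ W ⊔ Submodule.span F {a} := by
    intro b hb
    have hb' : B a b = 0 := hb
    obtain ⟨g, -, hgO, hg⟩ := hS F V h2 B hB (by omega) a b ha hb'
    have h1 := hcon g hgO x hxW
    rw [hg, sieg, hxa, one_smul, mul_one] at h1
    have e : b = (x + b - B x b • a - (2⁻¹ * B b b) • a) + -x + (B x b + 2⁻¹ * B b b) • a := by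
      rw [add_smul]
      abel
    rw [e]
    exact Submodule.add_mem_sup (W.add_mem h1 (W.neg_mem hxW))
      (Submodule.smul_mem _ _ (Submodule.mem_span_singleton_self a))
  have h2 := Submodule.finrank_mono hle
  have h3 := Submodule.finrank_add_le_finrank_add_finrank W (Submodule.span F {a})
  have h4 : finrank F (Submodule.span F {a}) ≤ 1 := by
    have := finrank_span_le_card (R := F) ({a} : Set V)
    simpa using this
  have h5 := LinearMap.finrank_range_add_finrank_ker (B a)
  have h6 : finrank F (LinearMap.range (B a)) ≤ finrank F F := Submodule.finrank_le _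
  rw [finrank_self] at h6
  omega

end Pool.Agent.H330.PT
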