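import Pool.Agent.H330.PT.Spec

/-!
# Siegel transformations lie in `Ω`
-/

set_option autoImplicit false

namespace Pool.Agent.H330.PT

open Module

namespace SIEG

variable {F V : Type} [Field F] [AddCommGroup V] [Module F V] {B : V →ₗ[F] V →ₗ[F] F}

/-- the Siegel transformation as a linear map -/
def sL (B : V →ₗ[F] V →ₗ[F] F) (a b : V) : V →ₗ[F] V where
  toFun := sieg B a b
  map_add' x y := by
    unfold sieg
    simp only [map_add, LinearMap.add_apply]
    module
  map_smul' c x := by
    unfold sieg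
    simp only [map_smul, LinearMap.smul_apply, smul_eq_mul, RingHom.id_apply]
    module

theorem B_sieg {a b : V} (x c : V) :
    B (sieg B a b x) c =
      B x c + B x a * B b c - B x b * B a c - (2⁻¹ * B b b * B x a) * B a c := by
  unfold sieg
  simp only [map_sub, map_add, map_smul, LinearMap.sub_apply, LinearMap.add_apply,
    LinearMap.smul_apply, smul_eq_mul]

theorem comp (h2 : (2 : F) ≠ 0) (hs : ∀ x y, B x y = B y x) {a b b' : V} (ha : B a a = 0)
    (hb : B a b = 0) (hb' : B a b' = 0) (x : V) :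
    sieg B a b (sieg B a b' x) = sieg B a (b + b') x := by
  have hl : (2 : F)⁻¹ * 2 = 1 := inv_mul_cancel₀ h2
  have e1 : B (sieg B a b' x) a = B x a := by
    rw [B_sieg, hs b' a, hb', ha]
    ring
  have e2 : B (sieg B a b' x) b = B x b + B x a * B b' b := by
    rw [B_sieg, hb]
    ring
  have e3 : sieg B a b (sieg B a b' x) = sieg B a b' x + B (sieg B a b' x) a • b -
    B (sieg B a b' x) b • a - (2⁻¹ * B b b * B (sieg B a b' x) a) • a := rfl
  rw [e3, e1, e2]
  unfold sieg
  have e4 : B (b + b') (b + b') = B b b + 2 * B b' b + B b' b' := by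
    simp only [map_add, LinearMap.add_apply, hs b b']
    ring
  rw [e4, map_add]
  obtain ⟨t, ht⟩ : ∃ t : F, t = 2⁻¹ := ⟨_, rfl⟩
  rw [← ht] at hl ⊢
  have e5 : t * (B b b + 2 * B b' b + B b' b') * B x a =
      t * B b b * B x a + B b' b * B x a + t * B b' b' * B x a := by
    linear_combination (B b' b * B x a) * hl
  rw [e5]
  module

theorem zero_eq (a x : V) : sieg B a 0 x = x := by
  unfold sieg
  simp

/-- the Siegel transformation as a linear equivalence -/
noncomputable def E (h2 : (2 : F) ≠ 0) (hs : ∀ x y, B x y = B y x) (a b : V) (ha : B a a = 0)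
    (hb : B a b = 0) : V ≃ₗ[F] V :=
  LinearEquiv.ofLinearMap (sL B a b) (sL B a (-b))
    (LinearMap.ext fun x => by
      show sieg B a b (sieg B a (-b) x) = x
      rw [comp h2 hs ha hb (by rw [map_neg, hb, neg_zero]), add_neg_cancel, zero_eq])
    (LinearMap.ext fun x => by
      show sieg B a (-b) (sieg B a b x) = x
      rw [comp h2 hs ha (by rw [map_neg, hb, neg_zero]) hb, neg_add_cancel, zero_eq])

theorem isom (h2 : (2 : F) ≠ 0) (hs : ∀ x y, B x y = B y x) {a b : V} (ha : B a a = 0)
    (hb : B a b = 0) (x y : V) : B (sieg B a b x) (sieg B a b y) = B x y := by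
  have hl : (2 : F)⁻¹ * 2 = 1 := inv_mul_cancel₀ h2
  have e1 : ∀ c, B c (sieg B a b y) =
      B y c + B y a * B b c - B y b * B a c - (2⁻¹ * B b b * B y a) * B a c := by
    intro c
    rw [hs c, B_sieg]
  rw [B_sieg, e1 x, e1 b, e1 a, hb, hs b a, hb, ha, hs a x, hs b x, hs y x]
  obtain ⟨t, ht⟩ : ∃ t : F, t = 2⁻¹ := ⟨_, rfl⟩
  rw [← ht] at hl ⊢
  linear_combination (-(B b b * B x a * B y a)) * hl

theorem E_mem (h2 : (2 : F) ≠ 0) (hs : ∀ x y, B x y = B y x) (a b : V) (ha : B a a = 0)
    (hb : B a b = 0) : E h2 hs a b ha hb ∈ Orth B := fun x y => isom h2 hs ha hb x y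

theorem E_inv (h2 : (2 : F) ≠ 0) (hs : ∀ x y, B x y = B y x) (a b : V) (ha : B a a = 0)
    (hb : B a b = 0) (x : V) : (E h2 hs a b ha hb)⁻¹ x = sieg B a (-b) x := rfl

/-- the reflection -/
noncomputable def rL (B : V →ₗ[F] V →ₗ[F] F) (b : V) : V →ₗ[F] V where
  toFun x := x - (2 * B x b * (B b b)⁻¹) • b
  map_add' x y := by
    simp only [map_add, LinearMap.add_apply]
    module
  map_smul' c x := by
    simp only [map_smul, LinearMap.smul_apply, smul_eq_mul, RingHom.id_apply]
    module

theorem rL_apply (b x : V) : rL B b x = x - (2 * B x b * (B b b)⁻¹) • b := rfl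

theorem B_rL (b x c : V) : B (rL B b x) c = B x c - 2 * B x b * (B b b)⁻¹ * B b c := by
  rw [rL_apply]
  simp only [map_sub, map_smul, LinearMap.sub_apply, LinearMap.smul_apply, smul_eq_mul]

theorem rL_rL {b : V} (hb : B b b ≠ 0) (x : V) : rL B b (rL B b x) = x := by
  have e1 : B (rL B b x) b = - B x b := by
    rw [B_rL]
    field_simp
    ring
  rw [rL_apply b (rL B b x), e1, rL_apply]
  module

/-- the reflection as a linear equivalence -/
noncomputable def R (B : V →ₗ[F] V →ₗ[F] F) (b : V) (hb : B b b ≠ 0) : V ≃ₗ[F] V :=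
  LinearEquiv.ofLinearMap (rL B b) (rL B b) (LinearMap.ext fun x => rL_rL hb x)
    (LinearMap.ext fun x => rL_rL hb x)

theorem R_mem (hs : ∀ x y, B x y = B y x) (b : V) (hb : B b b ≠ 0) : R B b hb ∈ Orth B := by
  intro x y
  show B (rL B b x) (rL B b y) = B x y
  rw [B_rL, hs x (rL B b y), hs b (rL B b y), B_rL, B_rL, hs b x, hs y x]
  field_simp
  ring

theorem R_sieg (hs : ∀ x y, B x y = B y x) {a b c : V} (hb : B b b ≠ 0) (hab : B a b = 0)
    {s : F} (hc : c = s • b) (x : V) : rL B b (sieg B a c (rL B b x)) = sieg B a (-c) x := by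
  subst hc
  have ea : B (rL B b x) a = B x a := by
    rw [B_rL, hs b a, hab, mul_zero, sub_zero]
  have eb : B (rL B b x) (s • b) = - (s * B x b) := by
    rw [map_smul, smul_eq_mul, B_rL]
    field_simp
    ring
  have ra : rL B b a = a := by
    rw [rL_apply, hab]
    simp
  have rb : rL B b b = -b := by
    rw [rL_apply]
    have : 2 * B b b * (B b b)⁻¹ = 2 := by field_simp
    rw [this]
    module
  unfold sieg
  rw [ea, eb]
  simp only [map_sub, map_add, map_smul, map_neg, ra, rb, rL_rL hb, LinearMap.neg_apply,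
    LinearMap.smul_apply, smul_eq_mul, neg_neg, mul_neg]
  module

/-- the Siegel transformation for a nonsingular vector `b` -/
theorem E_Om (h2 : (2 : F) ≠ 0) (hs : ∀ x y, B x y = B y x) (a b : V) (ha : B a a = 0)
    (hb : B a b = 0) (hbb : B b b ≠ 0) : E h2 hs a b ha hb ∈ Om B := by
  have hc : B a ((2 : F)⁻¹ • b) = 0 := by rw [map_smul, hb, smul_zero]
  have h1 := Subgroup.commutator_mem_commutator (E_mem h2 hs a ((2 : F)⁻¹ • b) ha hc)
    (R_mem hs b hbb)
  have h3 : E h2 hs a b ha hb = E h2 hs a ((2 : F)⁻¹ • b) ha hc * R B b hbb *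
      (E h2 hs a ((2 : F)⁻¹ • b) ha hc)⁻¹ * (R B b hbb)⁻¹ := by
    apply LinearEquiv.ext
    intro x
    show sieg B a b x = sieg B a ((2 : F)⁻¹ • b)
      (rL B b (sieg B a (-((2 : F)⁻¹ • b)) (rL B b x)))
    rw [R_sieg hs hbb hb (s := -(2 : F)⁻¹) (by rw [neg_smul]), neg_neg, comp h2 hs ha hc hc,
      ← add_smul]
    have h4 : (2 : F)⁻¹ + 2⁻¹ = 1 := by
      field_simp
      norm_num
    rw [h4, one_smul]
  rw [h3]
  exact h1

/-- a nonsingular vector orthogonal to `a` -/
theorem exists_ns [FiniteDimensional F V] (h2 : (2 : F) ≠ 0) (hB : IsForm B)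
    (hd : 3 ≤ finrank F V) (a : V) (ha0 : a ≠ 0) : ∃ m, B a m = 0 ∧ B m m ≠ 0 := by
  by_contra hcon
  push Not at hcon
  have hs := hB.symm
  -- a vector of `a^⊥` outside the line of `a`
  obtain ⟨n, hn, hna⟩ : ∃ n ∈ LinearMap.ker (B a), n ∉ Submodule.span F {a} := by
    by_contra h
    push Not at h
    have h1 : LinearMap.ker (B a) ≤ Submodule.span F {a} := h
    have h3 := Submodule.finrank_mono h1
    have h4 : finrank F (Submodule.span F {a}) ≤ 1 := (finrank_span_singleton ha0).le
    have h5 := LinearMap.finrank_range_add_finrank_ker (B a)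
    have h6 : finrank F (LinearMap.range (B a)) ≤ 1 := by
      have := Submodule.finrank_le (LinearMap.range (B a))
      rw [finrank_self] at this
      exact this
    omega
  rw [LinearMap.mem_ker] at hn
  -- polarisation
  have hpol : ∀ m, B a m = 0 → B n m = 0 := by
    intro m hm
    have h1 := hcon (n + m) (by rw [map_add, hn, hm, add_zero])
    have h3 := hcon n hn
    have h4 := hcon m hm
    simp only [map_add, LinearMap.add_apply, h3, h4, hs m n] at h1
    have h5 : (2 : F) * B n m = 0 := by linear_combination h1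
    exact (mul_eq_zero.1 h5).resolve_left h2
  obtain ⟨v, hv⟩ : ∃ v, B a v ≠ 0 := by
    by_contra h
    push Not at h
    exact ha0 (hB.nondeg a h)
  apply hna
  rw [Submodule.mem_span_singleton]
  refine ⟨B n v * (B a v)⁻¹, ?_⟩
  have h1 : n - (B n v * (B a v)⁻¹) • a = 0 := by
    apply hB.nondeg
    intro x
    have hx : B a (x - (B a x * (B a v)⁻¹) • v) = 0 := by
      simp only [map_sub, map_smul, smul_eq_mul]
      field_simp
      ring
    have h3 := hpol _ hx
    simp only [map_sub, map_smul, smul_eq_mul] at h3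
    simp only [map_sub, map_smul, LinearMap.sub_apply, LinearMap.smul_apply, smul_eq_mul]
    field_simp at h3 ⊢
    linear_combination h3
  exact (sub_eq_zero.1 h1).symm

end SIEG

theorem h_SIEG : S_SIEG := by
  intro F V _ _ _ _ h2 B hB hd a b ha hb
  have hs := hB.symm
  refine ⟨SIEG.E h2 hs a b ha hb, SIEG.E_mem h2 hs a b ha hb, ?_, fun v => rfl⟩
  by_cases ha0 : a = 0
  · have h1 : SIEG.E h2 hs a b ha hb = 1 := by
      apply LinearEquiv.ext
      intro x
      show sieg B a b x = x
      unfold sieg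
      rw [ha0]
      simp
    rw [h1]
    exact (Om B).one_mem
  by_cases hbb : B b b = 0
  · obtain ⟨m, hm, hmm⟩ := SIEG.exists_ns h2 hB hd a ha0
    obtain ⟨t, ht, htn⟩ : ∃ t : F, t * t = 1 ∧ B (b + t • m) (b + t • m) ≠ 0 := by
      by_contra hcon
      push Not at hcon
      have h1 := hcon 1 (one_mul 1)
      have h3 := hcon (-1) (by ring)
      simp only [map_add, map_smul, LinearMap.add_apply, LinearMap.smul_apply, smul_eq_mul, hbb]
        at h1 h3
      apply hmm
      have h4 : (2 : F) * B m m = 0 := by linear_combination h1 + h3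
      exact (mul_eq_zero.1 h4).resolve_left h2
    have hc1 : B a (b + t • m) = 0 := by rw [map_add, map_smul, hb, hm, smul_zero, add_zero]
    have hc2 : B a (-(t • m)) = 0 := by rw [map_neg, map_smul, hm, smul_zero, neg_zero]
    have hn2 : B (-(t • m)) (-(t • m)) ≠ 0 := by
      simp only [map_neg, map_smul, LinearMap.neg_apply, LinearMap.smul_apply, smul_eq_mul]
      have h5 : -(t * -(t * B m m)) = B m m := by linear_combination (B m m) * ht
      rw [h5]
      exact hmm
    have h1 : SIEG.E h2 hs a b ha hb =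
        SIEG.E h2 hs a (b + t • m) ha hc1 * SIEG.E h2 hs a (-(t • m)) ha hc2 := by
      apply LinearEquiv.ext
      intro x
      show sieg B a b x = sieg B a (b + t • m) (sieg B a (-(t • m)) x)
      rw [SIEG.comp h2 hs ha hc1 hc2, add_neg_cancel_right]
    rw [h1]
    exact (Om B).mul_mem (SIEG.E_Om h2 hs a _ ha hc1 htn) (SIEG.E_Om h2 hs a _ ha hc2 hn2)
  · exact SIEG.E_Om h2 hs a b ha hb hbb

end Pool.Agent.H330.PT
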