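import Pool.Agent.H330.PT.Spec

/-! STRUCT: the structure of a minimal invariant subspace. -/

namespace Pool.Agent.H330.PT

open Module Polynomial

namespace STRUCT

variable {F V : Type} [Field F] [AddCommGroup V] [Module F V]

theorem zz_apply (J J' : V →ₗ[F] V) (x : V) : zz J J' x = J (J' x) + J' (J x) := rfl

theorem comm_z {J J' : V →ₗ[F] V} {d : F} (hJ : ∀ x, J (J x) = d • x) :
    ∀ x, J (zz J J' x) = zz J J' (J x) := by
  intro x
  rw [zz_apply, zz_apply, map_add, hJ, hJ, map_smul]
  exact add_comm _ _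

theorem comm_z' {J J' : V →ₗ[F] V} {d : F} (hJ' : ∀ x, J' (J' x) = d • x) :
    ∀ x, J' (zz J J' x) = zz J J' (J' x) := by
  intro x
  rw [zz_apply, zz_apply, map_add, hJ', hJ', map_smul]
  exact add_comm _ _

theorem comm_aeval {z T : V →ₗ[F] V} (h : ∀ x, T (z x) = z (T x)) (f : F[X]) (x : V) :
    T (aeval z f x) = aeval z f (T x) := by
  have hc : Commute T z := LinearMap.ext h
  have h2 : Commute T (aeval z f) := by
    induction f using Polynomial.induction_on' with
    | add p q hp hq => rw [map_add]; exact hp.add_right hq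
    | monomial n a =>
      rw [aeval_monomial]
      exact (Algebra.commute_algebraMap_right a T).mul_right (hc.pow_right n)
  exact LinearMap.congr_fun h2.eq x

theorem mem_aeval {z : V →ₗ[F] V} {M : Submodule F V} (h : ∀ x ∈ M, z x ∈ M) (f : F[X]) :
    ∀ x ∈ M, aeval z f x ∈ M := by
  induction f using Polynomial.induction_on' with
  | add p q hp hq =>
    intro x hx
    rw [map_add]
    exact M.add_mem (hp x hx) (hq x hx)
  | monomial n a =>
    intro x hx
    rw [aeval_monomial]
    change (algebraMap F (Module.End F V) a) ((z ^ n) x) ∈ M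
    rw [Module.algebraMap_end_apply]
    apply M.smul_mem
    induction n with
    | zero => exact hx
    | succ n ih =>
      rw [pow_succ']
      exact h _ ih

theorem mul_app (z : V →ₗ[F] V) (f g : F[X]) (x : V) :
    aeval z (f * g) x = aeval z f (aeval z g x) := by
  rw [map_mul]
  rfl

theorem X_app (z : V →ₗ[F] V) (x : V) : aeval z (X : F[X]) x = z x := by
  rw [aeval_X]

theorem C_app (z : V →ₗ[F] V) (c : F) (x : V) : aeval z (C c : F[X]) x = c • x := by
  rw [aeval_C, Module.algebraMap_end_apply]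

theorem z_mem {J J' : V →ₗ[F] V} {M : Submodule F V} (h : Inv J J' M) :
    ∀ x ∈ M, zz J J' x ∈ M := by
  intro x hx
  rw [zz_apply]
  exact M.add_mem (h _ (h x hx).2).1 (h _ (h x hx).1).2

theorem alt {J J' : V →ₗ[F] V} {d : F} (hJ : ∀ x, J (J x) = d • x) (hJ' : ∀ x, J' (J' x) = d • x)
    {M : Submodule F V} (hM : MinInv J J' M) (f : F[X]) :
    (∀ x ∈ M, aeval (zz J J') f x = 0) ∨ (∀ x ∈ M, aeval (zz J J') f x = 0 → x = 0) := by
  rcases hM.min (M ⊓ LinearMap.ker (aeval (zz J J') f)) inf_le_left (by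
    intro x hx
    obtain ⟨h1, h2⟩ := hx
    have h3 : aeval (zz J J') f x = 0 := h2
    refine ⟨⟨(hM.inv x h1).1, ?_⟩, ⟨(hM.inv x h1).2, ?_⟩⟩
    · change aeval (zz J J') f (J x) = 0
      rw [← comm_aeval (comm_z hJ), h3, map_zero]
    · change aeval (zz J J') f (J' x) = 0
      rw [← comm_aeval (comm_z' hJ'), h3, map_zero]) with h | h
  · right
    intro x hx h0
    have h1 : x ∈ M ⊓ LinearMap.ker (aeval (zz J J') f) := ⟨hx, h0⟩
    rw [h] at h1
    exact h1
  · left
    intro x hx
    have h1 : x ∈ M ⊓ LinearMap.ker (aeval (zz J J') f) := by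
      rw [h]
      exact hx
    exact h1.2

/-- the polynomials which annihilate `M` -/
def I (z : V →ₗ[F] V) (M : Submodule F V) : Ideal F[X] where
  carrier := {f | ∀ x ∈ M, aeval z f x = 0}
  add_mem' {f g} hf hg x hx := by
    rw [map_add, LinearMap.add_apply, hf x hx, hg x hx, add_zero]
  zero_mem' x _ := by
    rw [map_zero, LinearMap.zero_apply]
  smul_mem' c f hf x hx := by
    rw [smul_eq_mul, mul_app, hf x hx, map_zero]

theorem mem_I (z : V →ₗ[F] V) (M : Submodule F V) (f : F[X]) :
    f ∈ I z M ↔ ∀ x ∈ M, aeval z f x = 0 := Iff.rfl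

theorem I_prime {J J' : V →ₗ[F] V} {d : F} (hJ : ∀ x, J (J x) = d • x)
    (hJ' : ∀ x, J' (J' x) = d • x) {M : Submodule F V} (hM : MinInv J J' M) :
    (I (zz J J') M).IsPrime := by
  obtain ⟨x0, hx0, hne⟩ := (Submodule.ne_bot_iff M).1 hM.ne
  refine ⟨?_, ?_⟩
  · intro h
    have h1 : (1 : F[X]) ∈ I (zz J J') M := by
      rw [h]
      exact Submodule.mem_top
    have h2 := h1 x0 hx0
    rw [map_one] at h2
    exact hne h2
  · intro f g hfg
    rcases alt hJ hJ' hM g with h | h
    · exact Or.inr h
    · left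
      intro x hx
      apply h _ (mem_aeval (z_mem hM.inv) f x hx)
      rw [← mul_app, mul_comm]
      exact hfg x hx

theorem I_finite [Finite F] [FiniteDimensional F V] (z : V →ₗ[F] V) (M : Submodule F V) :
    Finite (F[X] ⧸ I z M) := by
  have hV : Finite V := Module.finite_of_finite F
  apply Finite.of_injective (fun q : F[X] ⧸ I z M => fun x : M => aeval z (Quotient.out q) (x : V))
  intro q q' h
  have h1 : Quotient.out q - Quotient.out q' ∈ I z M := by
    intro x hx
    have h2 : aeval z (Quotient.out q) x = aeval z (Quotient.out q') x := congrFun h ⟨x, hx⟩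
    rw [map_sub, LinearMap.sub_apply, h2, sub_self]
  have h3 := (Ideal.Quotient.eq).2 h1
  have h4 : ∀ p : F[X] ⧸ I z M, Ideal.Quotient.mk (I z M) (Quotient.out p) = p :=
    fun p => Quotient.out_eq p
  rw [h4, h4] at h3
  exact h3

theorem exists_ab [Finite F] [FiniteDimensional F V] (h2 : (2 : F) ≠ 0) {J J' : V →ₗ[F] V} {d : F}
    (hd : ∀ μ : F, μ * μ ≠ d) (hJ : ∀ x, J (J x) = d • x)
    (hJ' : ∀ x, J' (J' x) = d • x) {M : Submodule F V} (hM : MinInv J J' M) :
    ∃ α β : F[X], α * α - C d * (β * β) + X * β - C d ∈ I (zz J J') M := by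
  classical
  have hp := I_prime hJ hJ' hM
  have hf := I_finite (zz J J') M
  have : Fintype (F[X] ⧸ I (zz J J') M) := Fintype.ofFinite _
  obtain ⟨x0, hx0, hne⟩ := (Submodule.ne_bot_iff M).1 hM.ne
  have hC : ∀ c : F, c ≠ 0 → (C c : F[X]) ∉ I (zz J J') M := by
    intro c hc h
    have h1 := h x0 hx0
    rw [C_app] at h1
    exact hne ((smul_eq_zero.1 h1).resolve_left hc)
  have hd0 : d ≠ 0 := fun h => hd 0 (by rw [h, mul_zero])
  have hodd : Fintype.card (F[X] ⧸ I (zz J J') M) % 2 = 1 := by
    by_contra hev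
    have hdvd : 2 ∣ Fintype.card (F[X] ⧸ I (zz J J') M) := by omega
    have : Fact (Nat.Prime 2) := ⟨Nat.prime_two⟩
    obtain ⟨x, hx⟩ := exists_prime_addOrderOf_dvd_card 2 hdvd
    have hx2 : (2 : ℕ) • x = 0 := by
      rw [← hx]
      exact addOrderOf_nsmul_eq_zero x
    have hx0 : x ≠ 0 := by
      rintro rfl
      rw [addOrderOf_zero] at hx
      omega
    have h3 : Ideal.Quotient.mk (I (zz J J') M) (C 2) * x = 0 := by
      have : (C 2 : F[X]) = 2 := by
        rw [map_ofNat]
      rw [this, map_ofNat, ← hx2, nsmul_eq_mul]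
      rfl
    rcases mul_eq_zero.1 h3 with h4 | h4
    · exact hC 2 h2 (Ideal.Quotient.eq_zero_iff_mem.1 h4)
    · exact hx0 h4
  set mk := Ideal.Quotient.mk (I (zz J J') M) with hmk
  have hdm : mk (C d) ≠ 0 := fun h => hC d hd0 (Ideal.Quotient.eq_zero_iff_mem.1 h)
  obtain ⟨a, b, hab⟩ := FiniteField.exists_root_sum_quadratic
    (f := (C 1 * X ^ 2 + C 0 * X + C 0 : (F[X] ⧸ I (zz J J') M)[X]))
    (g := (C (- mk (C d)) * X ^ 2 + C (mk X) * X + C (- mk (C d)) : (F[X] ⧸ I (zz J J') M)[X]))
    (degree_quadratic one_ne_zero) (degree_quadratic (neg_ne_zero.2 hdm)) hodd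
  obtain ⟨α, hα⟩ := Ideal.Quotient.mk_surjective a
  obtain ⟨β, hβ⟩ := Ideal.Quotient.mk_surjective b
  refine ⟨α, β, ?_⟩
  rw [← Ideal.Quotient.eq_zero_iff_mem]
  simp only [eval_add, eval_mul, eval_C, eval_pow, eval_X] at hab
  rw [map_sub, map_add, map_sub, map_mul, map_mul, map_mul, map_mul, hα, hβ]
  linear_combination hab

theorem exists_e [Finite F] [FiniteDimensional F V] (h2 : (2 : F) ≠ 0) {J J' : V →ₗ[F] V} {d : F}
    (hd : ∀ μ : F, μ * μ ≠ d) (hJ : ∀ x, J (J x) = d • x)
    (hJ' : ∀ x, J' (J' x) = d • x) {M : Submodule F V} (hM : MinInv J J' M) :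
    ∃ (e : V) (α β : F[X]), e ∈ M ∧ e ≠ 0 ∧
      J' e = aeval (zz J J') α e + aeval (zz J J') β (J e) := by
  obtain ⟨α, β, hab⟩ := exists_ab h2 hd hJ hJ' hM
  obtain ⟨x0, hx0, hne⟩ := (Submodule.ne_bot_iff M).1 hM.ne
  set z := zz J J' with hz
  have cJ : ∀ (f : F[X]) x, J (aeval z f x) = aeval z f (J x) := comm_aeval (comm_z hJ)
  have cJ' : ∀ (f : F[X]) x, J' (aeval z f x) = aeval z f (J' x) := comm_aeval (comm_z' hJ')
  have key : ∀ x ∈ M, aeval z α (aeval z α x) = d • aeval z β (aeval z β x) - aeval z β (z x) + d • x := by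
    intro x hx
    have h := hab x hx
    rw [map_sub, map_add, map_sub, LinearMap.sub_apply, LinearMap.add_apply, LinearMap.sub_apply,
      mul_app, mul_app, mul_app, mul_app, C_app, C_app, X_app] at h
    have h' : z (aeval z β x) = aeval z β (z x) := comm_aeval (fun _ => rfl) β x
    rw [h'] at h
    rw [sub_eq_zero] at h
    rw [← h]
    abel
  have hDD : ∀ x ∈ M, J' (J' x - aeval z β (J x) + aeval z α x) -
      aeval z β (J (J' x - aeval z β (J x) + aeval z α x)) -
      aeval z α (J' x - aeval z β (J x) + aeval z α x) = 0 := by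
    intro x hx
    have k := key x hx
    simp only [map_add, map_sub, cJ, cJ', hJ, hJ', map_smul]
    rw [k]
    have hzx : aeval z β (z x) = aeval z β (J (J' x)) + aeval z β (J' (J x)) := by
      rw [hz, zz_apply, map_add]
    rw [hzx]
    have hc : aeval z α (aeval z β (J x)) = aeval z β (aeval z α (J x)) := by
      rw [← mul_app, ← mul_app, mul_comm]
    rw [hc]
    abel
  by_cases hex : ∃ x ∈ M, J' x - aeval z β (J x) + aeval z α x ≠ 0
  · obtain ⟨x, hx, hxne⟩ := hex
    refine ⟨_, α, β, ?_, hxne, ?_⟩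
    · exact M.add_mem (M.sub_mem (hM.inv x hx).2 (mem_aeval (z_mem hM.inv) β _ (hM.inv x hx).1))
        (mem_aeval (z_mem hM.inv) α x hx)
    · have h := hDD x hx
      rw [sub_sub, sub_eq_zero] at h
      rw [h, add_comm]
  · push Not at hex
    refine ⟨x0, -α, β, hx0, hne, ?_⟩
    have h := hex x0 hx0
    rw [map_neg, LinearMap.neg_apply]
    have h3 : J' x0 = (J' x0 - aeval z β (J x0) + aeval z α x0) + (-(aeval z α x0) + aeval z β (J x0)) := by
      abel
    rw [h3, h, zero_add]

end STRUCT

open STRUCT in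
theorem h_STRUCT : S_STRUCT := by
  intro F V _ _ _ _ _ h2 d hd J J' hJ hJ' M hM
  classical
  obtain ⟨e, α, β, heM, hne, hJe⟩ := exists_e h2 hd hJ hJ' hM
  refine ⟨e, α, β, ?_⟩
  have hp := I_prime hJ hJ' hM
  have hf := I_finite (zz J J') M
  set z := zz J J' with hz
  have cJ : ∀ (f : F[X]) x, J (aeval z f x) = aeval z f (J x) := comm_aeval (comm_z hJ)
  have cJ' : ∀ (f : F[X]) x, J' (aeval z f x) = aeval z f (J' x) := comm_aeval (comm_z' hJ')
  have hmem : ∀ (f : F[X]) x, x ∈ M → aeval z f x ∈ M := fun f x hx =>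
    mem_aeval (z_mem hM.inv) f x hx
  -- (7)
  have p7 : ∀ f : F[X], aeval z f e = 0 → ∀ x ∈ M, aeval z f x = 0 := by
    intro f hfe
    rcases alt hJ hJ' hM f with h | h
    · exact h
    · exact absurd (h e heM hfe) hne
  -- inverse
  have pinv : ∀ f : F[X], aeval z f e ≠ 0 → ∃ g : F[X], ∀ x ∈ M, aeval z (g * f) x = x := by
    intro f hfe
    have hfield := Finite.isField_of_domain (F[X] ⧸ I z M)
    have hfn : Ideal.Quotient.mk (I z M) f ≠ 0 := by
      intro h
      exact hfe ((Ideal.Quotient.eq_zero_iff_mem.1 h) e heM)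
    obtain ⟨b, hb⟩ := hfield.mul_inv_cancel hfn
    obtain ⟨g, hg⟩ := Ideal.Quotient.mk_surjective b
    refine ⟨g, fun x hx => ?_⟩
    rw [← hg, ← map_mul, ← map_one (Ideal.Quotient.mk (I z M)), Ideal.Quotient.eq] at hb
    have h := hb x hx
    rw [map_sub, LinearMap.sub_apply, map_one, mul_comm] at h
    exact sub_eq_zero.1 h
  -- (4)
  have hJJe : J' (J e) = aeval z (X - C d * β) e + aeval z (-α) (J e) := by
    have h3 : z e = J (J' e) + J' (J e) := rfl
    have h4 : J' (J e) = z e - J (J' e) := by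
      rw [h3]
      abel
    rw [h4, hJe, map_add, cJ, cJ, hJ, map_sub, LinearMap.sub_apply, mul_app, C_app, X_app, map_neg,
      LinearMap.neg_apply, map_smul]
    abel
  have p4 : ∀ x ∈ M, ∃ f g : F[X], x = aeval z f e + aeval z g (J e) := by
    let U : Submodule F V :=
      { carrier := {x | ∃ f g : F[X], x = aeval z f e + aeval z g (J e)}
        add_mem' := by
          rintro x y ⟨f, g, rfl⟩ ⟨f', g', rfl⟩
          refine ⟨f + f', g + g', ?_⟩
          rw [map_add, map_add, LinearMap.add_apply, LinearMap.add_apply]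
          abel
        zero_mem' := ⟨0, 0, by rw [map_zero, LinearMap.zero_apply, LinearMap.zero_apply, add_zero]⟩
        smul_mem' := by
          rintro c x ⟨f, g, rfl⟩
          refine ⟨C c * f, C c * g, ?_⟩
          rw [mul_app, mul_app, C_app, C_app, smul_add] }
    have hU : U = ⊥ ∨ U = M := by
      apply hM.min
      · rintro x ⟨f, g, rfl⟩
        exact M.add_mem (hmem f e heM) (hmem g _ (hM.inv e heM).1)
      · rintro x ⟨f, g, rfl⟩
        constructor
        · refine ⟨C d * g, f, ?_⟩
          rw [map_add, cJ, cJ, hJ, mul_app, C_app, map_smul]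
          abel
        · refine ⟨f * α + g * (X - C d * β), f * β + g * (-α), ?_⟩
          have a1 : aeval z (f * α + g * (X - C d * β)) e =
              aeval z f (aeval z α e) + aeval z g (aeval z (X - C d * β) e) := by
            rw [map_add, LinearMap.add_apply, mul_app, mul_app]
          have a2 : aeval z (f * β + g * (-α)) (J e) =
              aeval z f (aeval z β (J e)) + aeval z g (aeval z (-α) (J e)) := by
            rw [map_add, LinearMap.add_apply, mul_app, mul_app]
          rw [map_add, cJ', cJ', hJJe, hJe, a1, a2, map_add, map_add]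
          abel
    rcases hU with h | h
    · exfalso
      have he : e ∈ U := ⟨1, 0, by
        rw [map_one, map_zero, LinearMap.zero_apply, add_zero]
        rfl⟩
      rw [h] at he
      exact hne he
    · intro x hx
      rw [← h] at hx
      exact hx
  refine ⟨heM, hne, hJe, p4, ?_, ?_, p7⟩
  · -- (5)
    intro f g hfg
    have hg : aeval z g e = 0 := by
      by_contra hge
      obtain ⟨k, hk⟩ := pinv g hge
      have hJeM := (hM.inv e heM).1
      -- J e = γ e
      have hγ : J e = aeval z (-(k * f)) e := by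
        have h3 : aeval z k (aeval z f e + aeval z g (J e)) = 0 := by
          rw [hfg, map_zero]
        rw [map_add, ← mul_app, ← mul_app, hk _ hJeM] at h3
        rw [map_neg, LinearMap.neg_apply]
        exact eq_neg_of_add_eq_zero_right h3
      set γ : F[X] := -(k * f) with hγd
      have hJγ : ∀ x ∈ M, J x = aeval z γ x := by
        intro x hx
        obtain ⟨f', g', rfl⟩ := p4 x hx
        rw [map_add, cJ, cJ, hγ, cJ, hγ, map_add, ← mul_app, ← mul_app, ← mul_app, ← mul_app,
          ← mul_app, ← mul_app]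
        have e1 : f' * γ = γ * f' := mul_comm _ _
        have e2 : g' * γ * γ = γ * g' * γ := by ring
        rw [e1, e2]
      have hcomm : ∀ x ∈ M, J' (J x) = J (J' x) := by
        intro x hx
        rw [hJγ x hx, hJγ (J' x) (hM.inv x hx).2, cJ']
      have hzz : ∀ x ∈ M, z x = (2 : F) • J (J' x) := by
        intro x hx
        rw [hz, zz_apply, hcomm x hx, two_smul]
      have hz2 : ∀ x ∈ M, z (z x) = (2 : F) • (2 : F) • d • d • x := by
        intro x hx
        have h3 := (hM.inv x hx).2
        have h4 : J (J' x) ∈ M := (hM.inv _ h3).1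
        rw [hzz x hx, map_smul, hzz _ h4, hcomm _ h3, hJ', map_smul, map_smul, hJ]
      have hfac : (X - C (2 * d)) * (X + C (2 * d)) ∈ I z M := by
        intro x hx
        rw [mul_app, map_sub, LinearMap.sub_apply, X_app, C_app, map_add, LinearMap.add_apply, X_app,
          C_app, map_add, hz2 x hx, map_smul, smul_add]
        have : (2 : F) • (2 : F) • d • d • x = (2 * d) • (2 * d) • x := by
          simp only [smul_smul]
          congr 1
          ring
        rw [this]
        abel
      have hfin : ∀ μ : F, (∀ x ∈ M, z x = μ • x) → False := by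
        intro μ hμ
        have hev : Module.End.HasEigenvector z μ e :=
          ⟨Module.End.mem_eigenspace_iff.2 (hμ e heM), hne⟩
        have h5 := Module.End.aeval_apply_of_hasEigenvector (p := γ) hev
        rw [← hγ] at h5
        have h6 := hJ e
        rw [h5, map_smul, h5, smul_smul] at h6
        have h7 : (γ.eval μ * γ.eval μ - d) • e = 0 := by
          rw [sub_smul, h6, sub_self]
        rcases smul_eq_zero.1 h7 with h8 | h8
        · exact hd _ (sub_eq_zero.1 h8)
        · exact hne h8
      rcases hp.mem_or_mem hfac with h5 | h5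
      · apply hfin (2 * d)
        intro x hx
        have h6 := h5 x hx
        rw [map_sub, LinearMap.sub_apply, X_app, C_app] at h6
        exact sub_eq_zero.1 h6
      · apply hfin (-(2 * d))
        intro x hx
        have h6 := h5 x hx
        rw [map_add, LinearMap.add_apply, X_app, C_app] at h6
        rw [neg_smul]
        exact eq_neg_of_add_eq_zero_left h6
    refine ⟨?_, hg⟩
    have h3 : aeval z g (J e) = 0 := by
      rw [← cJ, hg, map_zero]
    rw [h3, add_zero] at hfg
    exact hfg
  · intro f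
    by_cases hfe : aeval z f e = 0
    · exact Or.inl hfe
    · obtain ⟨g, hg⟩ := pinv f hfe
      exact Or.inr ⟨g, hg e heM⟩

end Pool.Agent.H330.PT
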