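import Pool.Agent.H330.PT.Defs

/-!
# Specification of the lemmas (odd characteristic)

`F` is a field with `2 ≠ 0`, `B` symmetric nondegenerate, `E(a,b) = sieg B a b`, `z = zz J J' = JJ' + J'J`.
-/

namespace Pool.Agent.H330.PT

open Module Polynomial

/-- EVEN (proved already for an arbitrary field: may be used as a hypothesis).  The rank of an alternating bilinear form is
even. -/
def S_EVEN : Prop := ∀ (F X : Type) [Field F] [AddCommGroup X] [Module F X] [FiniteDimensional F X]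
  (β : X →ₗ[F] X →ₗ[F] F), (∀ x, β x x = 0) → Even (finrank F (LinearMap.range β))

/-- PERP.  Dimension of the orthogonal space, double orthogonal, and complement if `W ∩ W^⊥ = 0`.
(Mathlib: `LinearMap.BilinForm.finrank_add_finrank_orthogonal`, or directly: `V → (W → F)` is onto with kernel `perp`.) -/
def S_PERP : Prop := ∀ (F V : Type) [Field F] [AddCommGroup V] [Module F V] [FiniteDimensional F V]
  (B : V →ₗ[F] V →ₗ[F] F), IsForm B → ∀ W : Submodule F V,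
  finrank F W + finrank F (perp B W) = finrank F V ∧ perp B (perp B W) = W ∧
  (W ⊓ perp B W = ⊥ → IsCompl W (perp B W))

/-- ISOT.  A subspace of dimension `≥ 3` contains a nonzero singular vector (`F` finite).  Proof: otherwise every nonzero
vector `x` of `X` has `B(x,x) ≠ 0`; choose `x₁, x₂, x₃ ∈ X` nonzero and pairwise orthogonal (`x₂ ∈ X ∩ x₁^⊥`, dimension `≥ 2`,
`x₃ ∈ X ∩ x₁^⊥ ∩ x₂^⊥`, dimension `≥ 1`), `aᵢ = B(xᵢ,xᵢ)`; `a₁u² + a₂v² + a₃ = 0` has a solution by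
`FiniteField.exists_root_sum_quadratic`, and `u x₁ + v x₂ + x₃` is singular and nonzero.  (Or Chevalley-Warning.) -/
def S_ISOT : Prop := ∀ (F V : Type) [Field F] [Finite F] [AddCommGroup V] [Module F V]
  [FiniteDimensional F V], (2 : F) ≠ 0 → ∀ (B : V →ₗ[F] V →ₗ[F] F), (∀ x y, B x y = B y x) →
  ∀ X : Submodule F V, 3 ≤ finrank F X → ∃ a ∈ X, a ≠ 0 ∧ B a a = 0

/-- SIEG.  Siegel transformations lie in `Ω` if `dim V ≥ 3`.  Proof: `E(a,b)` is an isometry with inverse `E(a,-b)` and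
`E(a,b)E(a,b') = E(a,b+b')` (`b, b' ∈ a^⊥`) by expansion; `h E(a,b) h⁻¹ = E(ha,hb)` for isometries `h`.  If `B(b,b) ≠ 0` let `r` be
the reflection in `b`: `r a = a`, `r b = -b`, so `[E(a,b/2), r] = E(a,b/2) E(a,-b/2)⁻¹ = E(a,b)` is in `Ω`.  If `B(b,b) = 0`: `a^⊥` has
dimension `≥ dim V - 1` and is not totally isotropic (a totally isotropic subspace has dimension `≤ dim V / 2`, and
`dim V ≥ 3`), take `n ∈ a^⊥` with `B(n,n) ≠ 0`; for one of the signs `t = ±1` the vector `b + t n` is nonsingular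
(`B(b±n,b±n) = ±2B(b,n) + B(n,n)`, not both zero), and `E(a,b) = E(a,b+tn) E(a,-tn)`. -/
def S_SIEG : Prop := ∀ (F V : Type) [Field F] [AddCommGroup V] [Module F V]
  [FiniteDimensional F V], (2 : F) ≠ 0 → ∀ (B : V →ₗ[F] V →ₗ[F] F), IsForm B → 3 ≤ finrank F V →
  ∀ a b, B a a = 0 → B a b = 0 →
  ∃ g : V ≃ₗ[F] V, g ∈ Orth B ∧ g ∈ Om B ∧ (∀ v, g v = sieg B a b v)

/-- NIL.  `1 + X ∈ Ω` for a skew `X` with `X² = 0`.  Proof: induction on the rank of `X`.  `X = 0`: `g = 1`.  Otherwise choose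
`x, y` with `c = B(Xx,y) ≠ 0`, `u = Xx`, `v = Xy`.  The image of `X` is totally isotropic (`B(Xx,Xy) = -B(x,X²y) = 0`).  Let
`N(w) = B(w,u)v - B(w,v)u` (so `w + c⁻¹N(w) = E(u, c⁻¹v)(w)`), `X' = X - c⁻¹N`.  `X'` is skew, `X'² = 0` (`X` and `N` kill `im X`), it kills
`ker X` (`B(w,Xx) = -B(Xw,x)`) and `x ∉ ker X` (`N x = B(x,Xx)v - B(x,Xy)u = 0 + B(Xx,y)u = cu`), so its rank is smaller;
`1 + X = (1+X')∘E(u,c⁻¹v)` as `X'N = 0`.  `B(Xx,x) = 0` since `2 ≠ 0`. -/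
def S_NIL : Prop := ∀ (F V : Type) [Field F] [AddCommGroup V] [Module F V]
  [FiniteDimensional F V], (2 : F) ≠ 0 → ∀ (B : V →ₗ[F] V →ₗ[F] F), IsForm B → 3 ≤ finrank F V →
  ∀ X : V →ₗ[F] V, (∀ x y, B (X x) y = - B x (X y)) → (∀ x, X (X x) = 0) →
  ∃ g ∈ Om B, ∀ v, g v = v + X v

/-- the structure of a minimal invariant subspace: `e, Je` is a basis of `M` over the field `F[z]` -/
def Struct {F V : Type} [Field F] [AddCommGroup V] [Module F V] (J J' : V →ₗ[F] V)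
    (M : Submodule F V) (e : V) (α β : F[X]) : Prop :=
  e ∈ M ∧ e ≠ 0 ∧ J' e = aeval (zz J J') α e + aeval (zz J J') β (J e) ∧
  (∀ x ∈ M, ∃ f g : F[X], x = aeval (zz J J') f e + aeval (zz J J') g (J e)) ∧
  (∀ f g : F[X], aeval (zz J J') f e + aeval (zz J J') g (J e) = 0 →
    aeval (zz J J') f e = 0 ∧ aeval (zz J J') g e = 0) ∧
  (∀ f : F[X], aeval (zz J J') f e = 0 ∨ ∃ g : F[X], aeval (zz J J') (g * f) e = e) ∧
  (∀ f : F[X], aeval (zz J J') f e = 0 → ∀ x ∈ M, aeval (zz J J') f x = 0)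

/-- STRUCT.  `d` is not a square in the finite field `F`, `J² = J'² = d`, `M` minimal invariant.  `z` commutes with `J`, `J'`
(`Jz = dJ' + JJ'J = zJ`).  `M` is `z`-invariant; for every polynomial `f` the kernel and the image of `f(z)` on `M` are invariant, so
`f(z)|M` is `0` or bijective; hence `E = F[z|M]` is a finite field (`E ≅ F[X]/(p)`, `p` = minimal polynomial of `z|M`, irreducible).
There are `α, β ∈ E` with `α² = dβ² - zβ + d` (`FiniteField.exists_root_sum_quadratic` over `E` for `X²` and `-dX²+zX-d`; `d ≠ 0`).  As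
`(J'-βJ)² = d + β²d - βz = α²` on `M`, `(J'-βJ-α)(J'-βJ+α) = 0` on `M`, so one of the factors kills some `0 ≠ e ∈ M`: after changing
the sign of `α`, `J'e = αe + βJe`.  `U = Ee + EJe` is invariant: `J'Je = ze - JJ'e = (z-βd)e - αJe`.  So `U = M`.
Independence: if `f e + g Je = 0` with `g ≠ 0` in `E` then `Je = γe`, `γ ∈ E`, `γ²=d`, `M = Ee`, `J = γ` on `M` commutes with `J'`,
`z = 2γJ'` on `M`, so `z² = 4γ²J'² = 4d²` on `M`, `(z-2d)(z+2d) = 0`, `z = ±2d` on `M`, `E = F`, and `γ ∈ F` has `γ² = d`: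
contradiction.  So `g = 0` and then `f e = 0`. -/
def S_STRUCT : Prop := ∀ (F V : Type) [Field F] [Finite F] [AddCommGroup V] [Module F V]
  [FiniteDimensional F V], (2 : F) ≠ 0 → ∀ d : F, (∀ μ : F, μ * μ ≠ d) → ∀ J J' : V →ₗ[F] V,
  (∀ x, J (J x) = d • x) → (∀ x, J' (J' x) = d • x) → ∀ M : Submodule F V, MinInv J J' M →
  ∃ (e : V) (α β : F[X]), Struct J J' M e α β

/-- DEG.  A minimal invariant subspace which is not totally isotropic: `J' = ±J` on it.  Proof: take `e, α, β` from STRUCT;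
`E = F[z|M]` is a field; polynomials in `z` are self-adjoint (`z* = (JJ')* + (J'J)* = J'J + JJ' = z`).  Put `h(f) = B(f(z)e,e)`.
`B(f(z)Je, g(z)e) = B(Jk(z)e,e)`, `k=fg`, `= -B(k(z)e,Je) = -B(e,k(z)Je)`, so it is `0` (`2 ≠ 0`, `B` symmetric); likewise
`B(f(z)J'e, e) = 0`.  So `h(fα) = B(f(z)J'e,e) - B(f(z)β(z)Je,e) = 0` for all `f`; if `α ≠ 0` in `E`, `h = 0` and then `B = 0` on `M`
(`B(f e, g e) = h(fg)`, `B(f Je, g Je) = -d h(fg)`, `B(f Je, g e) = 0`), excluded.  So `α = 0`: `J'e = βJe`, `J'Je = (z-dβ)e`.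
`B(f J'e, Je) = -B(f e, J'Je)`: `-d h(fβ) = -h(f(z-dβ))` for all `f`, so `z - 2dβ = 0` in `E` (as `h ≠ 0` and `E` is a field:
`h(fw) = 0` for all `f` gives `w = 0`).  `J'²e = J'(βJe) = β(z-dβ)e = dβ²e = de`, so `β² = 1`, `β = ±1` in `E`, `J'e = ±Je`,
`J'Je = dβe = ±J(Je)`, and so `J' = ±J` on `M = Ee + EJe` (`J`, `J'` commute with `z`). -/
def S_DEG : Prop := ∀ (F V : Type) [Field F] [Finite F] [AddCommGroup V] [Module F V]
  [FiniteDimensional F V], (2 : F) ≠ 0 → ∀ (B : V →ₗ[F] V →ₗ[F] F), (∀ x y, B x y = B y x) →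
  ∀ d : F, (∀ μ : F, μ * μ ≠ d) → ∀ J J' : V →ₗ[F] V, IsJ B d J → IsJ B d J' →
  ∀ (M : Submodule F V) (e : V) (α β : F[X]), MinInv J J' M → Struct J J' M e α β →
  (∃ x ∈ M, ∃ y ∈ M, B x y ≠ 0) → (∀ x ∈ M, J' x = J x) ∨ (∀ x ∈ M, J' x = - J x)

/-- BETA.  On a minimal invariant `M` there is a nondegenerate alternating form for which `J` and `J'` are skew.  Proof: with
`E = F[z|M]` (a field: use `Struct`) `M` has the `E`-basis `e, Je`; `β(x,y) = l(det_E(x,y))` for a nonzero `F`-linear `l : E → F`.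
Without fields: for `x = f e + g Je`, `y = f'e + g'Je` (`f,g,f',g' ∈ F[X]` evaluated at `z`) put
`β(x,y) = l((fg' - gf')(z) e)` with `l : V → F` linear, `l(e) ≠ 0`; well defined because `f e + g Je` determines `f e` and `g e`, and
`f e = 0` implies that `f(z)` kills `M`.  Alternating: clear.  Nondegenerate: if `f e ≠ 0` or `g e ≠ 0` choose `f', g'` with
`(fg' - gf')(z)e = e` (last clause of `Struct`).  `J`: `Jx = f Je + d g e`, so `β(Jx,y) = l((d g g' - f f')e)` and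
`β(x,Jy) = l((f f' - d g g')e)`.  `J'`: `J'e = αe + βJe`, `J'Je = (z-dβ)e - αJe` is traceless as well:
`J'x = (fα + g(z-dβ))e + (fβ - gα)Je`, `β(J'x,y) = (fα+g(z-dβ))g' - (fβ-gα)f'` is symmetric in `(f,g) ↔ (f',g')`,
and `β(x,J'y) = -β(J'y,x)`. -/
def S_BETA : Prop := ∀ (F V : Type) [Field F] [AddCommGroup V] [Module F V]
  [FiniteDimensional F V], ∀ d : F, ∀ J J' : V →ₗ[F] V,
  (∀ x, J (J x) = d • x) → (∀ x, J' (J' x) = d • x) →
  ∀ (M : Submodule F V) (e : V) (α β : F[X]), MinInv J J' M → Struct J J' M e α β →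
  ∃ b : M →ₗ[F] M →ₗ[F] F, (∀ x, b x x = 0) ∧ (∀ x, (∀ y, b x y = 0) → x = 0) ∧
    (∀ x y x' y' : M, (x' : V) = J x → (y' : V) = J y → b x' y = - b x y') ∧
    (∀ x y x' y' : M, (x' : V) = J' x → (y' : V) = J' y → b x' y = - b x y')

/-- XX.  `M` totally isotropic and minimal invariant: there is a nonzero skew `X` with `X² = 0` commuting with `J` and `J'`.
Proof: let `b` be the form of BETA on `M`; define `X : V → M` by `b(Xy, m) = B(y,m)` for all `m ∈ M` (`b` is nondegenerate, `M` finite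
dimensional).  `b(XJy,m) = B(Jy,m) = -B(y,Jm) = -b(Xy,Jm) = b(JXy,m)`, so `XJ = JX`; same for `J'`.
`B(Xx,y) = B(y,Xx) = b(Xy,Xx) = -b(Xx,Xy) = -B(x,Xy)`: skew.  `X` vanishes on `M` (totally isotropic) and maps into `M`: `X² = 0`.
`X ≠ 0` since `M ≠ 0` and `B` is nondegenerate. -/
def S_XX : Prop := ∀ (F V : Type) [Field F] [Finite F] [AddCommGroup V] [Module F V]
  [FiniteDimensional F V], (2 : F) ≠ 0 → ∀ (B : V →ₗ[F] V →ₗ[F] F), IsForm B →
  ∀ d : F, (∀ μ : F, μ * μ ≠ d) → ∀ J J' : V →ₗ[F] V, IsJ B d J → IsJ B d J' →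
  ∀ M : Submodule F V, MinInv J J' M → (∀ x ∈ M, ∀ y ∈ M, B x y = 0) →
  ∃ X : V →ₗ[F] V, X ≠ 0 ∧ (∀ x y, B (X x) y = - B x (X y)) ∧ (∀ x, X (X x) = 0) ∧
    (∀ x, X (J x) = J (X x)) ∧ (∀ x, X (J' x) = J' (X x))

/-- ISO.  `dim V ≥ 6`: there is a totally isotropic minimal invariant subspace.  Proof: a nonzero invariant subspace contains a
minimal one, and a minimal one inside a totally isotropic one is totally isotropic.  Suppose there is none.  Let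
`V₊ = {v : J'v = Jv}`, `V₋ = {v : J'v = -Jv}`: invariant.  If `dim V₊ ≥ 3` it contains `v ≠ 0` with `B(v,v) = 0` (ISOT), and `⟨v,Jv⟩` is
invariant and totally isotropic (`B(v,Jv) = 0` as `J` is skew and `2 ≠ 0`, `B(Jv,Jv) = -dB(v,v) = 0`).  Same for `V₋`.  So
`dim V₊, dim V₋ ≤ 2` and `U = (V₊ + V₋)^⊥` has dimension `≥ 2` and is invariant; let `M ⊆ U` be minimal invariant.  If `M` is not totally isotropic,
`M ⊆ V₊` or `M ⊆ V₋` by STRUCT and DEG, so `M ⊆ U ∩ (V₊+V₋)` is totally isotropic after all. -/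
def S_ISO : Prop := ∀ (F V : Type) [Field F] [Finite F] [AddCommGroup V] [Module F V]
  [FiniteDimensional F V], (2 : F) ≠ 0 → ∀ (B : V →ₗ[F] V →ₗ[F] F), IsForm B → 6 ≤ finrank F V →
  ∀ d : F, (∀ μ : F, μ * μ ≠ d) → ∀ J J' : V →ₗ[F] V, IsJ B d J → IsJ B d J' →
  ∃ M : Submodule F V, MinInv J J' M ∧ (∀ x ∈ M, ∀ y ∈ M, B x y = 0)

/-- UNI.  For two skew square roots `J`, `J'` of `d` some nonscalar element of `Ω` commutes with both.  Proof: `c = 1 + X` (ISO, XX, NIL);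
not a scalar `l`: on `X v ≠ 0` it acts as `1`, so `l = 1`, but `X ≠ 0`. -/
def S_UNI : Prop := ∀ (F V : Type) [Field F] [Finite F] [AddCommGroup V] [Module F V]
  [FiniteDimensional F V], (2 : F) ≠ 0 → ∀ (B : V →ₗ[F] V →ₗ[F] F), IsForm B → 6 ≤ finrank F V →
  ∀ d : F, (∀ μ : F, μ * μ ≠ d) → ∀ J J' : V →ₗ[F] V, IsJ B d J → IsJ B d J' →
  ∃ c ∈ Om B, NonScal c ∧ (∀ x, c (J x) = J (c x)) ∧ (∀ x, c (J' x) = J' (c x))

/-- NH.  If an isometry `s` is irreducible on `V` (`dim V = 2k`, `k ≥ 2`) then `V` is not of plus type.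
Proof.  `A = F[s] ⊆ End(V)`: commutative, closed under adjoint (`s* = s⁻¹ ∈ F[s]`), a field by Schur (the kernel of a nonzero `a ∈ A` is
`s`-invariant), `V = A w` for `w ≠ 0` and `a ↦ a w` is injective, so `|A| = q^{2k}`.  `*` is not the identity on `A` (else `s² = 1`,
`(s-1)(s+1) = 0`, `s = ±1`, `dim V = 1`), it is an involution, with fixed field `A₀`, `|A₀| = q^k`.
`C = {a/a* : a ∈ A^×}` is a group of order `(q^{2k}-1)/(q^k-1) = q^k+1`; `cc* = 1` so every `c ∈ C` is an isometry; `C` acts freely on the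
nonzero singular vectors (a nonidentity element of the field `A` minus 1 is injective).  If `L` is totally isotropic of dimension `k` then
`L = L^⊥` and the number of nonzero singular vectors is `q^k + (q^k-1)q^{k-1} - 1 = (q^k-1)(q^{k-1}+1)` (in a coset `w+L ≠ L`,
`B(w+l,w+l) = B(w,w)+2B(w,l)` vanishes for `|L|/q` elements).  So `q^k+1 ∣ (q^k-1)(q^{k-1}+1)`, hence `q^k+1 ∣ 2(q^{k-1}+1)`,
`q^k + 1 ≤ 2q^{k-1}+2`, impossible for `q ≥ 3`, `k ≥ 2`.
(The same statement for quadratic forms in characteristic 2 is proved in `Pool/Agent/H330/EvenQ/NH.lean` on origin/main: adapt it.) -/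
def S_NH : Prop := ∀ (F V : Type) [Field F] [Finite F] [AddCommGroup V] [Module F V]
  [FiniteDimensional F V], (2 : F) ≠ 0 → ∀ (B : V →ₗ[F] V →ₗ[F] F), IsForm B →
  ∀ k : ℕ, 2 ≤ k → finrank F V = 2 * k → ∀ s ∈ Orth B, IrredOn s ⊤ → ¬ IsPlus B

/-- JW.  `s` an isometry irreducible on `V`, `dim V = 2k`, `k` odd, `d` a nonsquare: there is a skew `J` with `J² = d` commuting with `s`.
Proof.  As in NH `A = F[s]` is a field with `q^{2k}` elements, `*` (adjoint) is an automorphism of order 2 (`dim V ≥ 2`), with fixed field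
`A₀`, `[A:A₀] = 2`, `[A₀:F] = k` odd.  `A` contains `δ` with `δ² = d` (`[A:F]` is even: e.g. `d^{(|A|-1)/2} = 1` since
`(|A|-1)/2` is a multiple of `q-1`; or Euler's criterion `FiniteField.isSquare_iff`).  `(δ*)² = d`, so `δ* = ±δ`.  If `δ* = δ` then
`F(δ) ⊆ A₀` has degree 2 over `F` and `2 ∣ k`: contradiction.  So `J = δ` is skew.
(Compare `Pool/Agent/H330/EvenQ/IRR.lean`, `NH.lean` on origin/main.) -/
def S_JW : Prop := ∀ (F V : Type) [Field F] [Finite F] [AddCommGroup V] [Module F V]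
  [FiniteDimensional F V], (2 : F) ≠ 0 → ∀ (B : V →ₗ[F] V →ₗ[F] F), IsForm B →
  ∀ k : ℕ, Odd k → finrank F V = 2 * k → ∀ s ∈ Orth B, IrredOn s ⊤ →
  ∀ d : F, (∀ μ : F, μ * μ ≠ d) → ∃ J : V →ₗ[F] V, IsJ B d J ∧ ∀ x, s (J x) = J (s x)

/-- JV.  Two blocks: `V = W ⊥ W^⊥`, `s` irreducible on both, both of dimension `2k`, `k` odd.  Proof: JW for `res B W` and the restriction of `s` to
`W`, and for `W^⊥`; `J = J₁ ⊕ J₂`. -/
def S_JV : Prop := ∀ (F V : Type) [Field F] [Finite F] [AddCommGroup V] [Module F V]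
  [FiniteDimensional F V], (2 : F) ≠ 0 → ∀ (B : V →ₗ[F] V →ₗ[F] F), IsForm B →
  ∀ k : ℕ, Odd k → ∀ s ∈ Orth B, ∀ W : Submodule F V, finrank F W = 2 * k →
  finrank F (perp B W) = 2 * k → W ⊓ perp B W = ⊥ → IrredOn s W → IrredOn s (perp B W) →
  ∀ d : F, (∀ μ : F, μ * μ ≠ d) → ∃ J : V →ₗ[F] V, IsJ B d J ∧ ∀ x, s (J x) = J (s x)

/-- EVO.  An isometry `s` irreducible on a nondegenerate `W`: `dim W` is 1 or even.  Proof: on `W` the form
`γ(x,y) = B(sx,y) - B(x,sy)` is alternating (`γ(x,x) = 0`), its kernel `{x ∈ W : B(sx,y) = B(x,sy) for all y ∈ W}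
= {x : sx = s⁻¹x}` is `s`-invariant, so `0` or `W`.  If `0`: `dim W` is even by EVEN.  If `W`: `s² = 1` on `W`, `ker (s-1) ∩ W` and
`ker (s+1) ∩ W` are invariant and `W` is their sum (`2 ≠ 0`), so `s = ±1` on `W`, every line is invariant, `dim W = 1` (or `0`, even). -/
def S_EVO : Prop := ∀ (F V : Type) [Field F] [AddCommGroup V] [Module F V]
  [FiniteDimensional F V], (2 : F) ≠ 0 → ∀ (B : V →ₗ[F] V →ₗ[F] F), IsForm B →
  ∀ s ∈ Orth B, ∀ W : Submodule F V, W ⊓ perp B W = ⊥ → IrredOn s W →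
  finrank F W = 1 ∨ Even (finrank F W)

/-- FIX.  `dim X ≥ 3`: a nonscalar `c ∈ Ω` acts trivially on `X^⊥`.  Proof: `a ∈ X` singular nonzero (ISOT), `b ∈ X ∩ a^⊥`, `b ∉ Fa`
(`dim X ∩ a^⊥ ≥ 2`), `c = E(a,b)` (SIEG).  Nonscalar: `c a = a` so the scalar would be `1`; but for `x` with `B(x,a) = 1`,
`cx - x = b - (...)a ≠ 0`. -/
def S_FIX : Prop := ∀ (F V : Type) [Field F] [Finite F] [AddCommGroup V] [Module F V]
  [FiniteDimensional F V], (2 : F) ≠ 0 → ∀ (B : V →ₗ[F] V →ₗ[F] F), IsForm B →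
  ∀ X : Submodule F V, 3 ≤ finrank F X →
  ∃ c ∈ Om B, NonScal c ∧ ∀ v ∈ perp B X, c v = v

/-- TS.  `W, W'` totally isotropic of the same dimension `≥ 2` (`dim V ≥ 3`): a nonscalar `c ∈ Ω` preserves both.  Proof: if
`0 ≠ a ∈ W ∩ W'`, take `b ∈ W \ Fa`, `c = E(a,b)`: for `x ∈ W`, `cx = x`; for `x ∈ W'`, `B(x,a) = 0` and
`cx = x - B(x,b)a ∈ W'`.  If `W ∩ W' = 0`: `0 ≠ a ∈ W`, `0 ≠ b ∈ W'` with `B(a,b) = 0` (`dim W' ≥ 2`), `c = E(a,b)`:
`x ∈ W`: `cx = x - B(x,b)a`; `x ∈ W'`: `cx = x + B(x,a)b` (`B(b,b) = 0`).  `a, b` independent, so `c` is not a scalar (it fixes `a`;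
if it were `1` then `B(x,a)b = B(x,b)a + (..)a` for all `x`). -/
def S_TS : Prop := ∀ (F V : Type) [Field F] [AddCommGroup V] [Module F V]
  [FiniteDimensional F V], (2 : F) ≠ 0 → ∀ (B : V →ₗ[F] V →ₗ[F] F), IsForm B → 3 ≤ finrank F V →
  ∀ W W' : Submodule F V, (∀ x ∈ W, ∀ y ∈ W, B x y = 0) → (∀ x ∈ W', ∀ y ∈ W', B x y = 0) →
  2 ≤ finrank F W → finrank F W' = finrank F W →
  ∃ c ∈ Om B, NonScal c ∧ (∀ x ∈ W, c x ∈ W) ∧ (∀ x ∈ W', c x ∈ W')

/-- PROPW.  `Ω` does not preserve a subspace `W ≠ 0` with `2 dim W ≤ dim V`, `dim V ≥ 8`.  Proof: suppose it does.  Let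
`0 ≠ x ∈ W`; there is a singular `a` with `B(x,a) ≠ 0`: take `y` with `B(x,y) = 1`; `P = ⟨x,y⟩^⊥` has dimension `≥ 6`, and contains two orthogonal
nonsingular vectors `p, r` (`P^⊥` has dimension `≤ 2`, so a subspace of `P` of dimension `≥ 6` is not totally isotropic modulo...: choose
`p ∈ P` nonsingular (a totally isotropic subspace has dimension `≤ dim V/2 < dim V - 2`), then `r ∈ P ∩ p^⊥` nonsingular (dimension
`≥ dim V - 3 > dim V/2`)); solve `B(p,p)u² + B(r,r)v² + B(y,y) = 0` (`FiniteField.exists_root_sum_quadratic`) and put `a = y + up + vr`.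
For every `b ∈ a^⊥`, `E(a,b)x - x = B(x,a)b - (...)a ∈ W`, so `a^⊥ ⊆ W + Fa`, `dim V - 1 ≤ dim V/2 + 1`, a contradiction. -/
def S_PROPW : Prop := ∀ (F V : Type) [Field F] [Finite F] [AddCommGroup V] [Module F V]
  [FiniteDimensional F V], (2 : F) ≠ 0 → ∀ (B : V →ₗ[F] V →ₗ[F] F), IsForm B → 8 ≤ finrank F V →
  ∀ W : Submodule F V, W ≠ ⊥ → 2 * finrank F W ≤ finrank F V → ∃ c ∈ Om B, ∃ x ∈ W, c x ∉ W

/-- PROPJ.  Some `c ∈ Ω` does not commute with `J` (skew, `J² = d` a nonsquare, `dim V ≥ 5`).  Proof: `a` singular nonzero (ISOT); `a, Ja`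
independent (`Ja = μa` gives `μ² = d`), `B(a,Ja) = 0`; `b ∈ a^⊥ \ ⟨a,Ja⟩` (`dim a^⊥ ≥ 4`), `c = E(a,b)`.  Choose `x` with `B(x,a) = 0`,
`B(x,b) = 1` (`a, b` independent): `cx = x - a`.  If `cJ = Jc` then `Jx - Ja = Jcx = cJx = Jx + B(Jx,a)b - (...)a`, so
`-Ja = B(Jx,a)b - (...)a`: either `Ja ∈ Fa` or `b ∈ ⟨a,Ja⟩`, a contradiction. -/
def S_PROPJ : Prop := ∀ (F V : Type) [Field F] [Finite F] [AddCommGroup V] [Module F V]
  [FiniteDimensional F V], (2 : F) ≠ 0 → ∀ (B : V →ₗ[F] V →ₗ[F] F), IsForm B → 5 ≤ finrank F V →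
  ∀ d : F, (∀ μ : F, μ * μ ≠ d) → ∀ J : V →ₗ[F] V, IsJ B d J → ∃ c ∈ Om B, ∃ x, c (J x) ≠ J (c x)

/-- TOP.  `dim V = 2m`, `m ≥ 6`, `m ≡ 2 mod 4`, `B` of plus type; every isometry `s` lies in a subgroup `H` of `GL(V)` containing the scalars
and not containing `Ω` such that for every isometry `g` some nonscalar `c ∈ Ω` lies in `H ∩ gHg⁻¹`.
Proof.  Let `W ≠ 0` be an `s`-invariant subspace of minimal dimension `k`: `IrredOn s W`; `sW = W`; `W^⊥ = perp B W` is invariant, so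
`W ∩ W^⊥ ∈ {0, W}`.
 (a) `W ∩ W^⊥ = W`: `W` is totally isotropic, `2k ≤ 2m`; `H = stab W`, proper by PROPW.
   `k ≥ 2`: TS with `W`, `gW` (`c ∈ stab W`, `g⁻¹cg ∈ stab W`: `c W ⊆ W` and `c gW ⊆ gW`, finite dimension gives `↔`).
   `k = 1`: FIX with `X = (W + gW)^⊥`, `dim X ≥ 2m-2 ≥ 3`, and `X^⊥ = W + gW` (PERP).
 (b) `W ∩ W^⊥ = 0`, `W ≠ V`: `dim W^⊥ = 2m-k ≥ k` by minimality.
   `k < m`: by EVO `k = 1` or `k` even, so `k ≤ m-2`; `X = (W+gW)^⊥` has dimension `≥ 2m-2k ≥ 4` (or `≥ 2m-2`): FIX; `H = stab W`; PROPW.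
   `k = m`: `W^⊥` has dimension `m = 2k'`, `k'` odd, and by minimality `s` is irreducible on `W^⊥`.  JV gives `J` (take `d` any nonsquare of `F`:
   `FiniteField.exists_nonsquare`).  `H = cent J`; proper by PROPJ.  For an isometry `g`, `J' = gJg⁻¹` satisfies `IsJ B d J'`; UNI gives `c`;
   `g⁻¹cg` commutes with `J`.
 (c) `W = V`: `s` is irreducible on `V`, contradiction to NH (plus type, `k = m ≥ 2`). -/
def S_TOP : Prop := ∀ (F V : Type) [Field F] [Finite F] [AddCommGroup V] [Module F V]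
  [FiniteDimensional F V], (2 : F) ≠ 0 → ∀ (B : V →ₗ[F] V →ₗ[F] F), IsForm B → IsPlus B →
  ∀ m : ℕ, 6 ≤ m → m % 4 = 2 → finrank F V = 2 * m → ∀ s ∈ Orth B,
  ∃ H : Subgroup (V ≃ₗ[F] V), s ∈ H ∧ (∀ h : V ≃ₗ[F] V, (∃ l : F, ∀ x, h x = l • x) → h ∈ H) ∧
    ¬ (Om B ≤ H) ∧ ∀ g ∈ Orth B, ∃ c ∈ Om B, NonScal c ∧ c ∈ H ∧ g⁻¹ * c * g ∈ H

end Pool.Agent.H330.PT
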