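import Pool.Agent.H330.PT.Spec

/-!
# TOP: the assembly of the case distinction
-/

set_option autoImplicit false
set_option linter.unusedSectionVars false

namespace Pool.Agent.H330.PT.TOP

open Module Polynomial Pool.Agent.H330.PT

section Basic

variable {F V : Type} [Field F] [AddCommGroup V] [Module F V]

lemma mem_stab [FiniteDimensional F V] {s : V ≃ₗ[F] V} {W : Submodule F V}
    (h : ∀ x ∈ W, s x ∈ W) : s ∈ stab W := by
  have h1 : W.map (s : V →ₗ[F] V) = W := by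
    apply Submodule.eq_of_le_of_finrank_le
    · rintro _ ⟨x, hx, rfl⟩
      exact h x hx
    · exact (LinearEquiv.finrank_map_eq s W).ge
  intro x
  constructor
  · intro hx
    rw [← h1] at hx
    obtain ⟨y, hy, hyx⟩ := hx
    have : y = x := s.injective hyx
    rwa [← this]
  · exact h x

lemma scal_stab [FiniteDimensional F V] (W : Submodule F V) (h : V ≃ₗ[F] V)
    (hl : ∃ l : F, ∀ x, h x = l • x) : h ∈ stab W := by
  obtain ⟨l, hl⟩ := hl
  apply mem_stab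
  intro x hx
  rw [hl]
  exact W.smul_mem l hx

lemma scal_cent (J : V →ₗ[F] V) (h : V ≃ₗ[F] V) (hl : ∃ l : F, ∀ x, h x = l • x) :
    h ∈ cent J := by
  obtain ⟨l, hl⟩ := hl
  intro x
  rw [hl, hl, map_smul]

lemma orth_apply {B : V →ₗ[F] V →ₗ[F] F} {g : V ≃ₗ[F] V} (hg : g ∈ Orth B) (x y : V) :
    B (g x) (g y) = B x y := hg x y

lemma orth_symm {B : V →ₗ[F] V →ₗ[F] F} {g : V ≃ₗ[F] V} (hg : g ∈ Orth B) (x y : V) :
    B (g x) y = B x (g.symm y) := by
  conv_lhs => rw [← g.apply_symm_apply y]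
  exact orth_apply hg _ _

lemma orth_symm' {B : V →ₗ[F] V →ₗ[F] F} {g : V ≃ₗ[F] V} (hg : g ∈ Orth B) (x y : V) :
    B x (g y) = B (g.symm x) y := by
  conv_lhs => rw [← g.apply_symm_apply x]
  exact orth_apply hg _ _

lemma perp_inv [FiniteDimensional F V] {B : V →ₗ[F] V →ₗ[F] F} {s : V ≃ₗ[F] V}
    (hs : s ∈ Orth B) {W : Submodule F V}
    (h : ∀ x ∈ W, s x ∈ W) : ∀ x ∈ perp B W, s x ∈ perp B W := by
  have h1 : s ∈ stab W := mem_stab h
  intro x hx y hy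
  rw [orth_symm' hs]
  apply hx
  have h2 : s (s.symm y) = y := s.apply_symm_apply y
  rw [← h1, h2]
  exact hy

/-- conjugate of `J` -/
def cj (g : V ≃ₗ[F] V) (J : V →ₗ[F] V) : V →ₗ[F] V :=
  (g : V →ₗ[F] V) ∘ₗ J ∘ₗ (g.symm : V →ₗ[F] V)

lemma cj_apply (g : V ≃ₗ[F] V) (J : V →ₗ[F] V) (x : V) : cj g J x = g (J (g.symm x)) := rfl

lemma cj_isJ {B : V →ₗ[F] V →ₗ[F] F} {d : F} {J : V →ₗ[F] V} (hJ : IsJ B d J) {g : V ≃ₗ[F] V}
    (hg : g ∈ Orth B) : IsJ B d (cj g J) := by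
  refine ⟨?_, ?_⟩
  · intro x
    rw [cj_apply, cj_apply, g.symm_apply_apply, hJ.sq, map_smul, g.apply_symm_apply]
  · intro x y
    rw [cj_apply, cj_apply, orth_symm hg, hJ.skew, orth_symm' hg]

lemma exists_nonsq [Finite F] (h2 : (2 : F) ≠ 0) : ∃ d : F, ∀ μ : F, μ * μ ≠ d := by
  have h : ringChar F ≠ 2 := by
    intro h
    apply h2
    have h3 := (ringChar.spec F 2).2 (by rw [h])
    exact_mod_cast h3
  obtain ⟨d, hd⟩ := FiniteField.exists_nonsquare (F := F) h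
  exact ⟨d, fun μ hμ => hd ⟨μ, hμ.symm⟩⟩

end Basic

section Cases

variable {F V : Type} [Field F] [Finite F] [AddCommGroup V] [Module F V]
  [FiniteDimensional F V]

/-- the case `H = stab W`, `W` small -/
lemma fix_case (hP : S_PERP) (hF : S_FIX) (hW : S_PROPW) (h2 : (2 : F) ≠ 0)
    {B : V →ₗ[F] V →ₗ[F] F} (hB : IsForm B)
    (h8 : 8 ≤ finrank F V) (W : Submodule F V) (hW0 : W ≠ ⊥)
    (hk : 2 * finrank F W + 3 ≤ finrank F V) :
    ¬ (Om B ≤ stab W) ∧
      ∀ g ∈ Orth B, ∃ c ∈ Om B, NonScal c ∧ c ∈ stab W ∧ g⁻¹ * c * g ∈ stab W := by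
  constructor
  · intro hcon
    obtain ⟨c, hc, x, hx, hcx⟩ := hW F V h2 B hB h8 W hW0 (by omega)
    exact hcx ((hcon hc x).2 hx)
  · intro g hg
    set W' := W.map (g : V →ₗ[F] V) with hW'
    have hf' : finrank F W' = finrank F W := LinearEquiv.finrank_map_eq g W
    set X := perp B (W ⊔ W') with hX
    have h1 : finrank F ↥(W ⊔ W') + finrank F X = finrank F V := (hP F V B hB (W ⊔ W')).1
    have h3 : finrank F ↥(W ⊔ W') ≤ finrank F W + finrank F W' :=
      Submodule.finrank_add_le_finrank_add_finrank W W'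
    obtain ⟨c, hc, hc1, hc2⟩ := hF F V h2 B hB X (by omega)
    have hfix : ∀ v ∈ W ⊔ W', c v = v := by
      intro v hv
      apply hc2
      intro x hx
      rw [hB.symm]
      exact hx v hv
    refine ⟨c, hc, hc1, mem_stab ?_, mem_stab ?_⟩
    · intro x hx
      rw [hfix x (Submodule.mem_sup_left hx)]
      exact hx
    · intro x hx
      change g.symm (c (g x)) ∈ W
      have h4 : g x ∈ W' := ⟨x, hx, rfl⟩
      rw [hfix _ (Submodule.mem_sup_right h4), g.symm_apply_apply]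
      exact hx

/-- the case of a totally isotropic `W` -/
lemma ts_case (hT : S_TS) (hW : S_PROPW) (h2 : (2 : F) ≠ 0)
    {B : V →ₗ[F] V →ₗ[F] F} (hB : IsForm B)
    (h8 : 8 ≤ finrank F V) (W : Submodule F V) (hW0 : W ≠ ⊥) (hw2 : 2 ≤ finrank F W)
    (hk : 2 * finrank F W ≤ finrank F V) (hsing : ∀ x ∈ W, ∀ y ∈ W, B x y = 0) :
    ¬ (Om B ≤ stab W) ∧
      ∀ g ∈ Orth B, ∃ c ∈ Om B, NonScal c ∧ c ∈ stab W ∧ g⁻¹ * c * g ∈ stab W := by
  constructor
  · intro hcon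
    obtain ⟨c, hc, x, hx, hcx⟩ := hW F V h2 B hB h8 W hW0 hk
    exact hcx ((hcon hc x).2 hx)
  · intro g hg
    set W' := W.map (g : V →ₗ[F] V) with hW'
    have hf' : finrank F W' = finrank F W := LinearEquiv.finrank_map_eq g W
    have hsing' : ∀ x ∈ W', ∀ y ∈ W', B x y = 0 := by
      rintro _ ⟨x, hx, rfl⟩ _ ⟨y, hy, rfl⟩
      change B (g x) (g y) = 0
      rw [orth_apply hg, hsing x hx y hy]
    obtain ⟨c, hc, hc1, hc2, hc3⟩ := hT F V h2 B hB (by omega) W W' hsing hsing' hw2 hf'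
    refine ⟨c, hc, hc1, mem_stab hc2, mem_stab ?_⟩
    intro x hx
    change g.symm (c (g x)) ∈ W
    have h3 : g x ∈ W' := ⟨x, hx, rfl⟩
    obtain ⟨y, hy, hyx⟩ := hc3 _ h3
    have h4 : g y = c (g x) := hyx
    rw [← h4, g.symm_apply_apply]
    exact hy

/-- the case `H = cent J` -/
lemma cent_case (hU : S_UNI) (hC : S_PROPJ) (h2 : (2 : F) ≠ 0)
    {B : V →ₗ[F] V →ₗ[F] F} (hB : IsForm B) (h6 : 6 ≤ finrank F V) {d : F}
    (hd : ∀ μ : F, μ * μ ≠ d) {J : V →ₗ[F] V} (hJ : IsJ B d J) :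
    ¬ (Om B ≤ cent J) ∧
      ∀ g ∈ Orth B, ∃ c ∈ Om B, NonScal c ∧ c ∈ cent J ∧ g⁻¹ * c * g ∈ cent J := by
  constructor
  · intro hcon
    obtain ⟨c, hc, x, hx⟩ := hC F V h2 B hB (by omega) d hd J hJ
    exact hx (hcon hc x)
  · intro g hg
    obtain ⟨c, hc, hc1, hc2, hc3⟩ := hU F V h2 B hB h6 d hd J (cj g J) hJ (cj_isJ hJ hg)
    refine ⟨c, hc, hc1, hc2, ?_⟩
    intro x
    change g.symm (c (g (J x))) = J (g.symm (c (g x)))
    have h3 := hc3 (g x)
    rw [cj_apply, cj_apply, g.symm_apply_apply] at h3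
    rw [h3, g.symm_apply_apply]

lemma main_case (hP : S_PERP) (hV : S_EVO) (hJ : S_JV) (hU : S_UNI) (hN : S_NH) (hF : S_FIX)
    (hT : S_TS) (hW : S_PROPW) (hC : S_PROPJ) (h2 : (2 : F) ≠ 0) {B : V →ₗ[F] V →ₗ[F] F}
    (hB : IsForm B) (hplus : IsPlus B) (m : ℕ) (hm : 6 ≤ m) (hm4 : m % 4 = 2)
    (hdim : finrank F V = 2 * m) {s : V ≃ₗ[F] V} (hs : s ∈ Orth B) :
    ∃ H : Subgroup (V ≃ₗ[F] V), s ∈ H ∧ (∀ h : V ≃ₗ[F] V, (∃ l : F, ∀ x, h x = l • x) → h ∈ H) ∧
      ¬ (Om B ≤ H) ∧ ∀ g ∈ Orth B, ∃ c ∈ Om B, NonScal c ∧ c ∈ H ∧ g⁻¹ * c * g ∈ H := by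
  classical
  have hex : ∃ k, ∃ W : Submodule F V, (∀ x ∈ W, s x ∈ W) ∧ W ≠ ⊥ ∧ finrank F W = k := by
    refine ⟨_, ⊤, fun x _ => Submodule.mem_top, ?_, rfl⟩
    intro h
    have h1 : finrank F (⊤ : Submodule F V) = 0 := by rw [h, finrank_bot]
    rw [finrank_top] at h1
    omega
  obtain ⟨W, hWi, hW0, hWk⟩ := Nat.find_spec hex
  have hmin : ∀ W' : Submodule F V, (∀ x ∈ W', s x ∈ W') → W' ≠ ⊥ → finrank F W ≤ finrank F W' := by
    intro W' h1 h3
    rw [hWk]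
    exact Nat.find_min' hex ⟨W', h1, h3, rfl⟩
  have hirr : IrredOn s W := by
    refine ⟨hWi, fun U hUW hUi => ?_⟩
    by_cases h : U = ⊥
    · exact Or.inl h
    · exact Or.inr (Submodule.eq_of_le_of_finrank_le hUW (hmin U hUi h))
  obtain ⟨hpd, -, -⟩ := hP F V B hB W
  have hpi := perp_inv hs hWi
  by_cases hk : 2 * finrank F W + 3 ≤ finrank F V
  · obtain ⟨h1, h3⟩ := fix_case hP hF hW h2 hB (by omega) W hW0 hk
    exact ⟨stab W, mem_stab hWi, scal_stab W, h1, h3⟩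
  by_cases htop : W = ⊤
  · exfalso
    rw [htop] at hirr
    exact hN F V h2 B hB m (by omega) hdim s hs hirr hplus
  have hWlt : finrank F W < finrank F V := Submodule.finrank_lt htop
  by_cases hd : W ⊓ perp B W = ⊥
  · -- nondegenerate
    have hp0 : perp B W ≠ ⊥ := by
      intro h
      rw [h, finrank_bot] at hpd
      omega
    have hle := hmin _ hpi hp0
    have hkm : finrank F W = m := by
      rcases hV F V h2 B hB s hs W hd hirr with h1 | ⟨a, ha⟩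
      · omega
      · omega
    have hkm' : finrank F (perp B W) = m := by omega
    obtain ⟨k', hk'⟩ : ∃ k', m = 2 * k' := ⟨m / 2, by omega⟩
    have hirr' : IrredOn s (perp B W) := by
      refine ⟨hpi, fun U hUW hUi => ?_⟩
      by_cases h : U = ⊥
      · exact Or.inl h
      · refine Or.inr (Submodule.eq_of_le_of_finrank_le hUW ?_)
        have := hmin U hUi h
        omega
    have hodd : Odd k' := by
      rw [Nat.odd_iff]
      omega
    obtain ⟨d, hdd⟩ := exists_nonsq (F := F) h2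
    obtain ⟨J, hIJ, hsJ⟩ := hJ F V h2 B hB k' hodd s hs W (by omega) (by omega) hd hirr hirr' d hdd
    obtain ⟨h1, h3⟩ := cent_case hU hC h2 hB (by omega) hdd hIJ
    exact ⟨cent J, hsJ, scal_cent J, h1, h3⟩
  · -- totally isotropic
    have h1 : W ⊓ perp B W = W := by
      rcases hirr.irr (W ⊓ perp B W) inf_le_left (fun x hx => ⟨hWi x hx.1, hpi x hx.2⟩) with h | h
      · exact absurd h hd
      · exact h
    have hle : W ≤ perp B W := by
      intro x hx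
      have h3 : x ∈ W ⊓ perp B W := by rw [h1]; exact hx
      exact h3.2
    have hsing : ∀ x ∈ W, ∀ y ∈ W, B x y = 0 := fun x hx y hy => hle hy x hx
    have h3 := Submodule.finrank_mono hle
    obtain ⟨h4, h5⟩ := ts_case hT hW h2 hB (by omega) W hW0 (by omega) (by omega) hsing
    exact ⟨stab W, mem_stab hWi, scal_stab W, h4, h5⟩

end Cases

end Pool.Agent.H330.PT.TOP

namespace Pool.Agent.H330.PT

theorem h_TOP (hP : S_PERP) (hV : S_EVO) (hJ : S_JV) (hU : S_UNI) (hN : S_NH) (hF : S_FIX)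
    (hT : S_TS) (hW : S_PROPW) (hC : S_PROPJ) : S_TOP := by
  intro F V _ _ _ _ _ h2 B hB hplus m hm hm4 hdim s hs
  exact TOP.main_case hP hV hJ hU hN hF hT hW hC h2 hB hplus m hm hm4 hdim hs

end Pool.Agent.H330.PT
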