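import Pool.Agent.H330.PT.Spec

/-! # PT TS: two totally isotropic subspaces -/

namespace Pool.Agent.H330.PT

open Module

namespace TS

variable {F V : Type} [Field F] [AddCommGroup V] [Module F V]

/-- the Siegel transformation is not the identity -/
theorem sieg_ne {B : V →ₗ[F] V →ₗ[F] F} (hB : IsForm B) {a b : V} (ha : a ≠ 0)
    (hb : b ∉ Submodule.span F {a}) : ¬ ∀ x, sieg B a b x = x := by
  intro h
  apply ha
  apply hB.nondeg
  intro x
  rw [hB.symm]
  by_contra hne
  apply hb
  have h1 := h x
  unfold sieg at h1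
  have h2 : B x a • b = (B x b + 2⁻¹ * B b b * B x a) • a := by
    rw [add_smul]
    have h3 : B x a • b - B x b • a - (2⁻¹ * B b b * B x a) • a = 0 := by
      have h4 : x + (B x a • b - B x b • a - (2⁻¹ * B b b * B x a) • a) = x := by
        calc x + (B x a • b - B x b • a - (2⁻¹ * B b b * B x a) • a) =
            x + B x a • b - B x b • a - (2⁻¹ * B b b * B x a) • a := by abel
          _ = x := h1
      exact left_eq_add.1 h4.symm
    rw [sub_sub] at h3
    exact sub_eq_zero.1 h3
  have h3 : b = ((B x a)⁻¹ * (B x b + 2⁻¹ * B b b * B x a)) • a := by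
    have h4 := congrArg (fun v => (B x a)⁻¹ • v) h2
    simp only [smul_smul, inv_mul_cancel₀ hne, one_smul] at h4
    exact h4
  rw [h3]
  exact Submodule.smul_mem _ _ (Submodule.mem_span_singleton_self a)

end TS

theorem h_TS (hS : S_SIEG) : S_TS := by
  intro F V _ _ _ _ hF B hB hd W W' hW hW' h2 h2'
  have key : ∀ a b : V, a ≠ 0 → b ∉ Submodule.span F {a} → B a a = 0 → B a b = 0 →
      (∀ x ∈ W, sieg B a b x ∈ W) → (∀ x ∈ W', sieg B a b x ∈ W') →
      ∃ c ∈ Om B, NonScal c ∧ (∀ x ∈ W, c x ∈ W) ∧ (∀ x ∈ W', c x ∈ W') := by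
    intro a b ha hb haa hab h3 h4
    obtain ⟨g, _, hgO, hg⟩ := hS F V hF B hB hd a b haa hab
    refine ⟨g, hgO, ?_, ?_, ?_⟩
    · intro l
      by_contra hcon
      push Not at hcon
      have h5 : g a = a := by
        rw [hg a]
        unfold sieg
        rw [haa, hab]
        simp
      have h6 : l = 1 := by
        have h7 : (l - 1) • a = 0 := by
          rw [sub_smul, one_smul, ← hcon a, h5, sub_self]
        rcases smul_eq_zero.1 h7 with h8 | h8
        · exact sub_eq_zero.1 h8
        · exact absurd h8 ha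
      apply TS.sieg_ne hB ha hb
      intro x
      rw [← hg x, hcon x, h6, one_smul]
    · intro x hx
      rw [hg x]
      exact h3 x hx
    · intro x hx
      rw [hg x]
      exact h4 x hx
  by_cases hint : ∃ a, a ∈ W ∧ a ∈ W' ∧ a ≠ 0
  · obtain ⟨a, haW, haW', ha⟩ := hint
    obtain ⟨b, hbW, hb⟩ : ∃ b ∈ W, b ∉ Submodule.span F {a} := by
      by_contra hcon
      push Not at hcon
      have h3 := Submodule.finrank_mono (show W ≤ Submodule.span F {a} from hcon)
      rw [finrank_span_singleton ha] at h3
      omega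
    refine key a b ha hb (hW a haW a haW) (hW a haW b hbW) ?_ ?_
    · intro x hx
      unfold sieg
      rw [hW x hx a haW, hW x hx b hbW]
      simpa using hx
    · intro x hx
      unfold sieg
      rw [hW' x hx a haW']
      simp only [zero_smul, add_zero, mul_zero, sub_zero]
      exact W'.sub_mem hx (W'.smul_mem _ haW')
  · push Not at hint
    obtain ⟨a, haW, ha⟩ : ∃ a ∈ W, a ≠ 0 := by
      by_contra hcon
      push Not at hcon
      have h3 : W = ⊥ := (Submodule.eq_bot_iff W).2 hcon
      rw [h3, finrank_bot] at h2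
      omega
    obtain ⟨b, hbW, hb, hab⟩ : ∃ b ∈ W', b ≠ 0 ∧ B a b = 0 := by
      have h3 : LinearMap.ker ((B a).domRestrict W') ≠ ⊥ := by
        apply LinearMap.ker_ne_bot_of_finrank_lt
        rw [finrank_self, h2']
        omega
      obtain ⟨b, hb, hb0⟩ := Submodule.exists_mem_ne_zero_of_ne_bot h3
      refine ⟨b, b.2, ?_, hb⟩
      intro h
      exact hb0 (Subtype.ext h)
    refine key a b ha ?_ (hW a haW a haW) hab ?_ ?_
    · intro h
      apply hb
      by_contra hb0
      exact hb0 (hint b (Submodule.span_le.2 (Set.singleton_subset_iff.2 haW) h) hbW)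
    · intro x hx
      unfold sieg
      rw [hW x hx a haW]
      simp only [zero_smul, add_zero, mul_zero, sub_zero]
      exact W.sub_mem hx (W.smul_mem _ haW)
    · intro x hx
      unfold sieg
      rw [hW' x hx b hbW, hW' b hbW b hbW]
      simp only [zero_smul, sub_zero, zero_mul, mul_zero]
      exact W'.add_mem hx (W'.smul_mem _ hbW)

end Pool.Agent.H330.PT
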