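import Pool.Agent.H330.PT.Spec

/-!
# UNI: a nonscalar element of `Ω` commuting with two skew square roots
-/

set_option autoImplicit false

namespace Pool.Agent.H330.PT

open Module Polynomial

/-- UNI -/
theorem h_UNI (hI : S_ISO) (hX : S_XX) (hN : S_NIL) : S_UNI := by
  intro F V _ _ _ _ _ h2 B hB h6 d hd J J' hJ hJ'
  obtain ⟨M, hM, hM0⟩ := hI F V h2 B hB h6 d hd J J' hJ hJ'
  obtain ⟨X, hX0, hXs, hX2, hXJ, hXJ'⟩ := hX F V h2 B hB d hd J J' hJ hJ' M hM hM0
  obtain ⟨c, hc, hcX⟩ := hN F V h2 B hB (by omega) X hXs hX2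
  refine ⟨c, hc, fun l => ?_, fun x => ?_, fun x => ?_⟩
  · by_contra h
    have hl : ∀ x, c x = l • x := fun x => by
      by_contra hx
      exact h ⟨x, hx⟩
    refine hX0 (LinearMap.ext fun v => ?_)
    rw [LinearMap.zero_apply]
    by_contra hv
    have e1 : l • X v = X v := by rw [← hl, hcX, hX2, add_zero]
    have e2 : (l - 1) • X v = 0 := by rw [sub_smul, one_smul, e1, sub_self]
    have e3 : l = 1 := by
      rcases smul_eq_zero.1 e2 with h3 | h3
      · exact sub_eq_zero.1 h3
      · exact absurd h3 hv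
    have e4 : v + X v = v := by rw [← hcX, hl, e3, one_smul]
    exact hv (by simpa using e4)
  · rw [hcX, hcX, hXJ, map_add]
  · rw [hcX, hcX, hXJ', map_add]

end Pool.Agent.H330.PT
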