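import Pool.Agent.H330.PT.Spec

/-!
A nonzero skew operator with square zero which commutes with `J` and `J'` (helper840 for
helper330).
-/

namespace Pool.Agent.H330.PT

open Module Polynomial

namespace XX

variable {F V : Type} [Field F] [AddCommGroup V] [Module F V] [FiniteDimensional F V]

/-- the operator attached to a nondegenerate form on `M` -/
theorem exists_op (B : V →ₗ[F] V →ₗ[F] F) (M : Submodule F V) (b : M →ₗ[F] M →ₗ[F] F)
    (hb : ∀ x, (∀ y, b x y = 0) → x = 0) :
    ∃ Y : V →ₗ[F] M, ∀ y (m : M), b (Y y) m = B y m := by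
  have hinj : Function.Injective (b : M →ₗ[F] (M →ₗ[F] F)) := by
    rw [injective_iff_map_eq_zero]
    intro x hx
    refine hb x fun y => ?_
    rw [hx]
    rfl
  have hdim : finrank F M = finrank F (M →ₗ[F] F) := (Subspace.dual_finrank_eq (K := F) (V := M)).symm
  let e := LinearMap.linearEquivOfInjective b hinj hdim
  refine ⟨e.symm.toLinearMap ∘ₗ (B.compl₂ M.subtype), fun y m => ?_⟩
  have h : b (e.symm (B.compl₂ M.subtype y)) = B.compl₂ M.subtype y := by
    have := e.apply_symm_apply (B.compl₂ M.subtype y)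
    rwa [LinearMap.linearEquivOfInjective_apply] at this
  change b (e.symm (B.compl₂ M.subtype y)) m = B y m
  rw [h]
  rfl

omit [FiniteDimensional F V] in
theorem comm (B : V →ₗ[F] V →ₗ[F] F) (M : Submodule F V) (b : M →ₗ[F] M →ₗ[F] F)
    (hb : ∀ x, (∀ y, b x y = 0) → x = 0) (Y : V →ₗ[F] M) (hY : ∀ y (m : M), b (Y y) m = B y m)
    (J : V →ₗ[F] V) (hJ : ∀ x y, B (J x) y = - B x (J y)) (hM : ∀ x ∈ M, J x ∈ M)
    (hbJ : ∀ x y x' y' : M, (x' : V) = J x → (y' : V) = J y → b x' y = - b x y') (y : V) :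
    ((Y (J y) : M) : V) = J (Y y) := by
  have h : Y (J y) - ⟨J (Y y), hM _ (Y y).2⟩ = 0 := by
    refine hb _ fun m => ?_
    have h1 := hbJ (Y y) m ⟨J (Y y), hM _ (Y y).2⟩ ⟨J m, hM _ m.2⟩ rfl rfl
    rw [map_sub, LinearMap.sub_apply, h1, hY, hY, hJ]
    simp
  have h2 := congrArg Subtype.val (sub_eq_zero.mp h)
  exact h2

end XX

theorem h_XX (hT : S_STRUCT) (hB : S_BETA) : S_XX := by
  intro F V _ _ _ _ _ h2 B hF d hd J J' hJ hJ' M hM hiso
  obtain ⟨e, α, β, hS⟩ := hT F V h2 d hd J J' hJ.sq hJ'.sq M hM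
  obtain ⟨b, alt, nd, bJ, bJ'⟩ := hB F V d J J' hJ.sq hJ'.sq M e α β hM hS
  obtain ⟨Y, hY⟩ := XX.exists_op B M b nd
  have skew : ∀ x y : M, b x y = - b y x := by
    intro x y
    have h := alt (x + y)
    simp only [map_add, LinearMap.add_apply, alt x, alt y] at h
    have : b x y + b y x = 0 := by
      rw [← h]
      ring
    exact eq_neg_of_add_eq_zero_left this
  refine ⟨M.subtype ∘ₗ Y, ?_, ?_, ?_, ?_, ?_⟩
  · intro h0
    obtain ⟨m, hm, hm0⟩ := (Submodule.ne_bot_iff M).mp hM.ne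
    refine hm0 (hF.nondeg m fun y => ?_)
    rw [hF.symm]
    have h1 := hY y ⟨m, hm⟩
    have h3 : Y y = 0 := by
      have := LinearMap.congr_fun h0 y
      exact Subtype.ext this
    rw [h3, map_zero, LinearMap.zero_apply] at h1
    exact h1.symm
  · intro x y
    change B (Y x : V) y = - B x (Y y : V)
    rw [hF.symm, ← hY, ← hY, skew]
  · intro x
    have : Y (Y x : V) = 0 := by
      refine nd _ fun m => ?_
      rw [hY]
      exact hiso _ (Y x).2 _ m.2
    change ((Y (Y x : V) : M) : V) = 0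
    rw [this]
    rfl
  · intro x
    exact XX.comm B M b nd Y hY J hJ.skew (fun x hx => (hM.inv x hx).1) bJ x
  · intro x
    exact XX.comm B M b nd Y hY J' hJ'.skew (fun x hx => (hM.inv x hx).2) bJ' x

end Pool.Agent.H330.PT
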